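import Mathlib

/-!
Croft's question on small line sections (problem MP_f884a2_an): shared definitions.

A non-vertical line `y = u + a x` is encoded by the pair `l = (u, a)`.
-/

open MeasureTheory Set

namespace Pool.Agent.Croft

/-- Section of `E` by the line `y = l.1 + l.2 * x`, as a set of abscissae. -/
def sec (E : Set (ℝ × ℝ)) (l : ℝ × ℝ) : Set ℝ := {x | (x, l.1 + l.2 * x) ∈ E}

/-- Length of the section of `E` by the line `y = l.1 + l.2 * x`. -/
noncomputable def len (E : Set (ℝ × ℝ)) (l : ℝ × ℝ) : ℝ :=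
  Real.sqrt (1 + l.2 ^ 2) * (volume (sec E l)).toReal

/-- The class of planar sets used in the construction: the section length is locally Lipschitz
on slanted lines and `C^1` off a closed null set of lines. -/
structure Nice (E : Set (ℝ × ℝ)) : Prop where
  meas : MeasurableSet E
  fin : volume E < ⊤
  rng : ∀ p ∈ E, 0 ≤ p.1 ∧ p.1 ≤ 5
  lip : ∀ K : Set (ℝ × ℝ), IsCompact K → (∀ l ∈ K, l.2 ≠ 0) →
    ∃ Λ : NNReal, LipschitzOnWith Λ (len E) K
  smooth : ∃ V : Set (ℝ × ℝ), IsClosed V ∧ volume V = 0 ∧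
    ∀ l : ℝ × ℝ, l.2 ≠ 0 → l ∉ V → ContDiffAt ℝ 1 (len E) l

/-- `E` leaves a free vertical strip to the right of both walls `x = 0` and `x = 1`. -/
def Gap (E : Set (ℝ × ℝ)) (ϱ : ℝ) : Prop :=
  ∀ p ∈ E, ¬ (0 < p.1 ∧ p.1 < ϱ) ∧ ¬ (1 < p.1 ∧ p.1 < 1 + ϱ)

/-- The smooth periodic profile of a layer. -/
noncomputable def Tf (z : ℝ) : ℝ := (1 - Real.cos (Real.pi * z)) / 2

/-- Abscissa length of the section of the layer
`{ α r < x ≤ α r + α r Tf (y / r) }` (wall at `x = 0`) by the line `l`. -/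
noncomputable def layX (α r : ℝ) (l : ℝ × ℝ) : ℝ :=
  (volume {z : ℝ | 0 < z ∧ z ≤ α * r * Tf ((l.1 + l.2 * (α * r + z)) / r)}).toReal

/-- Length of the section of the layer (wall at `x = 0`) by the line `l`. -/
noncomputable def lay (α r : ℝ) (l : ℝ × ℝ) : ℝ := Real.sqrt (1 + l.2 ^ 2) * layX α r l

/-- The layer as a planar set, with wall at `x = w`. -/
def layerSet (w α r : ℝ) : Set (ℝ × ℝ) :=
  {p | w + α * r < p.1 ∧ p.1 ≤ w + α * r + α * r * Tf (p.2 / r)}

end Pool.Agent.Croft
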