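import Mathlib
import Pool.Agent.Croft.Defs

/-!
Croft's question on small line sections (problem MP_f884a2_an): the analytic properties of one
layer (module M4).
-/

open MeasureTheory Set

namespace Pool.Agent.Croft

namespace LayerAux

open Real Filter Topology

/-- The derivative of `Tf`. -/
noncomputable def dT (z : ℝ) : ℝ := Real.pi / 2 * Real.sin (Real.pi * z)

lemma hasDerivAt_Tf (z : ℝ) : HasDerivAt Tf (dT z) z := by
  have h1 : HasDerivAt (fun z : ℝ => Real.pi * z) (Real.pi * 1) z :=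
    (hasDerivAt_id z).const_mul Real.pi
  have h2 := (Real.hasDerivAt_cos (Real.pi * z)).comp z h1
  have h3 : HasDerivAt (fun z : ℝ => (1 - Real.cos (Real.pi * z)) / 2)
      ((0 - (-Real.sin (Real.pi * z) * (Real.pi * 1))) / 2) z :=
    ((hasDerivAt_const z (1 : ℝ)).sub h2).div_const 2
  have h4 : (0 - (-Real.sin (Real.pi * z) * (Real.pi * 1))) / 2 = dT z := by
    unfold dT; ring
  rw [h4] at h3
  exact h3

lemma hasDerivAt_Tf_div (r y : ℝ) :
    HasDerivAt (fun y : ℝ => Tf (y / r)) (dT (y / r) * (1 / r)) y := by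
  have h1 : HasDerivAt (fun y : ℝ => y / r) (1 / r) y := (hasDerivAt_id y).div_const r
  have h2 : HasDerivAt Tf (dT (y / r)) ((fun y : ℝ => y / r) y) := hasDerivAt_Tf (y / r)
  exact h2.comp y h1

lemma continuous_Tf : Continuous Tf := by
  unfold Tf
  fun_prop

lemma continuous_dT : Continuous dT := by
  unfold dT
  fun_prop

lemma Tf_nonneg (z : ℝ) : 0 ≤ Tf z := by
  unfold Tf
  have := Real.cos_le_one (Real.pi * z)
  linarith

lemma Tf_le_one (z : ℝ) : Tf z ≤ 1 := by
  unfold Tf
  have := Real.neg_one_le_cos (Real.pi * z)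
  linarith

lemma abs_dT_le (z : ℝ) : |dT z| ≤ Real.pi / 2 := by
  unfold dT
  rw [abs_mul, abs_of_pos (by positivity : (0 : ℝ) < Real.pi / 2)]
  have h := Real.abs_sin_le_one (Real.pi * z)
  have hp : (0 : ℝ) < Real.pi / 2 := by positivity
  nlinarith

lemma pi_half_le : Real.pi / 2 ≤ 8 / 5 := by
  have := Real.pi_lt_d2
  linarith

lemma abs_dT_le' (z : ℝ) : |dT z| ≤ 8 / 5 := (abs_dT_le z).trans pi_half_le

/-- `Tf` is Lipschitz with constant `8 / 5`. -/
lemma Tf_sub_le (x y : ℝ) : |Tf x - Tf y| ≤ 8 / 5 * |x - y| := by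
  have h : ∀ z ∈ (univ : Set ℝ), HasDerivWithinAt Tf (dT z) univ z :=
    fun z _ => (hasDerivAt_Tf z).hasDerivWithinAt
  have h' := Convex.norm_image_sub_le_of_norm_hasDerivWithin_le (f := Tf) (f' := dT)
    (s := (univ : Set ℝ)) (C := 8 / 5) h (fun z _ => by
      rw [Real.norm_eq_abs]; exact abs_dT_le' z) convex_univ (mem_univ y) (mem_univ x)
  simpa [Real.norm_eq_abs] using h'

end LayerAux

open LayerAux Filter Topology in
/-- Module M4: all the analytic properties of one layer. -/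
theorem layer_props {α r A : ℝ} (hα : 0 < α) (hr : 0 < r) (hA : 1 ≤ A) (hαA : α * A ≤ 1 / 16) :
    (∀ l : ℝ × ℝ, |l.2| ≤ A → 0 ≤ layX α r l ∧ layX α r l ≤ α * r ∧
      layX α r l = α * r * Tf ((l.1 + l.2 * (α * r + layX α r l)) / r) ∧
      {z : ℝ | 0 < z ∧ z ≤ α * r * Tf ((l.1 + l.2 * (α * r + z)) / r)} = Ioc 0 (layX α r l)) ∧
    ∃ q : ℝ × ℝ → ℝ, ContinuousOn q {l | |l.2| < A} ∧ ∀ l : ℝ × ℝ, |l.2| < A →
      HasFDerivAt (layX α r) (q l • ContinuousLinearMap.fst ℝ ℝ ℝ +
        (q l * (α * r + layX α r l)) • ContinuousLinearMap.snd ℝ ℝ ℝ) l ∧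
      |q l| ≤ 2 * α ∧
      (Int.fract ((l.1 / r + l.2 * α) / 2) ∈ Ico (1 / 8 : ℝ) (3 / 8) → α / 2 ≤ q l) := by
  have hαr : 0 < α * r := mul_pos hα hr
  have hrne : r ≠ 0 := hr.ne'
  -- the key Lipschitz bound
  have keyL : ∀ a : ℝ, |a| ≤ A → |a| * α ≤ 1 / 16 := by
    intro a ha
    calc |a| * α ≤ A * α := by gcongr
      _ ≤ 1 / 16 := by linarith
  have hPhi : ∀ a : ℝ, |a| ≤ A → ∀ y y' : ℝ,
      |a * (α * r * Tf (y / r)) - a * (α * r * Tf (y' / r))| ≤ 1 / 10 * |y - y'| := by
    intro a ha y y'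
    have h1 := Tf_sub_le (y / r) (y' / r)
    have h2 : a * (α * r * Tf (y / r)) - a * (α * r * Tf (y' / r)) =
        a * (α * r) * (Tf (y / r) - Tf (y' / r)) := by ring
    rw [h2, abs_mul, abs_mul, abs_of_pos hαr]
    have h3 : |y / r - y' / r| = |y - y'| / r := by
      rw [← sub_div, abs_div, abs_of_pos hr]
    rw [h3] at h1
    calc |a| * (α * r) * |Tf (y / r) - Tf (y' / r)| ≤ |a| * (α * r) * (8 / 5 * (|y - y'| / r)) := by
          gcongr
      _ = (|a| * α) * (8 / 5 * |y - y'|) := by field_simp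
      _ ≤ (1 / 16) * (8 / 5 * |y - y'|) := by
          have := keyL a ha
          gcongr
      _ = 1 / 10 * |y - y'| := by ring
  -- monotonicity of the section condition
  have hmono : ∀ l : ℝ × ℝ, |l.2| ≤ A → ∀ z z' : ℝ, z < z' →
      z - α * r * Tf ((l.1 + l.2 * (α * r + z)) / r) <
      z' - α * r * Tf ((l.1 + l.2 * (α * r + z')) / r) := by
    intro l hl z z' hz
    have h1 := Tf_sub_le ((l.1 + l.2 * (α * r + z')) / r) ((l.1 + l.2 * (α * r + z)) / r)
    have h3 : (l.1 + l.2 * (α * r + z')) / r - (l.1 + l.2 * (α * r + z)) / r =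
        l.2 * (z' - z) / r := by ring
    rw [h3, abs_div, abs_mul, abs_of_pos hr, abs_of_pos (sub_pos.2 hz)] at h1
    have h4 : α * r * (Tf ((l.1 + l.2 * (α * r + z')) / r) - Tf ((l.1 + l.2 * (α * r + z)) / r))
        ≤ 1 / 10 * (z' - z) := by
      calc α * r * (Tf ((l.1 + l.2 * (α * r + z')) / r) - Tf ((l.1 + l.2 * (α * r + z)) / r))
          ≤ α * r * (8 / 5 * (|l.2| * (z' - z) / r)) := by
            gcongr
            exact (le_abs_self _).trans h1
        _ = (|l.2| * α) * (8 / 5 * (z' - z)) := by field_simp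
        _ ≤ (1 / 16) * (8 / 5 * (z' - z)) := by
            have := keyL l.2 hl
            have hzz : 0 ≤ 8 / 5 * (z' - z) := by linarith
            exact mul_le_mul_of_nonneg_right this hzz
        _ = 1 / 10 * (z' - z) := by ring
    have h5 : 0 < z' - z := by linarith
    nlinarith
  -- the zero
  have hzero : ∀ l : ℝ × ℝ, |l.2| ≤ A → 0 ≤ layX α r l ∧ layX α r l ≤ α * r ∧
      layX α r l = α * r * Tf ((l.1 + l.2 * (α * r + layX α r l)) / r) ∧
      {z : ℝ | 0 < z ∧ z ≤ α * r * Tf ((l.1 + l.2 * (α * r + z)) / r)} =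
        Ioc 0 (layX α r l) := by
    intro l hl
    set h : ℝ → ℝ := fun z => z - α * r * Tf ((l.1 + l.2 * (α * r + z)) / r) with hh
    have hcont : Continuous h := by
      rw [hh]
      have := continuous_Tf
      fun_prop
    have h0 : h 0 ≤ 0 := by
      have := Tf_nonneg ((l.1 + l.2 * (α * r + 0)) / r)
      simp only [hh]
      nlinarith
    have h1 : 0 ≤ h (α * r) := by
      have := Tf_le_one ((l.1 + l.2 * (α * r + α * r)) / r)
      simp only [hh]
      nlinarith
    obtain ⟨x, hx, hx0⟩ := intermediate_value_Icc hαr.le hcont.continuousOn ⟨h0, h1⟩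
    have hset : {z : ℝ | 0 < z ∧ z ≤ α * r * Tf ((l.1 + l.2 * (α * r + z)) / r)} =
        Ioc 0 x := by
      ext z
      simp only [mem_ofPred_eq, mem_Ioc]
      constructor
      · rintro ⟨hz0, hz1⟩
        refine ⟨hz0, ?_⟩
        by_contra hcon
        push Not at hcon
        have := hmono l hl x z hcon
        change h x < h z at this
        have h2 : h z ≤ 0 := by simp only [hh]; linarith
        linarith
      · rintro ⟨hz0, hz1⟩
        refine ⟨hz0, ?_⟩
        rcases hz1.lt_or_eq with hz | hz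
        · have := hmono l hl z x hz
          change h z < h x at this
          have h2 : h z < 0 := by linarith
          simp only [hh] at h2
          linarith
        · subst hz
          simp only [hh] at hx0
          linarith
    have hX : layX α r l = x := by
      unfold layX
      rw [hset, Real.volume_Ioc, ENNReal.toReal_ofReal (by linarith [hx.1])]
      ring
    rw [hX]
    refine ⟨hx.1, hx.2, ?_, hset⟩
    simp only [hh] at hx0
    linarith
  refine ⟨hzero, ?_⟩
  -- the solution map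
  set Y : ℝ × ℝ → ℝ := fun l => l.1 + l.2 * (α * r + layX α r l) with hY
  have hXY : ∀ l : ℝ × ℝ, |l.2| ≤ A → layX α r l = α * r * Tf (Y l / r) := fun l hl =>
    (hzero l hl).2.2.1
  have hYeq : ∀ l : ℝ × ℝ, |l.2| ≤ A →
      Y l - l.2 * (α * r * Tf (Y l / r)) = l.1 + l.2 * (α * r) := by
    intro l hl
    rw [← hXY l hl]
    simp only [hY]
    ring
  -- Lipschitz bound for `Y`
  have hYlip : ∀ l l' : ℝ × ℝ, |l.2| ≤ A → |l'.2| ≤ A →
      |Y l - Y l'| ≤ 2 * (|l.1 - l'.1| + 2 * (α * r) * |l.2 - l'.2|) := by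
    intro l l' hl hl'
    have e1 := hYeq l hl
    have e2 := hYeq l' hl'
    have h1 := hPhi l.2 hl (Y l) (Y l')
    have e3 : Y l - Y l' = (l.2 * (α * r * Tf (Y l / r)) - l.2 * (α * r * Tf (Y l' / r))) +
        (l.2 - l'.2) * (α * r * Tf (Y l' / r)) + (l.1 - l'.1) + (l.2 - l'.2) * (α * r) := by
      linarith
    have h2 : |(l.2 - l'.2) * (α * r * Tf (Y l' / r))| ≤ |l.2 - l'.2| * (α * r) := by
      rw [abs_mul]
      gcongr
      rw [abs_of_nonneg (mul_nonneg hαr.le (Tf_nonneg _))]
      have := Tf_le_one (Y l' / r)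
      nlinarith
    have h3 : |(l.2 - l'.2) * (α * r)| = |l.2 - l'.2| * (α * r) := by
      rw [abs_mul, abs_of_pos hαr]
    have h4 : |Y l - Y l'| ≤ |l.2 * (α * r * Tf (Y l / r)) - l.2 * (α * r * Tf (Y l' / r))| +
        |(l.2 - l'.2) * (α * r * Tf (Y l' / r))| + |l.1 - l'.1| + |(l.2 - l'.2) * (α * r)| := by
      conv_lhs => rw [e3]
      refine (abs_add_le _ _).trans ?_
      gcongr
      refine (abs_add_le _ _).trans ?_
      gcongr
      exact abs_add_le _ _
    have h5 : 0 ≤ |l.2 - l'.2| * (α * r) := by positivity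
    have h6 : 0 ≤ |l.1 - l'.1| := abs_nonneg _
    nlinarith
  have hopen : IsOpen {l : ℝ × ℝ | |l.2| < A} :=
    isOpen_lt (continuous_abs.comp continuous_snd) continuous_const
  have hYcont : ContinuousOn Y {l : ℝ × ℝ | |l.2| < A} := by
    have : LipschitzOnWith (Real.toNNReal (2 * (1 + 2 * (α * r)))) Y {l : ℝ × ℝ | |l.2| < A} := by
      apply LipschitzOnWith.of_dist_le_mul
      intro l hl l' hl'
      rw [Real.coe_toNNReal _ (by positivity), Real.dist_eq]
      refine (hYlip l l' (le_of_lt hl) (le_of_lt hl')).trans ?_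
      have d1 : |l.1 - l'.1| ≤ dist l l' := by
        rw [← Real.dist_eq, Prod.dist_eq]; exact le_max_left _ _
      have d2 : |l.2 - l'.2| ≤ dist l l' := by
        rw [← Real.dist_eq, Prod.dist_eq]; exact le_max_right _ _
      calc 2 * (|l.1 - l'.1| + 2 * (α * r) * |l.2 - l'.2|)
          ≤ 2 * (dist l l' + 2 * (α * r) * dist l l') := by gcongr
        _ = 2 * (1 + 2 * (α * r)) * dist l l' := by ring
    exact this.continuousOn
  -- lower bound for the denominator
  have hden0 : ∀ a : ℝ, |a| ≤ A → ∀ z : ℝ, |a * α * dT z| ≤ 1 / 10 := by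
    intro a ha z
    rw [abs_mul, abs_mul, abs_of_pos hα]
    calc |a| * α * |dT z| ≤ (1 / 16) * (8 / 5) := by
          have h1 := keyL a ha
          have h2 := abs_dT_le' z
          have h3 := abs_nonneg (dT z)
          gcongr
      _ = 1 / 10 := by norm_num
  have hden : ∀ a : ℝ, |a| ≤ A → ∀ z : ℝ, 9 / 10 ≤ 1 - a * α * dT z := by
    intro a ha z
    have := abs_le.1 (hden0 a ha z)
    linarith [this.2]
  refine ⟨fun l => α * dT (Y l / r) / (1 - l.2 * α * dT (Y l / r)), ?_, ?_⟩
  · have hc := continuous_dT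
    have h1 : ContinuousOn (fun l : ℝ × ℝ => dT (Y l / r)) {l : ℝ × ℝ | |l.2| < A} :=
      hc.comp_continuousOn (hYcont.div_const r)
    refine ContinuousOn.div (continuousOn_const.mul h1) ?_ ?_
    · exact continuousOn_const.sub ((continuous_snd.continuousOn.mul continuousOn_const).mul h1)
    · intro l hl
      have := hden l.2 (le_of_lt hl) (Y l / r)
      linarith
  intro l hl
  have hl' : |l.2| ≤ A := hl.le
  set D : ℝ := 1 - l.2 * α * dT (Y l / r) with hD
  have hD9 : 9 / 10 ≤ D := hden l.2 hl' (Y l / r)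
  have hDpos : 0 < D := by linarith
  have hDne : D ≠ 0 := hDpos.ne'
  have hnhds : ∀ᶠ m in 𝓝 l, |(m : ℝ × ℝ).2| < A := hopen.mem_nhds hl
  refine ⟨?_, ?_, ?_⟩
  · -- derivative of the solution map
    set c : ℝ := α * r * (1 + Tf (Y l / r)) with hc
    have hf : HasFDerivAt (fun p : ℝ × ℝ => (p.1 - p.2 * (α * r * (1 + Tf (p.1 / r))), p.2))
        ((D • ContinuousLinearMap.fst ℝ ℝ ℝ - c • ContinuousLinearMap.snd ℝ ℝ ℝ).prod
          (ContinuousLinearMap.snd ℝ ℝ ℝ)) (Y l, l.2) := by
      refine HasFDerivAt.prodMk ?_ hasFDerivAt_snd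
      have t1 : HasFDerivAt (fun p : ℝ × ℝ => Tf (p.1 / r))
          ((dT (Y l / r) * (1 / r)) • ContinuousLinearMap.fst ℝ ℝ ℝ) (Y l, l.2) := by
        have a0 : HasFDerivAt (Prod.fst : ℝ × ℝ → ℝ) (ContinuousLinearMap.fst ℝ ℝ ℝ)
            (Y l, l.2) := hasFDerivAt_fst
        have a1 : HasDerivAt (fun y : ℝ => Tf (y / r)) (dT (Y l / r) * (1 / r))
            ((Prod.fst : ℝ × ℝ → ℝ) (Y l, l.2)) := hasDerivAt_Tf_div r (Y l)
        exact a1.comp_hasFDerivAt (Y l, l.2) a0
      have t2 : HasFDerivAt (fun p : ℝ × ℝ => α * r * (1 + Tf (p.1 / r)))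
          ((α * r) • ((dT (Y l / r) * (1 / r)) • ContinuousLinearMap.fst ℝ ℝ ℝ)) (Y l, l.2) :=
        (t1.const_add 1).const_mul (α * r)
      have t3 : HasFDerivAt (fun p : ℝ × ℝ => p.2 * (α * r * (1 + Tf (p.1 / r))))
          (l.2 • ((α * r) • ((dT (Y l / r) * (1 / r)) • ContinuousLinearMap.fst ℝ ℝ ℝ)) +
            (α * r * (1 + Tf (Y l / r))) • ContinuousLinearMap.snd ℝ ℝ ℝ) (Y l, l.2) :=
        hasFDerivAt_snd.mul t2
      have t4 : HasFDerivAt (fun p : ℝ × ℝ => p.1 - p.2 * (α * r * (1 + Tf (p.1 / r))))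
          (ContinuousLinearMap.fst ℝ ℝ ℝ -
            (l.2 • ((α * r) • ((dT (Y l / r) * (1 / r)) • ContinuousLinearMap.fst ℝ ℝ ℝ)) +
            (α * r * (1 + Tf (Y l / r))) • ContinuousLinearMap.snd ℝ ℝ ℝ)) (Y l, l.2) :=
        hasFDerivAt_fst.sub t3
      refine t4.congr_fderiv ?_
      ext
      · simp [hD]
        field_simp
      · simp [hc]
    have hg : HasFDerivAt (fun m : ℝ × ℝ => (Y m, m.2))
        ((((1 / D) • ContinuousLinearMap.fst ℝ ℝ ℝ + (c / D) • ContinuousLinearMap.snd ℝ ℝ ℝ).prod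
          (ContinuousLinearMap.snd ℝ ℝ ℝ)) ∘L (ContinuousLinearMap.id ℝ (ℝ × ℝ))) l := by
      refine HasFDerivAt.of_comp_of_leftInverse (f := fun p : ℝ × ℝ =>
        (p.1 - p.2 * (α * r * (1 + Tf (p.1 / r))), p.2)) (h := fun m => m) ?_ hf
        (hasFDerivAt_id l) ?_ ?_
      · exact (hYcont.continuousAt (hopen.mem_nhds hl)).prodMk continuous_snd.continuousAt
      · filter_upwards [hnhds] with m hm
        have e := hYeq m (le_of_lt hm)
        refine Prod.ext ?_ rfl
        simp only [Function.comp]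
        linarith
      · intro p
        refine Prod.ext ?_ rfl
        simp
        field_simp
        ring
    have hYd : HasFDerivAt Y
        ((1 / D) • ContinuousLinearMap.fst ℝ ℝ ℝ + (c / D) • ContinuousLinearMap.snd ℝ ℝ ℝ) l := by
      have := hg.fst
      refine this.congr_fderiv ?_
      ext <;> simp
    have hXd : HasFDerivAt (fun m : ℝ × ℝ => α * r * Tf (Y m / r))
        ((α * r) • ((dT (Y l / r) * (1 / r)) • ((1 / D) • ContinuousLinearMap.fst ℝ ℝ ℝ +
          (c / D) • ContinuousLinearMap.snd ℝ ℝ ℝ))) l := by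
      have a1 := (hasDerivAt_Tf_div r (Y l)).comp_hasFDerivAt l hYd
      exact a1.const_mul (α * r)
    have hXeq : layX α r =ᶠ[𝓝 l] fun m : ℝ × ℝ => α * r * Tf (Y m / r) := by
      filter_upwards [hnhds] with m hm
      exact hXY m (le_of_lt hm)
    have hfin := hXd.congr_of_eventuallyEq hXeq
    refine hfin.congr_fderiv ?_
    have hXl := hXY l hl'
    ext
    · simp [← hD]
      field_simp
    · simp [hc, ← hD]
      rw [hXl]
      field_simp
  · -- upper bound
    rw [abs_div, abs_of_pos hDpos, div_le_iff₀ hDpos, abs_mul, abs_of_pos hα]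
    have h2 := abs_dT_le' (Y l / r)
    nlinarith
  · -- lower bound
    intro hfr
    obtain ⟨hX0, hX1, -, -⟩ := hzero l hl'
    set t : ℝ := (l.1 / r + l.2 * α) / 2 with ht
    have hyr : Y l / r = 2 * t + l.2 * layX α r l / r := by
      simp only [hY, ht]
      field_simp
      ring
    have hsmall : |l.2 * layX α r l / r| ≤ 1 / 16 := by
      rw [abs_div, abs_mul, abs_of_pos hr, abs_of_nonneg hX0, div_le_iff₀ hr]
      have h1 := keyL l.2 hl'
      calc |l.2| * layX α r l ≤ |l.2| * (α * r) := by gcongr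
        _ = |l.2| * α * r := by ring
        _ ≤ 1 / 16 * r := by gcongr
    have hsm := abs_le.1 hsmall
    set w : ℝ := Y l / r - 2 * (⌊t⌋ : ℝ) with hw
    have hfl : t = ⌊t⌋ + Int.fract t := (Int.floor_add_fract t).symm
    have hw1 : 3 / 16 ≤ w := by
      have := hfr.1
      linarith [hsm.1]
    have hw2 : w ≤ 13 / 16 := by
      have := hfr.2
      linarith [hsm.2]
    have hper : Real.sin (Real.pi * (Y l / r)) = Real.sin (Real.pi * w) := by
      have : Real.pi * (Y l / r) = Real.pi * w + (⌊t⌋ : ℤ) * (2 * Real.pi) := by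
        rw [hw]; ring
      rw [this, Real.sin_add_int_mul_two_pi]
    have hpi := Real.pi_pos
    have hsin : 3 / 8 ≤ Real.sin (Real.pi * w) := by
      rcases le_total w (1 / 2) with h | h
      · have h1 : 0 ≤ Real.pi * w := by positivity
        have h2 : Real.pi * w ≤ Real.pi / 2 := by nlinarith
        have h3 := Real.mul_le_sin h1 h2
        have h4 : 2 / Real.pi * (Real.pi * w) = 2 * w := by field_simp
        linarith
      · have h1 : 0 ≤ Real.pi * (1 - w) := by
          apply mul_nonneg hpi.le; linarith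
        have h2 : Real.pi * (1 - w) ≤ Real.pi / 2 := by nlinarith
        have h3 := Real.mul_le_sin h1 h2
        have h4 : 2 / Real.pi * (Real.pi * (1 - w)) = 2 * (1 - w) := by field_simp
        have h5 : Real.sin (Real.pi * (1 - w)) = Real.sin (Real.pi * w) := by
          have : Real.pi * (1 - w) = Real.pi - Real.pi * w := by ring
          rw [this, Real.sin_pi_sub]
        linarith
    have hdT : 9 / 16 ≤ dT (Y l / r) := by
      unfold dT
      rw [hper]
      have := Real.pi_gt_three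
      nlinarith
    rw [le_div_iff₀ hDpos]
    have hDle : D ≤ 11 / 10 := by
      have := abs_le.1 (hden0 l.2 hl' (Y l / r))
      linarith [this.1]
    nlinarith

end Pool.Agent.Croft
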