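import Mathlib
import Pool.Agent.Croft.Defs

/-!
Module M3, first part: the class `Nice` is stable under disjoint unions and contains the
half-open rectangles lying in the strip `0 ≤ x ≤ 5`.
-/

open MeasureTheory Set Filter Topology

namespace Pool.Agent.Croft

/-! ### Generalities on sections -/

theorem measurable_line (l : ℝ × ℝ) : Measurable (fun x : ℝ => ((x, l.1 + l.2 * x) : ℝ × ℝ)) := by
  fun_prop

theorem measurableSet_sec {E : Set (ℝ × ℝ)} (hE : MeasurableSet E) (l : ℝ × ℝ) :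
    MeasurableSet (sec E l) := measurable_line l hE

theorem sec_subset_Icc {E : Set (ℝ × ℝ)} (h : ∀ p ∈ E, 0 ≤ p.1 ∧ p.1 ≤ 5) (l : ℝ × ℝ) :
    sec E l ⊆ Icc 0 5 := fun _ hx => h _ hx

theorem volume_sec_lt_top {E : Set (ℝ × ℝ)} (h : ∀ p ∈ E, 0 ≤ p.1 ∧ p.1 ≤ 5) (l : ℝ × ℝ) :
    volume (sec E l) < ⊤ :=
  (measure_mono (sec_subset_Icc h l)).trans_lt (by simp)

theorem len_nonneg (E : Set (ℝ × ℝ)) (l : ℝ × ℝ) : 0 ≤ len E l :=
  mul_nonneg (Real.sqrt_nonneg _) ENNReal.toReal_nonneg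

theorem sec_union (E D : Set (ℝ × ℝ)) (l : ℝ × ℝ) : sec (E ∪ D) l = sec E l ∪ sec D l := rfl

theorem len_union {E D : Set (ℝ × ℝ)} (hD : MeasurableSet D) (hED : Disjoint E D)
    (hE5 : ∀ p ∈ E, 0 ≤ p.1 ∧ p.1 ≤ 5) (hD5 : ∀ p ∈ D, 0 ≤ p.1 ∧ p.1 ≤ 5) (l : ℝ × ℝ) :
    len (E ∪ D) l = len E l + len D l := by
  have hdis : Disjoint (sec E l) (sec D l) :=
    Set.disjoint_left.mpr fun x hx hx' => Set.disjoint_left.mp hED hx hx'
  have h1 : volume (sec (E ∪ D) l) = volume (sec E l) + volume (sec D l) := by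
    rw [sec_union]; exact measure_union hdis (measurableSet_sec hD l)
  unfold len
  rw [h1, ENNReal.toReal_add (volume_sec_lt_top hE5 l).ne (volume_sec_lt_top hD5 l).ne]
  ring

theorem Nice.union {E D : Set (ℝ × ℝ)} (hE : Nice E) (hD : Nice D) (hED : Disjoint E D) :
    Nice (E ∪ D) := by
  have hlen : len (E ∪ D) = fun l => len E l + len D l :=
    funext fun l => len_union hD.meas hED hE.rng hD.rng l
  refine ⟨hE.meas.union hD.meas, ?_, ?_, ?_, ?_⟩
  · exact (measure_union_le _ _).trans_lt (ENNReal.add_lt_top.mpr ⟨hE.fin, hD.fin⟩)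
  · rintro p (hp | hp)
    · exact hE.rng p hp
    · exact hD.rng p hp
  · intro K hK hK0
    obtain ⟨C₁, h₁⟩ := hE.lip K hK hK0
    obtain ⟨C₂, h₂⟩ := hD.lip K hK hK0
    rw [hlen]
    exact ⟨C₁ + C₂, h₁.add h₂⟩
  · obtain ⟨V₁, h1, h1', h1''⟩ := hE.smooth
    obtain ⟨V₂, h2, h2', h2''⟩ := hD.smooth
    refine ⟨V₁ ∪ V₂, h1.union h2, by rw [measure_union_null_iff]; exact ⟨h1', h2'⟩, ?_⟩
    intro l hl hlV
    rw [hlen]
    exact (h1'' l hl fun h => hlV (Or.inl h)).add (h2'' l hl fun h => hlV (Or.inr h))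

theorem nice_empty : Nice (∅ : Set (ℝ × ℝ)) := by
  have hlen : len (∅ : Set (ℝ × ℝ)) = fun _ => 0 := by
    funext l; simp [len, sec]
  refine ⟨MeasurableSet.empty, by simp, by simp, ?_, ∅, isClosed_empty, by simp, ?_⟩
  · intro K _ _; rw [hlen]; exact ⟨0, (LipschitzWith.const 0).lipschitzOnWith⟩
  · intro l _ _; rw [hlen]; exact contDiffAt_const

/-! ### A product lemma for Lipschitz functions -/

theorem lipschitzOnWith_mul {f g : ℝ × ℝ → ℝ} {K : Set (ℝ × ℝ)} {C D A B : NNReal}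
    (hf : LipschitzOnWith C f K) (hg : LipschitzOnWith D g K)
    (hA : ∀ x ∈ K, |f x| ≤ A) (hB : ∀ x ∈ K, |g x| ≤ B) :
    LipschitzOnWith (A * D + B * C) (fun x => f x * g x) K := by
  refine LipschitzOnWith.of_dist_le_mul fun x hx y hy => ?_
  have h1 := hf.dist_le_mul x hx y hy
  have h2 := hg.dist_le_mul x hx y hy
  rw [Real.dist_eq] at h1 h2 ⊢
  have e : f x * g x - f y * g y = f x * (g x - g y) + g y * (f x - f y) := by ring
  rw [e]
  refine (abs_add_le _ _).trans ?_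
  rw [abs_mul, abs_mul]
  have h3 := hA x hx
  have h4 := hB y hy
  have d0 : (0:ℝ) ≤ dist x y := dist_nonneg
  have : |f x| * |g x - g y| ≤ A * (D * dist x y) :=
    mul_le_mul h3 h2 (abs_nonneg _) A.coe_nonneg
  have : |g y| * |f x - f y| ≤ B * (C * dist x y) :=
    mul_le_mul h4 h1 (abs_nonneg _) B.coe_nonneg
  push_cast
  nlinarith

/-! ### Rectangles -/

/-- The clamp to `[y₁, y₂]`. -/
noncomputable def clampf (y₁ y₂ z : ℝ) : ℝ := max y₁ (min z y₂)

theorem clampf_lip (y₁ y₂ z w : ℝ) : |clampf y₁ y₂ z - clampf y₁ y₂ w| ≤ |z - w| := by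
  unfold clampf
  refine (abs_max_sub_max_le_max _ _ _ _).trans ?_
  rw [sub_self, abs_zero]
  refine max_le (abs_nonneg _) ((abs_min_sub_min_le_max _ _ _ _).trans ?_)
  rw [sub_self, abs_zero]
  exact max_le le_rfl (abs_nonneg _)

theorem clampf_mem {y₁ y₂ : ℝ} (h : y₁ ≤ y₂) (z : ℝ) :
    y₁ ≤ clampf y₁ y₂ z ∧ clampf y₁ y₂ z ≤ y₂ :=
  ⟨le_max_left _ _, max_le h (min_le_right _ _)⟩

theorem clampf_sub_eq {x₁ x₂ p q : ℝ} (hx : x₁ ≤ x₂) (hpq : p ≤ q) :
    max 0 (min x₂ q - max x₁ p) = clampf p q x₂ - clampf p q x₁ := by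
  unfold clampf
  rcases le_total x₂ p with h2 | h2
  · rw [max_eq_left (le_trans (min_le_left _ _) (h2.trans le_rfl) : min x₂ q ≤ p),
      max_eq_left ((min_le_left _ _).trans (hx.trans h2) : min x₁ q ≤ p), sub_self]
    apply max_eq_left
    have := min_le_left x₂ q
    have := le_max_right x₁ p
    linarith
  · rcases le_total q x₁ with h1 | h1
    · rw [min_eq_right (h1.trans hx), min_eq_right h1, sub_self]
      apply max_eq_left
      have := le_max_left x₁ p
      linarith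
    · rw [min_eq_left h1, max_eq_right (le_min h2 hpq), max_comm p x₁]
      apply max_eq_right
      rw [sub_nonneg]
      exact max_le (le_min hx h1) (le_min h2 hpq)

/-- The section length formula, in terms of abscissae. -/
theorem volume_between {S : Set ℝ} {b c : ℝ} (h1 : Ioo b c ⊆ S) (h2 : S ⊆ Icc b c) :
    volume S = ENNReal.ofReal (c - b) := by
  apply le_antisymm
  · exact (measure_mono h2).trans (by rw [Real.volume_Icc])
  · rw [← Real.volume_Ioo]; exact measure_mono h1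

theorem volume_sec_rect {x₁ x₂ y₁ y₂ : ℝ} (hx : x₁ ≤ x₂) (hy : y₁ ≤ y₂) (l : ℝ × ℝ)
    (hl : l.2 ≠ 0) :
    (volume (sec (Ioc x₁ x₂ ×ˢ Ioc y₁ y₂) l)).toReal =
      (clampf y₁ y₂ (l.1 + l.2 * x₂) - clampf y₁ y₂ (l.1 + l.2 * x₁)) / l.2 := by
  obtain ⟨u, a⟩ := l
  simp only at hl ⊢
  rcases lt_or_gt_of_ne hl with ha | ha
  · -- negative slope
    have hv : volume (sec (Ioc x₁ x₂ ×ˢ Ioc y₁ y₂) (u, a)) =
        ENNReal.ofReal (min x₂ ((y₁ - u) / a) - max x₁ ((y₂ - u) / a)) := by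
      apply volume_between
      · intro x hx'
        rw [mem_Ioo, max_lt_iff, lt_min_iff] at hx'
        obtain ⟨⟨h1, h2⟩, h3, h4⟩ := hx'
        rw [div_lt_iff_of_neg ha] at h2
        rw [lt_div_iff_of_neg ha] at h4
        simp only [sec, mem_ofPred_eq, mem_prod, mem_Ioc]
        exact ⟨⟨h1, h3.le⟩, by linarith, by linarith⟩
      · intro x hx'
        simp only [sec, mem_ofPred_eq, mem_prod, mem_Ioc] at hx'
        obtain ⟨⟨h1, h2⟩, h3, h4⟩ := hx'
        rw [mem_Icc, max_le_iff, le_min_iff]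
        refine ⟨⟨h1.le, ?_⟩, h2, ?_⟩
        · rw [div_le_iff_of_neg ha]; linarith
        · rw [le_div_iff_of_neg ha]; linarith
    have hpq : (y₂ - u) / a ≤ (y₁ - u) / a := by
      rw [div_le_div_right_of_neg ha]; linarith
    have key : ∀ x, clampf y₁ y₂ (u + a * x) = u + a * clampf ((y₂ - u) / a) ((y₁ - u) / a) x := by
      intro x
      unfold clampf
      have e1 : a * ((y₂ - u) / a) = y₂ - u := by field_simp
      have e2 : a * ((y₁ - u) / a) = y₁ - u := by field_simp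
      rcases le_total (u + a * x) y₁ with h1 | h1
      · have h3 : (y₁ - u) / a ≤ x := by rw [div_le_iff_of_neg ha]; linarith
        rw [min_eq_left (h1.trans hy), max_eq_left h1, min_eq_right h3, max_eq_right hpq, e2]
        ring
      · have h3 : x ≤ (y₁ - u) / a := by rw [le_div_iff_of_neg ha]; linarith
        rw [min_eq_left h3]
        rcases le_total (u + a * x) y₂ with h2 | h2
        · have h4 : (y₂ - u) / a ≤ x := by rw [div_le_iff_of_neg ha]; linarith
          rw [min_eq_left h2, max_eq_right h1, max_eq_right h4]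
        · have h4 : x ≤ (y₂ - u) / a := by rw [le_div_iff_of_neg ha]; linarith
          rw [min_eq_right h2, max_eq_right hy, max_eq_left h4, e1]
          ring
    rw [hv, key, key, ENNReal.toReal_ofReal', max_comm, clampf_sub_eq hx hpq]
    field_simp
    ring
  · have hv : volume (sec (Ioc x₁ x₂ ×ˢ Ioc y₁ y₂) (u, a)) =
        ENNReal.ofReal (min x₂ ((y₂ - u) / a) - max x₁ ((y₁ - u) / a)) := by
      apply volume_between
      · intro x hx'
        rw [mem_Ioo, max_lt_iff, lt_min_iff] at hx'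
        obtain ⟨⟨h1, h2⟩, h3, h4⟩ := hx'
        rw [div_lt_iff₀ ha] at h2
        rw [lt_div_iff₀ ha] at h4
        simp only [sec, mem_ofPred_eq, mem_prod, mem_Ioc]
        exact ⟨⟨h1, h3.le⟩, by linarith, by linarith⟩
      · intro x hx'
        simp only [sec, mem_ofPred_eq, mem_prod, mem_Ioc] at hx'
        obtain ⟨⟨h1, h2⟩, h3, h4⟩ := hx'
        rw [mem_Icc, max_le_iff, le_min_iff]
        refine ⟨⟨h1.le, ?_⟩, h2, ?_⟩
        · rw [div_le_iff₀ ha]; linarith
        · rw [le_div_iff₀ ha]; linarith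
    have hpq : (y₁ - u) / a ≤ (y₂ - u) / a := by
      rw [div_le_div_iff_of_pos_right ha]; linarith
    have key : ∀ x, clampf y₁ y₂ (u + a * x) = u + a * clampf ((y₁ - u) / a) ((y₂ - u) / a) x := by
      intro x
      unfold clampf
      rw [← add_comm (a * _) u, ← add_comm (a * _) u]
      have e1 : a * ((y₂ - u) / a) = y₂ - u := by field_simp
      have e2 : a * ((y₁ - u) / a) = y₁ - u := by field_simp
      rw [mul_max_of_nonneg _ _ ha.le, mul_min_of_nonneg _ _ ha.le, e1, e2]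
      rcases le_total (a * x + u) y₁ with h1 | h1
      · rw [min_eq_left (h1.trans hy), max_eq_left h1, min_eq_left (by linarith),
          max_eq_left (by linarith)]
        ring
      · rcases le_total (a * x + u) y₂ with h2 | h2
        · rw [min_eq_left h2, max_eq_right h1, min_eq_left (by linarith),
            max_eq_right (by linarith)]
        · rw [min_eq_right h2, max_eq_right hy, min_eq_right (by linarith),
            max_eq_right (by linarith)]
          ring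
    rw [hv, key, key, ENNReal.toReal_ofReal', max_comm, clampf_sub_eq hx hpq]
    field_simp
    ring

theorem len_rect {x₁ x₂ y₁ y₂ : ℝ} (hx : x₁ ≤ x₂) (hy : y₁ ≤ y₂) (l : ℝ × ℝ) (hl : l.2 ≠ 0) :
    len (Ioc x₁ x₂ ×ˢ Ioc y₁ y₂) l = (Real.sqrt (1 + l.2 ^ 2) / l.2) *
      (clampf y₁ y₂ (l.1 + l.2 * x₂) - clampf y₁ y₂ (l.1 + l.2 * x₁)) := by
  unfold len
  rw [volume_sec_rect hx hy l hl]
  ring

theorem contDiffAt_sqrt_div {l : ℝ × ℝ} (hl : l.2 ≠ 0) :
    ContDiffAt ℝ 1 (fun l : ℝ × ℝ => Real.sqrt (1 + l.2 ^ 2) / l.2) l := by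
  have h0 : (1 + l.2 ^ 2) ≠ 0 := by positivity
  refine ContDiffAt.div ?_ contDiffAt_snd hl
  exact ContDiffAt.sqrt (by fun_prop) h0

theorem contDiffAt_clampf {y₁ y₂ z : ℝ} (hy : y₁ ≤ y₂) (h1 : z ≠ y₁) (h2 : z ≠ y₂) :
    ContDiffAt ℝ 1 (clampf y₁ y₂) z := by
  rcases lt_or_gt_of_ne h1 with h | h
  · have : clampf y₁ y₂ =ᶠ[𝓝 z] fun _ => y₁ := by
      filter_upwards [Iio_mem_nhds h] with w hw
      unfold clampf
      exact max_eq_left ((min_le_left _ _).trans (le_of_lt hw))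
    exact contDiffAt_const.congr_of_eventuallyEq this
  · rcases lt_or_gt_of_ne h2 with h' | h'
    · have : clampf y₁ y₂ =ᶠ[𝓝 z] fun w => w := by
        filter_upwards [Ioo_mem_nhds h h'] with w hw
        unfold clampf
        rw [min_eq_left hw.2.le, max_eq_right hw.1.le]
      exact contDiffAt_id.congr_of_eventuallyEq this
    · have : clampf y₁ y₂ =ᶠ[𝓝 z] fun _ => y₂ := by
        filter_upwards [Ioi_mem_nhds h'] with w hw
        unfold clampf
        rw [min_eq_right (le_of_lt hw), max_eq_right hy]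
      exact contDiffAt_const.congr_of_eventuallyEq this

/-- The set of lines through a given point is closed and null. -/
theorem isClosed_pencil (x y : ℝ) : IsClosed {l : ℝ × ℝ | l.1 + l.2 * x = y} :=
  isClosed_eq (by fun_prop) (by fun_prop)

theorem volume_pencil (x y : ℝ) : volume {l : ℝ × ℝ | l.1 + l.2 * x = y} = 0 := by
  have hm : MeasurableSet {l : ℝ × ℝ | l.1 + l.2 * x = y} := (isClosed_pencil x y).measurableSet
  rw [Measure.volume_eq_prod, Measure.prod_apply_symm hm]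
  rw [lintegral_eq_zero_iff (measurable_measure_prodMk_right hm)]
  refine Filter.Eventually.of_forall fun a => ?_
  change volume ((fun u : ℝ => (u, a)) ⁻¹' {l : ℝ × ℝ | l.1 + l.2 * x = y}) = 0
  have : ((fun u : ℝ => (u, a)) ⁻¹' {l : ℝ × ℝ | l.1 + l.2 * x = y}) = {y - a * x} := by
    ext u
    simp only [mem_preimage, mem_ofPred_eq, mem_singleton_iff]
    constructor <;> intro h <;> linarith
  rw [this]
  simp

theorem nice_rect {x₁ x₂ y₁ y₂ : ℝ} (h0 : 0 ≤ x₁) (hx : x₁ ≤ x₂) (h5 : x₂ ≤ 5) (hy : y₁ ≤ y₂) :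
    Nice (Ioc x₁ x₂ ×ˢ Ioc y₁ y₂) := by
  refine ⟨measurableSet_Ioc.prod measurableSet_Ioc, ?_, ?_, ?_, ?_⟩
  · rw [Measure.volume_eq_prod, Measure.prod_prod, Real.volume_Ioc, Real.volume_Ioc]
    exact ENNReal.mul_lt_top ENNReal.ofReal_lt_top ENNReal.ofReal_lt_top
  · rintro p ⟨hp, -⟩
    exact ⟨h0.trans hp.1.le, hp.2.trans h5⟩
  · intro K hK hK0
    have hloc : LocallyLipschitzOn K (fun l : ℝ × ℝ => Real.sqrt (1 + l.2 ^ 2) / l.2) := by
      intro l hl
      obtain ⟨C, t, ht, h⟩ := (contDiffAt_sqrt_div (hK0 l hl)).exists_lipschitzOnWith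
      exact ⟨C, t, mem_nhdsWithin_of_mem_nhds ht, h⟩
    obtain ⟨C, hC⟩ := hloc.exists_lipschitzOnWith_of_compact hK
    obtain ⟨B, hB⟩ := hK.exists_bound_of_continuousOn hC.continuousOn
    -- the bracket is Lipschitz
    have hlin : ∀ x : ℝ, LipschitzWith (1 + ‖x‖₊) (fun l : ℝ × ℝ => clampf y₁ y₂ (l.1 + l.2 * x)) := by
      intro x
      refine LipschitzWith.of_dist_le_mul fun l l' => ?_
      rw [Real.dist_eq]
      refine (clampf_lip _ _ _ _).trans ?_
      have e : l.1 + l.2 * x - (l'.1 + l'.2 * x) = (l.1 - l'.1) + (l.2 - l'.2) * x := by ring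
      rw [e]
      refine (abs_add_le _ _).trans ?_
      rw [abs_mul]
      have h1 : |l.1 - l'.1| ≤ dist l l' := by
        rw [Prod.dist_eq, ← Real.dist_eq]; exact le_max_left _ _
      have h2 : |l.2 - l'.2| ≤ dist l l' := by
        rw [Prod.dist_eq, ← Real.dist_eq]; exact le_max_right _ _
      have h3 : |l.2 - l'.2| * |x| ≤ dist l l' * |x| := mul_le_mul_of_nonneg_right h2 (abs_nonneg _)
      push_cast
      rw [Real.norm_eq_abs]
      nlinarith
    have hg : LipschitzOnWith ((1 + ‖x₂‖₊) + (1 + ‖x₁‖₊))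
        (fun l : ℝ × ℝ => clampf y₁ y₂ (l.1 + l.2 * x₂) - clampf y₁ y₂ (l.1 + l.2 * x₁)) K :=
      ((hlin x₂).sub (hlin x₁)).lipschitzOnWith
    have hgb : ∀ l ∈ K, |clampf y₁ y₂ (l.1 + l.2 * x₂) - clampf y₁ y₂ (l.1 + l.2 * x₁)| ≤
        ((y₂ - y₁).toNNReal : ℝ) := by
      intro l _
      rw [Real.coe_toNNReal _ (by linarith), abs_le]
      have h1 := clampf_mem hy (l.1 + l.2 * x₂)
      have h2 := clampf_mem hy (l.1 + l.2 * x₁)
      constructor <;> linarith [h1.1, h1.2, h2.1, h2.2]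
    have hfb : ∀ l ∈ K, |Real.sqrt (1 + l.2 ^ 2) / l.2| ≤ ((max B 0).toNNReal : ℝ) := by
      intro l hl
      rw [Real.coe_toNNReal _ (le_max_right _ _)]
      exact (hB l hl).trans (le_max_left _ _)
    have := lipschitzOnWith_mul hC hg hfb hgb
    refine ⟨(max B 0).toNNReal * (1 + ‖x₂‖₊ + (1 + ‖x₁‖₊)) + (y₂ - y₁).toNNReal * C,
      fun l hl l' hl' => ?_⟩
    rw [len_rect hx hy l (hK0 l hl), len_rect hx hy l' (hK0 l' hl')]
    exact this hl hl'
  · refine ⟨{l | l.1 + l.2 * x₁ = y₁} ∪ {l | l.1 + l.2 * x₁ = y₂} ∪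
      ({l | l.1 + l.2 * x₂ = y₁} ∪ {l | l.1 + l.2 * x₂ = y₂}),
      ((isClosed_pencil _ _).union (isClosed_pencil _ _)).union
        ((isClosed_pencil _ _).union (isClosed_pencil _ _)), ?_, ?_⟩
    · simp [measure_union_null_iff, volume_pencil]
    · intro l hl hlV
      simp only [mem_union, mem_ofPred_eq, not_or] at hlV
      obtain ⟨⟨h1, h2⟩, h3, h4⟩ := hlV
      have hev : len (Ioc x₁ x₂ ×ˢ Ioc y₁ y₂) =ᶠ[𝓝 l] fun l : ℝ × ℝ =>
          (Real.sqrt (1 + l.2 ^ 2) / l.2) *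
            (clampf y₁ y₂ (l.1 + l.2 * x₂) - clampf y₁ y₂ (l.1 + l.2 * x₁)) := by
        have : ∀ᶠ l' : ℝ × ℝ in 𝓝 l, l'.2 ≠ 0 := continuous_snd.continuousAt.eventually_ne hl
        filter_upwards [this] with l' hl'
        exact len_rect hx hy l' hl'
      refine ContDiffAt.congr_of_eventuallyEq ?_ hev
      refine (contDiffAt_sqrt_div hl).mul (ContDiffAt.sub ?_ ?_)
      · exact ContDiffAt.comp (g := clampf y₁ y₂) l (contDiffAt_clampf hy h3 h4) (by fun_prop)
      · exact ContDiffAt.comp (g := clampf y₁ y₂) l (contDiffAt_clampf hy h1 h2) (by fun_prop)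

end Pool.Agent.Croft
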