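import Mathlib
import Pool.Agent.Croft.Defs
import Pool.Agent.Croft.Rect

/-!
Module M3, second part: the stage lemma from the phase lemma, the layer properties and the
approximation of layers by rectangles (all three are taken here as hypotheses with their exact
statements, so that this file is independent of the files proving them).
-/

open MeasureTheory Set Filter Topology

namespace Pool.Agent.Croft

/-- The statement of `layer_props`. -/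
def LayerStatement : Prop :=
  ∀ {α r A : ℝ}, 0 < α → 0 < r → 1 ≤ A → α * A ≤ 1 / 16 →
    (∀ l : ℝ × ℝ, |l.2| ≤ A → 0 ≤ layX α r l ∧ layX α r l ≤ α * r ∧
      layX α r l = α * r * Tf ((l.1 + l.2 * (α * r + layX α r l)) / r) ∧
      {z : ℝ | 0 < z ∧ z ≤ α * r * Tf ((l.1 + l.2 * (α * r + z)) / r)} = Ioc 0 (layX α r l)) ∧
    ∃ q : ℝ × ℝ → ℝ, ContinuousOn q {l | |l.2| < A} ∧ ∀ l : ℝ × ℝ, |l.2| < A →
      HasFDerivAt (layX α r) (q l • ContinuousLinearMap.fst ℝ ℝ ℝ +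
        (q l * (α * r + layX α r l)) • ContinuousLinearMap.snd ℝ ℝ ℝ) l ∧
      |q l| ≤ 2 * α ∧
      (Int.fract ((l.1 / r + l.2 * α) / 2) ∈ Ico (1 / 8 : ℝ) (3 / 8) → α / 2 ≤ q l)

/-- The statement of `phase`. -/
def PhaseStatement : Prop :=
  ∀ (v0 : ℝ × ℝ → ℝ) (R : Set (ℝ × ℝ)), IsCompact R → ∀ (β A : ℝ), 0 < β →
    1 ≤ A → (∀ l ∈ Metric.cthickening β R, |l.2| < A) → ∀ (Λ : NNReal),
    LipschitzOnWith Λ v0 (Metric.cthickening β R) → ∀ (S : Set (ℝ × ℝ)), IsClosed S →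
    volume S = 0 → (∀ l ∈ Metric.cthickening β R, l ∉ S → ContDiffAt ℝ 1 v0 l) →
    ∀ (ε τ d : ℝ), 0 < ε → 0 < τ → 0 < d →
    ∃ (α : ℝ) (N : ℕ) (r : ℕ → ℝ), 0 < α ∧ α < τ ∧ α * A ≤ 1 / 16 ∧
      (∀ i, 0 < r i ∧ r i < τ ∧ r (i + 1) ≤ r i / 2) ∧
      (∀ l ∈ Metric.cthickening β R, ∑ i ∈ Finset.range N, lay α (r i) l ≤ τ) ∧
      ∃ η > 0, ∃ T : Set ℝ, MeasurableSet T ∧ volume T ≤ ENNReal.ofReal ε ∧
      ∃ M : ℝ → Set (ℝ × (ℝ × ℝ)), (∀ t, IsCompact (M t)) ∧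
        (∀ t, ∀ q ∈ M t, q.1 ∈ Icc (-3 : ℝ) 3 ∧ q.2 ∈ R ∧
          |v0 q.2 + ∑ i ∈ Finset.range N, lay α (r i) q.2 - t| ≤ τ) ∧
        (∀ l ∈ R, ∀ t, |v0 l + ∑ i ∈ Finset.range N, lay α (r i) l - t| ≤ η →
          ENNReal.ofReal (1 / 20) ≤ volume {y : ℝ | (y, l) ∈ M t} ∨
          (l ∉ S ∧ 4 * |fderiv ℝ v0 l (0, 1)| < |fderiv ℝ v0 l (1, 0)| ∧
            ¬ (4 * |fderiv ℝ (fun l => v0 l + ∑ i ∈ Finset.range N, lay α (r i) l) l (0, 1)
                + fderiv ℝ (fun l => v0 l + ∑ i ∈ Finset.range N, lay α (r i) l) l (1, 0)|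
              < |fderiv ℝ (fun l => v0 l + ∑ i ∈ Finset.range N, lay α (r i) l) l (1, 0)|))) ∧
        (∀ t, t ∉ T → ∀ l : ℝ × ℝ, volume {y : ℝ | ∃ l' : ℝ × ℝ, (y, l') ∈ M t ∧
            l'.1 + l'.2 * y = l.1 + l.2 * y ∧ d ≤ |l'.2 - l.2|} ≤ ENNReal.ofReal ε)

/-- The statement of `approx_layer`. -/
def ApproxStatement : Prop :=
  ∀ {w α r A Y η : ℝ}, 0 ≤ w → w ≤ 1 → 0 < α → 0 < r → r ≤ 1 → 1 ≤ A → α * A ≤ 1 / 16 →
    0 < Y → 0 < η →
    ∃ D : Set (ℝ × ℝ), Nice D ∧ (∀ p ∈ D, w + α * r < p.1 ∧ p.1 ≤ w + 2 * (α * r)) ∧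
      (∀ p ∈ D, |p.2| ≤ Y + 2 * A + 1) ∧
      ∀ l : ℝ × ℝ, |l.2| < A → |l.1| ≤ Y → |len D l - lay α r (l.1 + w * l.2, l.2)| ≤ η

/-! ### Properties of `lay` -/

theorem lay_nonneg (α r : ℝ) (l : ℝ × ℝ) : 0 ≤ lay α r l :=
  mul_nonneg (Real.sqrt_nonneg _) ENNReal.toReal_nonneg

theorem contDiffAt_lay (hL : LayerStatement) {α r A : ℝ} (hα : 0 < α) (hr : 0 < r) (hA : 1 ≤ A)
    (hαA : α * A ≤ 1 / 16) {l : ℝ × ℝ} (hl : |l.2| < A) : ContDiffAt ℝ 1 (lay α r) l := by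
  obtain ⟨-, q, hq, hder⟩ := hL hα hr hA hαA
  have hopen : IsOpen {l : ℝ × ℝ | |l.2| < A} := isOpen_lt (by fun_prop) (by fun_prop)
  have hX : ContinuousOn (layX α r) {l : ℝ × ℝ | |l.2| < A} := fun l hl =>
    (hder l hl).1.continuousAt.continuousWithinAt
  have h1 : ContDiffAt ℝ 1 (layX α r) l := by
    rw [contDiffAt_one_iff]
    refine ⟨fun l => q l • ContinuousLinearMap.fst ℝ ℝ ℝ +
        (q l * (α * r + layX α r l)) • ContinuousLinearMap.snd ℝ ℝ ℝ,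
      {l : ℝ × ℝ | |l.2| < A}, hopen.mem_nhds hl, ?_, fun l hl => (hder l hl).1⟩
    exact (hq.smul continuousOn_const).add
      ((hq.mul (continuousOn_const.add hX)).smul continuousOn_const)
  have h2 : ContDiffAt ℝ 1 (fun l : ℝ × ℝ => Real.sqrt (1 + l.2 ^ 2)) l :=
    ContDiffAt.sqrt (by fun_prop) (by positivity)
  exact h2.mul h1

theorem continuousOn_lay (hL : LayerStatement) {α r A : ℝ} (hα : 0 < α) (hr : 0 < r) (hA : 1 ≤ A)
    (hαA : α * A ≤ 1 / 16) : ContinuousOn (lay α r) {l | |l.2| < A} := fun _ hl =>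
  (contDiffAt_lay hL hα hr hA hαA hl).continuousAt.continuousWithinAt

/-- A function which is `C^1` at every point of a compact set is Lipschitz on that set. -/
theorem exists_lip_of_contDiffAt {f : ℝ × ℝ → ℝ} {K : Set (ℝ × ℝ)} (hK : IsCompact K)
    (h : ∀ l ∈ K, ContDiffAt ℝ 1 f l) : ∃ C : NNReal, LipschitzOnWith C f K := by
  have hloc : LocallyLipschitzOn K f := by
    intro l hl
    obtain ⟨C, t, ht, h⟩ := (h l hl).exists_lipschitzOnWith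
    exact ⟨C, t, mem_nhdsWithin_of_mem_nhds ht, h⟩
  exact hloc.exists_lipschitzOnWith_of_compact hK

/-! ### The shear -/

/-- The change of coordinates `(u, a) ↦ (u + a, a)`. -/
noncomputable def shear : (ℝ × ℝ) ≃L[ℝ] (ℝ × ℝ) :=
  ContinuousLinearEquiv.equivOfInverse
    ((ContinuousLinearMap.fst ℝ ℝ ℝ + ContinuousLinearMap.snd ℝ ℝ ℝ).prod
      (ContinuousLinearMap.snd ℝ ℝ ℝ))
    ((ContinuousLinearMap.fst ℝ ℝ ℝ - ContinuousLinearMap.snd ℝ ℝ ℝ).prod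
      (ContinuousLinearMap.snd ℝ ℝ ℝ))
    (fun l => by simp) (fun l => by simp)

@[simp] theorem shear_apply (l : ℝ × ℝ) : shear l = (l.1 + l.2, l.2) := rfl

@[simp] theorem shear_symm_apply (l : ℝ × ℝ) : shear.symm l = (l.1 - l.2, l.2) := rfl

theorem volume_shear_symm_preimage {V : Set (ℝ × ℝ)} (hV : volume V = 0) :
    volume (shear.symm ⁻¹' V) = 0 := by
  have := Measure.addHaar_preimage_continuousLinearEquiv (volume : Measure (ℝ × ℝ)) shear.symm V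
  rw [this, hV, mul_zero]

end Pool.Agent.Croft
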