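import Mathlib
import Pool.Agent.Croft.Defs
import Pool.Agent.Croft.Rect
import Pool.Agent.Croft.StagePre

/-!
Module M3, third part: two applications of the phase lemma (walls `x = 1` and `x = 0`).
-/

open MeasureTheory Set Filter Topology

namespace Pool.Agent.Croft

/-- The total section function after the two phases. -/
noncomputable def vtot (E : Set (ℝ × ℝ)) (α₁ : ℝ) (N₁ : ℕ) (r₁ : ℕ → ℝ) (α₂ : ℝ) (N₂ : ℕ)
    (r₂ : ℕ → ℝ) (l : ℝ × ℝ) : ℝ :=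
  len E l + ∑ i ∈ Finset.range N₁, lay α₁ (r₁ i) (l.1 + l.2, l.2) +
    ∑ i ∈ Finset.range N₂, lay α₂ (r₂ i) l

theorem two_phase (hL : LayerStatement) (hP : PhaseStatement) (E : Set (ℝ × ℝ)) (hE : Nice E)
    (R : Set (ℝ × ℝ)) (hR : IsCompact R) (A β : ℝ) (hA : 1 ≤ A) (hβ : 0 < β)
    (hth : ∀ l ∈ Metric.cthickening β R, l.2 ≠ 0 ∧ |l.2| < A)
    (hth1 : ∀ l ∈ Metric.cthickening β (shear '' R), l.2 ≠ 0 ∧ |l.2| < A)
    (ε τ d : ℝ) (hε : 0 < ε) (hτ : 0 < τ) (hd : 0 < d) :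
    ∃ (α₁ : ℝ) (N₁ : ℕ) (r₁ : ℕ → ℝ) (α₂ : ℝ) (N₂ : ℕ) (r₂ : ℕ → ℝ),
      (0 < α₁ ∧ α₁ < τ ∧ α₁ * A ≤ 1 / 16 ∧ ∀ i, 0 < r₁ i ∧ r₁ i < τ ∧ r₁ (i + 1) ≤ r₁ i / 2) ∧
      (0 < α₂ ∧ α₂ < τ ∧ α₂ * A ≤ 1 / 16 ∧ ∀ i, 0 < r₂ i ∧ r₂ i < τ ∧ r₂ (i + 1) ≤ r₂ i / 2) ∧
      ∃ η > 0, ∃ T : Set ℝ, MeasurableSet T ∧ volume T ≤ ENNReal.ofReal ε ∧
      ∃ M : ℝ → Set (ℝ × (ℝ × ℝ)), (∀ t, IsCompact (M t)) ∧
        (∀ t, ∀ q ∈ M t, q.1 ∈ Icc (-3 : ℝ) 4 ∧ q.2 ∈ R ∧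
          |vtot E α₁ N₁ r₁ α₂ N₂ r₂ q.2 - t| ≤ τ) ∧
        (∀ l ∈ R, ∀ t, |vtot E α₁ N₁ r₁ α₂ N₂ r₂ l - t| ≤ η →
          ENNReal.ofReal (1 / 20) ≤ volume {x : ℝ | (x, l) ∈ M t}) ∧
        (∀ t, t ∉ T → ∀ l : ℝ × ℝ, volume {x : ℝ | ∃ l' : ℝ × ℝ, (x, l') ∈ M t ∧
            l'.1 + l'.2 * x = l.1 + l.2 * x ∧ d ≤ |l'.2 - l.2|} ≤ ENNReal.ofReal ε) := by
  have hRR : IsCompact (shear '' R) := hR.image shear.continuous
  have hKc : IsCompact (Metric.cthickening β R) := hR.cthickening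
  have hKc1 : IsCompact (Metric.cthickening β (shear '' R)) := hRR.cthickening
  obtain ⟨V, hVc, hV0, hVs⟩ := hE.smooth
  -- phase 1
  obtain ⟨Λ, hΛ⟩ := hE.lip (shear.symm '' Metric.cthickening β (shear '' R))
    (hKc1.image shear.symm.continuous) (by
      rintro _ ⟨l, hl, rfl⟩
      exact (hth1 l hl).1)
  have hlip1 : LipschitzOnWith (Λ * ‖(shear.symm : (ℝ × ℝ) →L[ℝ] (ℝ × ℝ))‖₊)
      (fun l => len E (shear.symm l)) (Metric.cthickening β (shear '' R)) :=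
    hΛ.comp (shear.symm.lipschitz.lipschitzOnWith) (mapsTo_image _ _)
  obtain ⟨α₁, N₁, r₁, hα₁, hα₁τ, hα₁A, hr₁, hsum₁, η₁, hη₁, T₁, hT₁m, hT₁, M₁, hM₁c, hM₁a, hM₁b,
    hM₁d⟩ := hP (fun l => len E (shear.symm l)) (shear '' R) hRR β A hβ hA
      (fun l hl => (hth1 l hl).2) _ hlip1 (shear.symm ⁻¹' V) (hVc.preimage shear.symm.continuous)
      (volume_shear_symm_preimage hV0)
      (fun l hl hlV => (hVs (shear.symm l) (hth1 l hl).1 hlV).comp l
        (shear.symm.contDiff.contDiffAt))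
      (ε / 2) (τ / 2) d (by positivity) (by positivity) hd
  -- the function after phase 1
  set v11 : ℝ × ℝ → ℝ := fun l => len E (shear.symm l) + ∑ i ∈ Finset.range N₁, lay α₁ (r₁ i) l
    with hv11
  have hv02 : ∀ l, v11 (shear l) = len E l +
      ∑ i ∈ Finset.range N₁, lay α₁ (r₁ i) (l.1 + l.2, l.2) := by
    intro l
    simp only [hv11]
    rw [ContinuousLinearEquiv.symm_apply_apply]
    rfl
  have hcd2 : ∀ l : ℝ × ℝ, l.2 ≠ 0 ∧ |l.2| < A → l ∉ V →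
      ContDiffAt ℝ 1 (fun l => v11 (shear l)) l := by
    intro l hl hlV
    have e : (fun l => v11 (shear l)) = fun l => len E l +
      ∑ i ∈ Finset.range N₁, lay α₁ (r₁ i) (shear l) := by
      funext l; rw [hv02]; rfl
    rw [e]
    refine (hVs l hl.1 hlV).add (ContDiffAt.sum fun i _ => ?_)
    exact ContDiffAt.comp (g := lay α₁ (r₁ i)) l
      (contDiffAt_lay hL hα₁ (hr₁ i).1 hA hα₁A hl.2) shear.contDiff.contDiffAt
  obtain ⟨Λ₂, hΛ₂⟩ := hE.lip (Metric.cthickening β R) hKc (fun l hl => (hth l hl).1)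
  obtain ⟨Λ₃, hΛ₃⟩ : ∃ C : NNReal, LipschitzOnWith C
      (fun l => ∑ i ∈ Finset.range N₁, lay α₁ (r₁ i) (shear l)) (Metric.cthickening β R) := by
    refine exists_lip_of_contDiffAt hKc fun l hl => ContDiffAt.sum fun i _ => ?_
    exact ContDiffAt.comp (g := lay α₁ (r₁ i)) l
      (contDiffAt_lay hL hα₁ (hr₁ i).1 hA hα₁A (hth l hl).2) shear.contDiff.contDiffAt
  have hlip2 : LipschitzOnWith (Λ₂ + Λ₃) (fun l => v11 (shear l)) (Metric.cthickening β R) := by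
    have e : (fun l => v11 (shear l)) = fun l => len E l +
      ∑ i ∈ Finset.range N₁, lay α₁ (r₁ i) (shear l) := by
      funext l; rw [hv02]; rfl
    rw [e]
    exact hΛ₂.add hΛ₃
  -- phase 2
  set τ₂ : ℝ := min (τ / 2) (η₁ / 2) with hτ₂
  have hτ₂0 : 0 < τ₂ := lt_min (by positivity) (by positivity)
  obtain ⟨α₂, N₂, r₂, hα₂, hα₂τ, hα₂A, hr₂, hsum₂, η₂, hη₂, T₂, hT₂m, hT₂, M₂, hM₂c, hM₂a, hM₂b,
    hM₂d⟩ := hP (fun l => v11 (shear l)) R hR β A hβ hA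
      (fun l hl => (hth l hl).2) _ hlip2 V hVc hV0
      (fun l hl hlV => hcd2 l (hth l hl) hlV)
      (ε / 2) τ₂ d (by positivity) hτ₂0 hd
  have hvt : ∀ l, vtot E α₁ N₁ r₁ α₂ N₂ r₂ l = v11 (shear l) +
      ∑ i ∈ Finset.range N₂, lay α₂ (r₂ i) l := by
    intro l; rw [vtot, hv02]
  have hsub : ∀ l ∈ R, l ∈ Metric.cthickening β R := fun l hl =>
    Metric.self_subset_cthickening _ hl
  have hlay2 : ∀ l ∈ R, 0 ≤ ∑ i ∈ Finset.range N₂, lay α₂ (r₂ i) l ∧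
      ∑ i ∈ Finset.range N₂, lay α₂ (r₂ i) l ≤ τ₂ := fun l hl =>
    ⟨Finset.sum_nonneg fun i _ => lay_nonneg _ _ _, hsum₂ l (hsub l hl)⟩
  refine ⟨α₁, N₁, r₁, α₂, N₂, r₂, ⟨hα₁, by linarith, hα₁A, fun i => ⟨(hr₁ i).1, by
      linarith [(hr₁ i).2.1], (hr₁ i).2.2⟩⟩, ⟨hα₂, ?_, hα₂A, fun i => ⟨(hr₂ i).1, ?_,
      (hr₂ i).2.2⟩⟩, min (η₁ / 2) η₂, lt_min (by positivity) hη₂, T₁ ∪ T₂, hT₁m.union hT₂m, ?_,
      fun t => (fun q : ℝ × (ℝ × ℝ) => (q.1 + 1, shear.symm q.2)) '' M₁ t ∪ M₂ t, ?_, ?_, ?_, ?_⟩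
  · have := min_le_left (τ / 2) (η₁ / 2); linarith
  · have := min_le_left (τ / 2) (η₁ / 2)
    have := (hr₂ i).2.1
    linarith
  · refine (measure_union_le _ _).trans ?_
    refine (add_le_add hT₁ hT₂).trans ?_
    rw [← ENNReal.ofReal_add (by positivity) (by positivity)]
    exact ENNReal.ofReal_le_ofReal (by linarith)
  · intro t
    refine ((hM₁c t).image ?_).union (hM₂c t)
    have := shear.symm.continuous
    fun_prop
  · rintro t q (⟨q', hq', rfl⟩ | hq)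
    · obtain ⟨h1, ⟨l, hl, hl'⟩, h3⟩ := hM₁a t q' hq'
      have h4 : shear.symm q'.2 = l := by rw [← hl', ContinuousLinearEquiv.symm_apply_apply]
      refine ⟨⟨by have := h1.1; simp only; linarith, by have := h1.2; simp only; linarith⟩,
        by simp only; rw [h4]; exact hl, ?_⟩
      simp only
      rw [hvt, ContinuousLinearEquiv.apply_symm_apply, h4]
      have h5 : |v11 q'.2 - t| ≤ τ / 2 := h3
      have h6 := hlay2 l hl
      have h7 := min_le_left (τ / 2) (η₁ / 2)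
      rw [abs_le] at h5 ⊢
      constructor <;> linarith [h5.1, h5.2, h6.1, h6.2]
    · obtain ⟨h1, h2, h3⟩ := hM₂a t q hq
      refine ⟨⟨h1.1, by linarith [h1.2]⟩, h2, ?_⟩
      rw [hvt]
      have h7 := min_le_left (τ / 2) (η₁ / 2)
      exact h3.trans (by linarith)
  · intro l hl t hlt
    rw [hvt] at hlt
    rcases hM₂b l hl t (hlt.trans (min_le_right _ _)) with h2 | ⟨hlV, h2, -⟩
    · exact h2.trans (measure_mono fun x hx => Or.inr hx)
    · have h6 := hlay2 l hl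
      have h7 := min_le_right (τ / 2) (η₁ / 2)
      have h8 : |v11 (shear l) - t| ≤ η₁ := by
        have := hlt.trans (min_le_left _ _)
        rw [abs_le] at this ⊢
        constructor <;> linarith [this.1, this.2, h6.1, h6.2]
      rcases hM₁b (shear l) (mem_image_of_mem _ hl) t h8 with h1 | ⟨-, -, h1⟩
      · refine le_trans h1 ?_
        have : volume {y : ℝ | (y, shear l) ∈ M₁ t} =
            volume ((fun x : ℝ => x + (-1)) ⁻¹' {y : ℝ | (y, shear l) ∈ M₁ t}) :=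
          (measure_preimage_add_right _ _ _).symm
        rw [this]
        refine measure_mono fun x hx => Or.inl ⟨(x + (-1), shear l), hx, ?_⟩
        simp
      · exfalso
        apply h1
        have hfd : fderiv ℝ (fun l => v11 (shear l)) l =
            (fderiv ℝ v11 (shear l)).comp (shear : (ℝ × ℝ) →L[ℝ] (ℝ × ℝ)) := by
          have := shear.comp_right_fderiv (f := v11) (x := l)
          exact this
        rw [hfd] at h2
        have e1 : (shear : (ℝ × ℝ) →L[ℝ] (ℝ × ℝ)) (0, 1) = (0, 1) + (1, 0) := by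
          simp [shear_apply]
        have e2 : (shear : (ℝ × ℝ) →L[ℝ] (ℝ × ℝ)) (1, 0) = (1, 0) := by
          simp [shear_apply]
        rw [ContinuousLinearMap.comp_apply, ContinuousLinearMap.comp_apply, e1, e2, map_add] at h2
        exact h2
  · intro t ht l
    rw [mem_union, not_or] at ht
    have hsubset : {x : ℝ | ∃ l' : ℝ × ℝ,
        (x, l') ∈ (fun q : ℝ × (ℝ × ℝ) => (q.1 + 1, shear.symm q.2)) '' M₁ t ∪ M₂ t ∧
        l'.1 + l'.2 * x = l.1 + l.2 * x ∧ d ≤ |l'.2 - l.2|} ⊆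
        ((fun x : ℝ => x + (-1)) ⁻¹' {y : ℝ | ∃ l' : ℝ × ℝ, (y, l') ∈ M₁ t ∧
          l'.1 + l'.2 * y = (shear l).1 + (shear l).2 * y ∧ d ≤ |l'.2 - (shear l).2|}) ∪
        {y : ℝ | ∃ l' : ℝ × ℝ, (y, l') ∈ M₂ t ∧
            l'.1 + l'.2 * y = l.1 + l.2 * y ∧ d ≤ |l'.2 - l.2|} := by
      rintro x ⟨l', hl' | hl', h2, h3⟩
      · left
        obtain ⟨⟨y, L⟩, hq, he⟩ := hl'
        simp only [Prod.mk.injEq] at he
        obtain ⟨rfl, rfl⟩ := he
        simp only [shear_symm_apply] at h2 h3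
        refine ⟨L, ?_, ?_, ?_⟩
        · have : (fun x : ℝ => x + -1) (y + 1) = y := by simp
          rw [this]; exact hq
        · simp only [shear_apply]; linarith
        · simpa using h3
      · right
        exact ⟨l', hl', h2, h3⟩
    refine (measure_mono hsubset).trans ((measure_union_le _ _).trans ?_)
    rw [measure_preimage_add_right]
    refine (add_le_add (hM₁d t ht.1 (shear l)) (hM₂d t ht.2 l)).trans ?_
    rw [← ENNReal.ofReal_add (by positivity) (by positivity)]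
    exact ENNReal.ofReal_le_ofReal (by linarith)

end Pool.Agent.Croft
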