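import Mathlib
import Pool.Agent.Croft.Defs
import Pool.Agent.Croft.Rect
import Pool.Agent.Croft.StagePre
import Pool.Agent.Croft.TwoPhase

/-!
Module M3, last part: the stage lemma (from the statements of the phase lemma, of the layer
properties and of the approximation of layers by rectangles).
-/

open MeasureTheory Set Filter Topology

namespace Pool.Agent.Croft

theorem nice_biUnion (D : ℕ → Set (ℝ × ℝ)) (N : ℕ) (h : ∀ i < N, Nice (D i))
    (hd : ∀ i < N, ∀ j < i, Disjoint (D j) (D i)) :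
    Nice (⋃ i ∈ Finset.range N, D i) ∧
      ∀ l, len (⋃ i ∈ Finset.range N, D i) l = ∑ i ∈ Finset.range N, len (D i) l := by
  induction N with
  | zero =>
    have e : (⋃ i ∈ Finset.range 0, D i) = ∅ := by simp
    rw [e]
    refine ⟨nice_empty, fun l => ?_⟩
    simp [len, sec]
  | succ N ih =>
    obtain ⟨h1, h2⟩ := ih (fun i hi => h i (by omega)) (fun i hi j hj => hd i (by omega) j hj)
    have e : (⋃ i ∈ Finset.range (N + 1), D i) = (⋃ i ∈ Finset.range N, D i) ∪ D N := by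
      rw [Finset.range_add_one, Finset.set_biUnion_insert, union_comm]
    have hdis : Disjoint (⋃ i ∈ Finset.range N, D i) (D N) := by
      simp only [disjoint_iUnion_left, Finset.mem_range]
      exact fun i hi => hd N (by omega) i hi
    rw [e]
    refine ⟨h1.union (h N (by omega)) hdis, fun l => ?_⟩
    rw [len_union (h N (by omega)).meas hdis h1.rng (h N (by omega)).rng l, h2 l,
      Finset.sum_range_succ]

theorem half_seq_anti {r : ℕ → ℝ} (h : ∀ i, 0 < r i ∧ r (i + 1) ≤ r i / 2) {i j : ℕ}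
    (hij : i < j) : r j ≤ r i / 2 := by
  induction j with
  | zero => omega
  | succ j ih =>
    rcases Nat.lt_succ_iff_lt_or_eq.mp hij with h' | h'
    · have := ih h'
      have h1 := (h j).2
      have h2 := (h j).1
      linarith
    · subst h'; exact (h i).2

/-- One family of layers (wall `x = w`) replaced by rectangles. -/
theorem approx_family (hA' : ApproxStatement) {w α A Y η : ℝ} {r : ℕ → ℝ} (hw : 0 ≤ w)
    (hw1 : w ≤ 1) (hα : 0 < α) (hr : ∀ i, 0 < r i ∧ r i ≤ 1 ∧ r (i + 1) ≤ r i / 2) (hA : 1 ≤ A)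
    (hαA : α * A ≤ 1 / 16) (hY : 0 < Y) (hη : 0 < η) (N : ℕ) :
    ∃ D : Set (ℝ × ℝ), Nice D ∧
      (∀ p ∈ D, w + α * r N ≤ p.1 ∧ w < p.1 ∧ p.1 ≤ w + 2 * (α * r 0)) ∧
      (∀ p ∈ D, |p.2| ≤ Y + 2 * A + 1) ∧
      ∀ l : ℝ × ℝ, |l.2| < A → |l.1| ≤ Y →
        |len D l - ∑ i ∈ Finset.range N, lay α (r i) (l.1 + w * l.2, l.2)| ≤ η := by
  have hη' : 0 < η / (N + 1) := by positivity
  have := fun i => hA' hw hw1 hα (hr i).1 (hr i).2.1 hA hαA hY hη'
  choose D h1 h2 h3 h4 using this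
  have hr' : ∀ i, 0 < r i ∧ r (i + 1) ≤ r i / 2 := fun i => ⟨(hr i).1, (hr i).2.2⟩
  have hdis : ∀ i < N, ∀ j < i, Disjoint (D j) (D i) := by
    intro i _ j hj
    refine Set.disjoint_left.mpr fun p hp hp' => ?_
    have a1 := (h2 j p hp).1
    have a2 := (h2 i p hp').2
    have a3 : α * r i ≤ α * (r j / 2) := mul_le_mul_of_nonneg_left (half_seq_anti hr' hj) hα.le
    linarith
  obtain ⟨n1, n2⟩ := nice_biUnion D N (fun i _ => h1 i) hdis
  have hle : ∀ i, r i ≤ r 0 := by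
    intro i
    rcases Nat.eq_zero_or_pos i with h | h
    · rw [h]
    · have := half_seq_anti hr' h
      have := (hr 0).1
      linarith
  refine ⟨_, n1, ?_, ?_, ?_⟩
  · intro p hp
    simp only [mem_iUnion, Finset.mem_range] at hp
    obtain ⟨i, hi, hp⟩ := hp
    obtain ⟨a1, a2⟩ := h2 i p hp
    have a3 := half_seq_anti hr' hi
    have a4 := (hr i).1
    have a5 : α * r N ≤ α * r i := mul_le_mul_of_nonneg_left (by linarith) hα.le
    have a6 : α * r i ≤ α * r 0 := mul_le_mul_of_nonneg_left (hle i) hα.le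
    have a7 : 0 < α * r i := mul_pos hα a4
    exact ⟨by linarith, by linarith, by linarith⟩
  · intro p hp
    simp only [mem_iUnion, Finset.mem_range] at hp
    obtain ⟨i, hi, hp⟩ := hp
    exact h3 i p hp
  · intro l hl hl'
    rw [n2, ← Finset.sum_sub_distrib]
    refine (Finset.abs_sum_le_sum_abs _ _).trans ?_
    refine (Finset.sum_le_sum fun i _ => h4 i l hl hl').trans ?_
    rw [Finset.sum_const, Finset.card_range, nsmul_eq_mul]
    have : (N : ℝ) * (η / (N + 1)) = η * (N / (N + 1)) := by ring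
    rw [this]
    have : (N : ℝ) / (N + 1) ≤ 1 := by
      rw [div_le_one (by positivity)]; linarith
    exact mul_le_of_le_one_right hη.le this

theorem stage_of (hL : LayerStatement) (hP : PhaseStatement) (hAp : ApproxStatement)
    (E : Set (ℝ × ℝ)) (hE : Nice E) (ϱ : ℝ) (hϱ : 0 < ϱ) (hgap : Gap E ϱ)
    (R : Set (ℝ × ℝ)) (hR : IsCompact R) (hR0 : ∀ l ∈ R, l.2 ≠ 0)
    (ε τ d : ℝ) (hε : 0 < ε) (hτ : 0 < τ) (hd : 0 < d) :
    ∃ D : Set (ℝ × ℝ), Nice (E ∪ D) ∧ Disjoint E D ∧ MeasurableSet D ∧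
      (∃ ϱ' > 0, Gap (E ∪ D) ϱ') ∧
      (∀ p ∈ D, (0 < p.1 ∧ p.1 < min ϱ τ) ∨ (1 < p.1 ∧ p.1 < 1 + min ϱ τ)) ∧
      volume D ≤ ENNReal.ofReal τ ∧ (∀ l ∈ R, len D l ≤ τ) ∧
      ∃ η > 0, ∃ T : Set ℝ, MeasurableSet T ∧ volume T ≤ ENNReal.ofReal ε ∧
      ∃ M : ℝ → Set (ℝ × (ℝ × ℝ)), (∀ t, IsCompact (M t)) ∧
        (∀ t, ∀ q ∈ M t, q.1 ∈ Icc (-3 : ℝ) 4 ∧ q.2 ∈ R ∧ |len (E ∪ D) q.2 - t| ≤ τ) ∧
        (∀ l ∈ R, ∀ t, |len (E ∪ D) l - t| ≤ η →
          ENNReal.ofReal (1 / 20) ≤ volume {x : ℝ | (x, l) ∈ M t}) ∧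
        (∀ t, t ∉ T → ∀ l : ℝ × ℝ, volume {x : ℝ | ∃ l' : ℝ × ℝ, (x, l') ∈ M t ∧
            l'.1 + l'.2 * x = l.1 + l.2 * x ∧ d ≤ |l'.2 - l.2|} ≤ ENNReal.ofReal ε) := by
  -- choice of the thickening
  have hRR : IsCompact (shear '' R) := hR.image shear.continuous
  have hopen : IsOpen {l : ℝ × ℝ | l.2 ≠ 0} := isOpen_ne_fun (by fun_prop) (by fun_prop)
  obtain ⟨β₁, hβ₁, hβ₁'⟩ := hR.exists_cthickening_subset_open hopen hR0
  obtain ⟨β₂, hβ₂, hβ₂'⟩ := hRR.exists_cthickening_subset_open hopen (by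
    rintro _ ⟨l, hl, rfl⟩; exact hR0 l hl)
  set β := min β₁ β₂ with hβ
  have hβ0 : 0 < β := lt_min hβ₁ hβ₂
  obtain ⟨A₁, hA₁⟩ := (hR.cthickening (r := β)).exists_bound_of_continuousOn
    (f := fun l : ℝ × ℝ => l.2) (by fun_prop)
  obtain ⟨A₂, hA₂⟩ := (hRR.cthickening (r := β)).exists_bound_of_continuousOn
    (f := fun l : ℝ × ℝ => l.2) (by fun_prop)
  obtain ⟨Y₁, hY₁⟩ := hR.exists_bound_of_continuousOn (f := fun l : ℝ × ℝ => l.1) (by fun_prop)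
  set A : ℝ := max 1 (max (A₁ + 1) (A₂ + 1)) with hAdef
  have hA : 1 ≤ A := le_max_left _ _
  have hAA₁ : A₁ < A := by
    have := le_max_right (1:ℝ) (max (A₁ + 1) (A₂ + 1))
    have := le_max_left (A₁ + 1) (A₂ + 1)
    linarith
  have hAA₂ : A₂ < A := by
    have := le_max_right (1:ℝ) (max (A₁ + 1) (A₂ + 1))
    have := le_max_right (A₁ + 1) (A₂ + 1)
    linarith
  have hth : ∀ l ∈ Metric.cthickening β R, l.2 ≠ 0 ∧ |l.2| < A := fun l hl =>
    ⟨hβ₁' (Metric.cthickening_mono (min_le_left _ _) _ hl), (hA₁ l hl).trans_lt hAA₁⟩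
  have hth1 : ∀ l ∈ Metric.cthickening β (shear '' R), l.2 ≠ 0 ∧ |l.2| < A := fun l hl =>
    ⟨hβ₂' (Metric.cthickening_mono (min_le_right _ _) _ hl), (hA₂ l hl).trans_lt hAA₂⟩
  set Y : ℝ := max 1 Y₁ with hYdef
  have hY : 0 < Y := lt_of_lt_of_le one_pos (le_max_left _ _)
  have hRA : ∀ l ∈ R, |l.2| < A := fun l hl => (hth l (Metric.self_subset_cthickening _ hl)).2
  have hRY : ∀ l ∈ R, |l.1| ≤ Y := fun l hl => (hY₁ l hl).trans (le_max_right _ _)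
  -- choice of the tolerance
  set B : ℝ := Y + 2 * A + 1 with hB
  have hB1 : 1 ≤ B := by linarith
  set C : ℝ := 16 * B * (1 + A) with hC
  have hC16 : 16 ≤ C := by nlinarith
  have hC1 : 1 ≤ C := by linarith
  set μ : ℝ := min (min (ϱ / 4) (τ / C)) (1 / 4) with hμ
  have hμ0 : 0 < μ := lt_min (lt_min (by positivity) (by positivity)) (by norm_num)
  have hμϱ : μ ≤ ϱ / 4 := (min_le_left _ _).trans (min_le_left _ _)
  have hμτ : μ ≤ τ / C := (min_le_left _ _).trans (min_le_right _ _)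
  have hμ1 : μ ≤ 1 / 4 := min_le_right _ _
  have hμC : C * μ ≤ τ := by
    rw [le_div_iff₀ (by positivity)] at hμτ; linarith
  have hμτ' : 16 * μ ≤ τ := (mul_le_mul_of_nonneg_right hC16 hμ0.le).trans hμC
  obtain ⟨α₁, N₁, r₁, α₂, N₂, r₂, ⟨hα₁, hα₁μ, hα₁A, hr₁⟩, ⟨hα₂, hα₂μ, hα₂A, hr₂⟩, η, hη, T, hTm,
    hT, M, hMc, hMa, hMb, hMd⟩ := two_phase hL hP E hE R hR A β hA hβ0 hth hth1 ε μ d hε hμ0 hd
  -- the rectangles
  set η' : ℝ := min (η / 4) μ with hη'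
  have hη'0 : 0 < η' := lt_min (by positivity) hμ0
  obtain ⟨D₁, n₁, a₁, b₁, c₁⟩ := approx_family hAp (w := 1) zero_le_one le_rfl hα₁
    (fun i => ⟨(hr₁ i).1, by linarith [(hr₁ i).2.1], (hr₁ i).2.2⟩) hA hα₁A hY hη'0 N₁
  obtain ⟨D₂, n₂, a₂, b₂, c₂⟩ := approx_family hAp (w := 0) le_rfl zero_le_one hα₂
    (fun i => ⟨(hr₂ i).1, by linarith [(hr₂ i).2.1], (hr₂ i).2.2⟩) hA hα₂A hY hη'0 N₂
  have hs₁ : 2 * (α₁ * r₁ 0) < μ := by
    have h1 := (hr₁ 0).1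
    have h2 := (hr₁ 0).2.1
    nlinarith
  have hs₂ : 2 * (α₂ * r₂ 0) < μ := by
    have h1 := (hr₂ 0).1
    have h2 := (hr₂ 0).2.1
    nlinarith
  have hD₁ : ∀ p ∈ D₁, 1 < p.1 ∧ p.1 < 1 + μ := fun p hp =>
    ⟨(a₁ p hp).2.1, by linarith [(a₁ p hp).2.2]⟩
  have hD₂ : ∀ p ∈ D₂, 0 < p.1 ∧ p.1 < μ := fun p hp =>
    ⟨(a₂ p hp).2.1, by linarith [(a₂ p hp).2.2]⟩
  have hdis : Disjoint D₁ D₂ := by
    refine Set.disjoint_left.mpr fun p hp hp' => ?_
    have := (hD₁ p hp).1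
    have := (hD₂ p hp').2
    linarith
  have hmin : μ ≤ min ϱ τ := le_min (by linarith) (by linarith)
  have hloc : ∀ p ∈ D₁ ∪ D₂, (0 < p.1 ∧ p.1 < min ϱ τ) ∨ (1 < p.1 ∧ p.1 < 1 + min ϱ τ) := by
    rintro p (hp | hp)
    · right; exact ⟨(hD₁ p hp).1, by linarith [(hD₁ p hp).2]⟩
    · left; exact ⟨(hD₂ p hp).1, by linarith [(hD₂ p hp).2]⟩
  have hED : Disjoint E (D₁ ∪ D₂) := by
    refine Set.disjoint_left.mpr fun p hp hp' => ?_
    obtain ⟨g1, g2⟩ := hgap p hp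
    have hmϱ := min_le_left ϱ τ
    rcases hloc p hp' with h | h
    · exact g1 ⟨h.1, by linarith [h.2]⟩
    · exact g2 ⟨h.1, by linarith [h.2]⟩
  have nD : Nice (D₁ ∪ D₂) := n₁.union n₂ hdis
  have lenD : ∀ l, len (D₁ ∪ D₂) l = len D₁ l + len D₂ l := fun l =>
    len_union n₂.meas hdis n₁.rng n₂.rng l
  have lenED : ∀ l, len (E ∪ (D₁ ∪ D₂)) l = len E l + (len D₁ l + len D₂ l) := fun l => by
    rw [len_union nD.meas hED hE.rng nD.rng l, lenD]
  have hclose : ∀ l ∈ R, |len (E ∪ (D₁ ∪ D₂)) l - vtot E α₁ N₁ r₁ α₂ N₂ r₂ l| ≤ 2 * η' := by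
    intro l hl
    have e1 := c₁ l (hRA l hl) (hRY l hl)
    have e2 := c₂ l (hRA l hl) (hRY l hl)
    rw [one_mul] at e1
    rw [zero_mul, add_zero] at e2
    rw [lenED, vtot]
    rw [abs_le] at e1 e2 ⊢
    have e3 : ((l.1, l.2) : ℝ × ℝ) = l := rfl
    rw [e3] at e2
    constructor <;> linarith [e1.1, e1.2, e2.1, e2.2]
  refine ⟨D₁ ∪ D₂, hE.union nD hED, hED, nD.meas, ?_, hloc, ?_, ?_, η / 2, by positivity, T, hTm,
    hT, M, hMc, ?_, ?_, hMd⟩
  · -- gap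
    have p1 : 0 < α₁ * r₁ N₁ := mul_pos hα₁ (hr₁ N₁).1
    have p2 : 0 < α₂ * r₂ N₂ := mul_pos hα₂ (hr₂ N₂).1
    refine ⟨min (min ϱ 1) (min (α₁ * r₁ N₁) (α₂ * r₂ N₂)), lt_min (lt_min hϱ one_pos)
      (lt_min p1 p2), ?_⟩
    have q1 : min (min ϱ 1) (min (α₁ * r₁ N₁) (α₂ * r₂ N₂)) ≤ ϱ :=
      (min_le_left _ _).trans (min_le_left _ _)
    have q2 : min (min ϱ 1) (min (α₁ * r₁ N₁) (α₂ * r₂ N₂)) ≤ 1 :=
      (min_le_left _ _).trans (min_le_right _ _)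
    have q3 : min (min ϱ 1) (min (α₁ * r₁ N₁) (α₂ * r₂ N₂)) ≤ α₁ * r₁ N₁ :=
      (min_le_right _ _).trans (min_le_left _ _)
    have q4 : min (min ϱ 1) (min (α₁ * r₁ N₁) (α₂ * r₂ N₂)) ≤ α₂ * r₂ N₂ :=
      (min_le_right _ _).trans (min_le_right _ _)
    rintro p (hp | hp | hp)
    · obtain ⟨g1, g2⟩ := hgap p hp
      exact ⟨fun h => g1 ⟨h.1, h.2.trans_le q1⟩, fun h => g2 ⟨h.1, by linarith [h.2]⟩⟩
    · have h1 := (a₁ p hp).1
      have h2 := (a₁ p hp).2.1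
      exact ⟨fun h => by linarith [h.2], fun h => by linarith [h.2]⟩
    · have h1 := (a₂ p hp).1
      have h2 := (hD₂ p hp).2
      exact ⟨fun h => by linarith [h.2], fun h => by linarith [h.1]⟩
  · -- volume
    have hsub : D₁ ∪ D₂ ⊆ (Icc 0 μ ∪ Icc 1 (1 + μ)) ×ˢ Icc (-B) B := by
      rintro p (hp | hp)
      · exact ⟨Or.inr ⟨(hD₁ p hp).1.le, (hD₁ p hp).2.le⟩, abs_le.mp (b₁ p hp)⟩
      · exact ⟨Or.inl ⟨(hD₂ p hp).1.le, (hD₂ p hp).2.le⟩, abs_le.mp (b₂ p hp)⟩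
    refine (measure_mono hsub).trans ?_
    rw [Measure.volume_eq_prod, Measure.prod_prod, Real.volume_Icc]
    have h1 : (volume (Icc 0 μ ∪ Icc 1 (1 + μ)) : ENNReal) ≤ ENNReal.ofReal (2 * μ) := by
      refine (measure_union_le _ _).trans ?_
      rw [Real.volume_Icc, Real.volume_Icc, ← ENNReal.ofReal_add (by linarith) (by linarith)]
      exact ENNReal.ofReal_le_ofReal (by linarith)
    refine (mul_le_mul_left h1 _).trans ?_
    rw [← ENNReal.ofReal_mul (by positivity)]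
    apply ENNReal.ofReal_le_ofReal
    have : 2 * μ * (B - -B) = 4 * B * μ := by ring
    rw [this]
    refine le_trans ?_ hμC
    apply mul_le_mul_of_nonneg_right _ hμ0.le
    rw [hC]
    nlinarith
  · -- length
    intro l hl
    have hsub : sec (D₁ ∪ D₂) l ⊆ Icc 0 μ ∪ Icc 1 (1 + μ) := by
      rintro x (hp | hp)
      · exact Or.inr ⟨(hD₁ _ hp).1.le, (hD₁ _ hp).2.le⟩
      · exact Or.inl ⟨(hD₂ _ hp).1.le, (hD₂ _ hp).2.le⟩
    have h1 : (volume (sec (D₁ ∪ D₂) l)).toReal ≤ 2 * μ := by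
      apply ENNReal.toReal_le_of_le_ofReal (by positivity)
      refine (measure_mono hsub).trans ((measure_union_le _ _).trans ?_)
      rw [Real.volume_Icc, Real.volume_Icc, ← ENNReal.ofReal_add (by linarith) (by linarith)]
      exact ENNReal.ofReal_le_ofReal (by linarith)
    have h2 : Real.sqrt (1 + l.2 ^ 2) ≤ 1 + A := by
      rw [Real.sqrt_le_left (by linarith)]
      have h3 := abs_lt.mp (hRA l hl)
      nlinarith [h3.1, h3.2]
    unfold len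
    refine (mul_le_mul h2 h1 ENNReal.toReal_nonneg (by linarith)).trans ?_
    refine le_trans ?_ hμC
    have : (1 + A) * (2 * μ) = (2 * (1 + A)) * μ := by ring
    rw [this]
    apply mul_le_mul_of_nonneg_right _ hμ0.le
    rw [hC]
    nlinarith
  · -- marks
    intro t q hq
    obtain ⟨h1, h2, h3⟩ := hMa t q hq
    refine ⟨h1, h2, ?_⟩
    have h4 := hclose q.2 h2
    have h5 : η' ≤ μ := min_le_right _ _
    rw [abs_le] at h3 h4 ⊢
    constructor <;> linarith [h3.1, h3.2, h4.1, h4.2]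
  · intro l hl t ht
    refine hMb l hl t ?_
    have h4 := hclose l hl
    have h5 : η' ≤ η / 4 := min_le_left _ _
    rw [abs_le] at ht h4 ⊢
    constructor <;> linarith [ht.1, ht.2, h4.1, h4.2]

end Pool.Agent.Croft
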