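import Mathlib
import Pool.Agent.Croft.Stage
import Pool.Agent.Croft.Layer

open MeasureTheory Set Filter Topology

namespace Pool.Agent.Croft.Approx

open LayerAux

/-- The elementary slope estimate along a line. -/
theorem slope_est {α r A a : ℝ} (hα : 0 < α) (hr : 0 < r) (hαA : α * A ≤ 1 / 16) (ha : |a| < A)
    (u w x y : ℝ) (hxy : x ≤ y) :
    (y - x) / 2 ≤ (y - w - α * r - α * r * Tf ((u + a * y) / r)) -
      (x - w - α * r - α * r * Tf ((u + a * x) / r)) := by
  have h1 := Tf_sub_le ((u + a * y) / r) ((u + a * x) / r)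
  have h2 : (u + a * y) / r - (u + a * x) / r = a * (y - x) / r := by ring
  rw [h2, abs_div, abs_mul, abs_of_pos hr, abs_of_nonneg (sub_nonneg.mpr hxy)] at h1
  have h3 : α * r * (Tf ((u + a * y) / r) - Tf ((u + a * x) / r)) ≤
      α * r * (8 / 5 * (|a| * (y - x) / r)) :=
    mul_le_mul_of_nonneg_left (le_of_abs_le h1) (by positivity)
  have h4 : α * r * (8 / 5 * (|a| * (y - x) / r)) = 8 / 5 * (α * |a|) * (y - x) := by
    field_simp
  have h5 : α * |a| ≤ 1 / 16 := (mul_le_mul_of_nonneg_left ha.le hα.le).trans hαA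
  have h6 : 8 / 5 * (α * |a|) * (y - x) ≤ 1 / 2 * (y - x) :=
    mul_le_mul_of_nonneg_right (by linarith) (sub_nonneg.mpr hxy)
  nlinarith

theorem approx_layer {w α r A Y η : ℝ} (hw : 0 ≤ w) (hw1 : w ≤ 1) (hα : 0 < α) (hr : 0 < r)
    (hr1 : r ≤ 1) (hA : 1 ≤ A) (hαA : α * A ≤ 1 / 16) (hY : 0 < Y) (hη : 0 < η) :
    ∃ D : Set (ℝ × ℝ), Nice D ∧ (∀ p ∈ D, w + α * r < p.1 ∧ p.1 ≤ w + 2 * (α * r)) ∧
      (∀ p ∈ D, |p.2| ≤ Y + 2 * A + 1) ∧
      ∀ l : ℝ × ℝ, |l.2| < A → |l.1| ≤ Y → |len D l - lay α r (l.1 + w * l.2, l.2)| ≤ η := by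
  have hα16 : α ≤ 1 / 16 := by nlinarith
  have hαr : 0 < α * r := mul_pos hα hr
  have hαr16 : α * r ≤ 1 / 16 := by nlinarith
  set Y' : ℝ := Y + 2 * A + 1 with hY'
  -- number of cells
  obtain ⟨m, hm⟩ := exists_nat_gt (8 * α * (1 + A) * (2 * Y') / η + 1)
  have hm0 : (0:ℝ) < m := by
    have : 0 < 8 * α * (1 + A) * (2 * Y') / η := by positivity
    linarith
  set h : ℝ := 2 * Y' / m with hh
  have hY'0 : 0 < Y' := by positivity
  have hh0 : 0 < h := by positivity
  have hhm : h * m = 2 * Y' := by rw [hh]; field_simp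
  have hhη : 8 * α * (1 + A) * h ≤ η := by
    have h1 : 8 * α * (1 + A) * (2 * Y') / η < m := by linarith
    rw [div_lt_iff₀ hη] at h1
    rw [hh]
    have : 8 * α * (1 + A) * (2 * Y' / m) = (8 * α * (1 + A) * (2 * Y')) / m := by ring
    rw [this, div_le_iff₀ hm0]
    linarith
  -- cells
  set y : ℕ → ℝ := fun i => -Y' + i * h with hy
  set c : ℕ → ℝ := fun i => max 0 (Tf (y i / r) - 2 * h / r) with hc
  have hc0 : ∀ i, 0 ≤ c i := fun i => le_max_left _ _
  have hc1 : ∀ i, c i ≤ 1 := fun i => max_le zero_le_one (by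
    have := Tf_le_one (y i / r)
    have : 0 < 2 * h / r := by positivity
    linarith)
  set D : ℕ → Set (ℝ × ℝ) := fun i =>
    Ioc (w + α * r) (w + α * r + α * r * c i) ×ˢ Ioc (y i) (y (i + 1)) with hD
  have hyy : ∀ i, y (i + 1) = y i + h := by intro i; simp only [hy]; push_cast; ring
  have hnice : ∀ i < m, Nice (D i) := by
    intro i _
    have h1 : α * r * c i ≤ α * r := mul_le_of_le_one_right hαr.le (hc1 i)
    have h2 : 0 ≤ α * r * c i := mul_nonneg hαr.le (hc0 i)
    exact nice_rect (by linarith) (by linarith) (by linarith) (by rw [hyy]; linarith)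
  have hymono : ∀ i j, i ≤ j → y i ≤ y j := by
    intro i j hij
    simp only [hy]
    have : (i : ℝ) * h ≤ j * h := mul_le_mul_of_nonneg_right (by exact_mod_cast hij) hh0.le
    linarith
  have hdis : ∀ i < m, ∀ j < i, Disjoint (D j) (D i) := by
    intro i _ j hj
    refine Set.disjoint_left.mpr fun p hp hp' => ?_
    have h1 := hp.2.2
    have h2 := hp'.2.1
    have h3 := hymono (j + 1) i hj
    linarith
  obtain ⟨n1, n2⟩ := nice_biUnion D m hnice hdis
  refine ⟨⋃ i ∈ Finset.range m, D i, n1, ?_, ?_, ?_⟩
  · intro p hp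
    simp only [mem_iUnion, Finset.mem_range] at hp
    obtain ⟨i, hi, hp⟩ := hp
    have h1 : α * r * c i ≤ α * r := mul_le_of_le_one_right hαr.le (hc1 i)
    exact ⟨hp.1.1, by linarith [hp.1.2]⟩
  · intro p hp
    simp only [mem_iUnion, Finset.mem_range] at hp
    obtain ⟨i, hi, hp⟩ := hp
    have h1 := hp.2.1
    have h2 := hp.2.2
    have h3 := hymono 0 i (Nat.zero_le _)
    have h4 := hymono (i + 1) m hi
    have h5 : y 0 = -Y' := by simp [hy]
    have h6 : y m = Y' := by simp only [hy]; linarith [hhm, mul_comm h (m:ℝ)]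
    rw [abs_le]
    constructor <;> linarith
  · intro l hl hl'
    obtain ⟨u, a⟩ := l
    simp only at hl hl' ⊢
    -- the two sections
    set S : Set ℝ := {x | w + α * r < x ∧ x ≤ w + α * r + α * r * Tf ((u + a * x) / r)} with hS
    set S' : Set ℝ := sec (⋃ i ∈ Finset.range m, D i) (u, a) with hS'
    have hTlip : ∀ s t : ℝ, |Tf (s / r) - Tf (t / r)| ≤ 8 / 5 * (|s - t| / r) := by
      intro s t
      have := Tf_sub_le (s / r) (t / r)
      rwa [← sub_div, abs_div, abs_of_pos hr] at this
    have hsub : S' ⊆ S := by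
      intro x hx
      simp only [hS', sec, mem_ofPred_eq, mem_iUnion, Finset.mem_range] at hx
      obtain ⟨i, hi, hx⟩ := hx
      have h1 := hx.1.1
      have h2 := hx.1.2
      have h3 := hx.2.1
      have h4 := hx.2.2
      simp only at h1 h2 h3 h4
      rw [hyy] at h4
      have h0 : 0 < c i := by
        by_contra hneg
        have : c i = 0 := le_antisymm (not_lt.mp hneg) (hc0 i)
        rw [this] at h2
        linarith
      have h5 : c i = Tf (y i / r) - 2 * h / r := by
        rcases max_choice 0 (Tf (y i / r) - 2 * h / r) with h' | h'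
        · have : c i = 0 := h'
          linarith
        · exact h'
      have h6 := hTlip (y i) (u + a * x)
      have h7 : |y i - (u + a * x)| ≤ h := by rw [abs_le]; constructor <;> linarith
      have h8 : |y i - (u + a * x)| / r ≤ h / r := by gcongr
      have h9 : c i ≤ Tf ((u + a * x) / r) := by
        rw [h5]
        have := (abs_le.mp h6).2
        have e : 2 * h / r = 2 * (h / r) := by ring
        have : 0 < h / r := by positivity
        rw [e]
        linarith
      refine ⟨h1, h2.trans ?_⟩
      have := mul_le_mul_of_nonneg_left h9 hαr.le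
      linarith
    -- difference
    set H : ℝ → ℝ := fun x => x - w - α * r - α * r * Tf ((u + a * x) / r) with hH
    have hdiff : ∀ x ∈ S, x ∉ S' → -(4 * α * h) ≤ H x ∧ H x ≤ 0 := by
      intro x hx hx'
      refine ⟨?_, by simp only [hH]; linarith [hx.2]⟩
      by_contra hneg
      push Not at hneg
      apply hx'
      -- locate the cell
      have hT1 := Tf_le_one ((u + a * x) / r)
      have hx2 : x ≤ 2 := by
        have := hx.2
        have : α * r * Tf ((u + a * x) / r) ≤ α * r := mul_le_of_le_one_right hαr.le hT1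
        linarith
      have hx0 : 0 ≤ x := by linarith [hx.1]
      have hax : |a * x| < 2 * A := by
        rw [abs_mul, abs_of_nonneg hx0]
        nlinarith [abs_nonneg a]
      have hv1 : -Y' < u + a * x := by
        have := (abs_le.mp hl').1
        have := (abs_lt.mp hax).1
        linarith
      have hv2 : u + a * x ≤ Y' := by
        have := (abs_le.mp hl').2
        have := (abs_lt.mp hax).2
        linarith
      -- i = ⌈(v + Y')/h⌉ - 1
      set v := u + a * x with hv
      have hvh : 0 < (v + Y') / h := by apply div_pos _ hh0; linarith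
      obtain ⟨i, hi1, hi2⟩ : ∃ i : ℕ, (i : ℝ) < (v + Y') / h ∧ (v + Y') / h ≤ i + 1 := by
        refine ⟨⌈(v + Y') / h⌉₊ - 1, ?_, ?_⟩
        · have h1 : 0 < ⌈(v + Y') / h⌉₊ := Nat.ceil_pos.mpr hvh
          have h2 := Nat.ceil_lt_add_one hvh.le
          have h3 : ((⌈(v + Y') / h⌉₊ - 1 : ℕ) : ℝ) = (⌈(v + Y') / h⌉₊ : ℝ) - 1 := by
            push_cast [Nat.cast_sub h1]; ring
          rw [h3]; linarith
        · have h1 : 0 < ⌈(v + Y') / h⌉₊ := Nat.ceil_pos.mpr hvh
          have h3 : ((⌈(v + Y') / h⌉₊ - 1 : ℕ) : ℝ) = (⌈(v + Y') / h⌉₊ : ℝ) - 1 := by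
            push_cast [Nat.cast_sub h1]; ring
          rw [h3]
          have := Nat.le_ceil ((v + Y') / h)
          linarith
      rw [lt_div_iff₀ hh0] at hi1
      rw [div_le_iff₀ hh0] at hi2
      have him : i < m := by
        have : (i : ℝ) * h < m * h := by
          have : (m : ℝ) * h = 2 * Y' := by rw [mul_comm]; exact hhm
          rw [this]
          linarith
        have := lt_of_mul_lt_mul_right this hh0.le
        exact_mod_cast this
      have hvi1 : y i < v := by simp only [hy]; linarith
      have hvi2 : v ≤ y (i + 1) := by simp only [hy]; push_cast; linarith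
      simp only [hS', sec, mem_ofPred_eq, mem_iUnion, Finset.mem_range]
      refine ⟨i, him, ⟨hx.1, ?_⟩, hvi1, hvi2⟩
      simp only
      have h6 := hTlip (y i) v
      rw [hyy] at hvi2
      have h7 : |y i - v| ≤ h := by rw [abs_le]; constructor <;> linarith
      have h8 : |y i - v| / r ≤ h / r := by gcongr
      have h9 : Tf (v / r) - 4 * (h / r) ≤ c i := by
        refine le_trans ?_ (le_max_right _ _)
        have e : 2 * h / r = 2 * (h / r) := by ring
        rw [e]
        have := (abs_le.mp h6).1
        have : 0 < h / r := by positivity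
        linarith
      have h10 : α * r * (Tf (v / r) - 4 * (h / r)) ≤ α * r * c i :=
        mul_le_mul_of_nonneg_left h9 hαr.le
      have h11 : α * r * (Tf (v / r) - 4 * (h / r)) = α * r * Tf (v / r) - 4 * α * h := by
        field_simp
      simp only [hH] at hneg
      linarith
    -- measure of the difference
    have hmeas : volume (S \ S') ≤ ENNReal.ofReal (8 * α * h) := by
      rcases (S \ S').eq_empty_or_nonempty with he | ⟨x₀, hx₀⟩
      · rw [he]; simp
      · -- contained in an interval of length 8 α h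
        set b := sInf (S \ S') with hb
        have hbdd : BddBelow (S \ S') := ⟨w, fun x hx => by linarith [hx.1.1]⟩
        have hsub2 : S \ S' ⊆ Icc b (b + 8 * α * h) := by
          intro x hx
          refine ⟨csInf_le hbdd hx, ?_⟩
          by_contra hneg
          push Not at hneg
          obtain ⟨z, hz, hzx⟩ := exists_lt_of_csInf_lt ⟨x₀, hx₀⟩
            (show sInf (S \ S') < x - 8 * α * h by rw [← hb]; linarith)
          have h1 := hdiff x hx.1 hx.2
          have h2 := hdiff z hz.1 hz.2
          have hzx' : z ≤ x := by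
            have : 0 < 8 * α * h := by positivity
            linarith
          have h3 := slope_est hα hr hαA hl u w z x hzx'
          simp only [hH] at h1 h2
          linarith [h1.1, h1.2, h2.1, h2.2]
        refine (measure_mono hsub2).trans ?_
        rw [Real.volume_Icc]
        exact ENNReal.ofReal_le_ofReal (by linarith)
    -- conclusion
    have hSfin : volume S < ⊤ := by
      have : S ⊆ Icc 0 2 := by
        intro x hx
        have hT1 := Tf_le_one ((u + a * x) / r)
        have : α * r * Tf ((u + a * x) / r) ≤ α * r := mul_le_of_le_one_right hαr.le hT1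
        exact ⟨by linarith [hx.1], by linarith [hx.2]⟩
      exact (measure_mono this).trans_lt (by simp)
    have hS'm : MeasurableSet S' := measurableSet_sec n1.meas _
    have hS'fin : volume S' < ⊤ := (measure_mono hsub).trans_lt hSfin
    have hvol : volume S = volume S' + volume (S \ S') := by
      rw [add_comm]
      have := measure_sdiff_add_inter (μ := volume) S hS'm
      rw [inter_eq_self_of_subset_right hsub] at this
      exact this.symm
    have hlayX : (volume S).toReal = layX α r (u + w * a, a) := by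
      unfold layX
      have e : {z : ℝ | 0 < z ∧ z ≤ α * r * Tf ((((u + w * a, a) : ℝ × ℝ).1 +
          ((u + w * a, a) : ℝ × ℝ).2 * (α * r + z)) / r)} = (fun z : ℝ => z + (w + α * r)) ⁻¹' S := by
        ext z
        simp only [mem_ofPred_eq, mem_preimage, hS]
        have e2 : u + w * a + a * (α * r + z) = u + a * (z + (w + α * r)) := by ring
        rw [e2]
        constructor
        · rintro ⟨h1, h2⟩; exact ⟨by linarith, by linarith⟩
        · rintro ⟨h1, h2⟩; exact ⟨by linarith, by linarith⟩
      rw [e, measure_preimage_add_right]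
    have hdiffR : (volume S).toReal - (volume S').toReal ≤ 8 * α * h ∧
        0 ≤ (volume S).toReal - (volume S').toReal := by
      have hf : volume (S \ S') < ⊤ := hmeas.trans_lt ENNReal.ofReal_lt_top
      rw [hvol, ENNReal.toReal_add hS'fin.ne hf.ne]
      have := ENNReal.toReal_le_of_le_ofReal (by positivity) hmeas
      constructor
      · linarith
      · have : 0 ≤ (volume (S \ S')).toReal := ENNReal.toReal_nonneg
        linarith
    have hsqrt : Real.sqrt (1 + a ^ 2) ≤ 1 + A := by
      rw [Real.sqrt_le_left (by linarith)]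
      have h3 := abs_lt.mp hl
      nlinarith [h3.1, h3.2]
    have hfinal : len (⋃ i ∈ Finset.range m, D i) (u, a) - lay α r (u + w * a, a) =
        - (Real.sqrt (1 + a ^ 2) * ((volume S).toReal - (volume S').toReal)) := by
      unfold len lay
      rw [← hlayX]
      simp only
      ring
    rw [hfinal, abs_neg, abs_of_nonneg (mul_nonneg (Real.sqrt_nonneg _) hdiffR.2)]
    calc Real.sqrt (1 + a ^ 2) * ((volume S).toReal - (volume S').toReal)
        ≤ (1 + A) * (8 * α * h) :=
          mul_le_mul hsqrt hdiffR.1 hdiffR.2 (by linarith)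
      _ = 8 * α * (1 + A) * h := by ring
      _ ≤ η := hhη

end Pool.Agent.Croft.Approx
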