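import Mathlib

open MeasureTheory Set

namespace Pool.Agent.Croft

theorem hit_of_sign_change (D : ℕ → ℝ) (κ : ℝ) (N : ℕ)
    (hstep : ∀ k < N, |D (k + 1) - D k| ≤ κ) (i j : ℕ) (hi : i ≤ N) (hj : j ≤ N)
    (h : D i * D j < 0) : ∃ k ≤ N, |D k| ≤ κ := by
  classical
  wlog hij : i ≤ j generalizing i j
  · exact this j i hj hi (by linarith [mul_comm (D i) (D j)]) (by omega)
  by_contra hcon
  push_neg at hcon
  have hind : ∀ m, i + m ≤ N → 0 < D i * D (i + m) := by
    intro m
    induction m with
    | zero =>
        intro hm
        have h0 := hcon i hi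
        rw [add_zero]
        have hκ' : D i ≠ 0 := by
          intro h1; rw [h1] at h; simp at h
        exact mul_self_pos.2 hκ'
    | succ m ih =>
        intro hm
        have ih' := ih (by omega)
        have hs := hstep (i + m) (by omega)
        have hk := hcon (i + m) (by omega)
        have hk' := hcon (i + m + 1) (by omega)
        rw [show i + (m + 1) = i + m + 1 by ring]
        rcases lt_or_ge 0 (D (i + m)) with hp | hn
        · have hDi : 0 < D i := by
            by_contra hneg; push_neg at hneg
            nlinarith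
          have : D (i + m) > κ := by rw [abs_of_pos hp] at hk; exact hk
          rw [abs_le] at hs
          have : 0 < D (i + m + 1) := by
            linarith [hs.1]
          positivity
        · have hDi : D i < 0 := by
            by_contra hneg; push_neg at hneg
            nlinarith
          have h3 : -D (i + m) > κ := by rw [abs_of_nonpos hn] at hk; exact hk
          rw [abs_le] at hs
          have : D (i + m + 1) < 0 := by linarith [hs.2]
          exact mul_pos_of_neg_of_neg hDi this
  obtain ⟨m, rfl⟩ := Nat.exists_eq_add_of_le hij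
  linarith [hind m hj]

/-- The possible behaviours of the gradient walk `(q k, P k)` along a phase. -/
theorem walk_cases (q P : ℕ → ℝ) (κ kp : ℝ) (N : ℕ) (hkp : 0 < kp)
    (hstep : ∀ k < N, ∀ y ∈ Icc (-3 : ℝ) 3,
      |(P (k + 1) - y * q (k + 1)) - (P k - y * q k)| ≤ κ)
    (hP : ∀ k ≤ N, |P k - P 0| ≤ kp / 4) :
    (|P 0| ≤ kp ∧ |q 0| ≤ 4 * kp) ∨ (|P N| ≤ 2 * kp ∧ |q N| ≤ 2 * kp) ∨
    (kp ≤ |P 0| ∧ |q 0| ≤ 4 * |P 0| ∧ ∀ k ≤ N, |q k| ≤ 16 * |P 0|) ∨
    (kp ≤ |P 0| ∧ ENNReal.ofReal (1 / 20) ≤
      volume {y : ℝ | 1 / 8 ≤ |y| ∧ |y| ≤ 3 ∧ ∃ k ≤ N, |P k - y * q k| ≤ κ}) ∨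
    (4 * |P 0| < |q 0| ∧ ¬ (4 * |P N + q N| < |q N|)) := by
  classical
  have hit : ∀ (a b : ℝ), (∀ y ∈ Icc a b, 1 / 8 ≤ |y| ∧ |y| ≤ 3 ∧
      ∃ i ≤ N, ∃ j ≤ N, (P i - y * q i) * (P j - y * q j) < 0) → 1 / 20 ≤ b - a →
      ENNReal.ofReal (1 / 20) ≤
        volume {y : ℝ | 1 / 8 ≤ |y| ∧ |y| ≤ 3 ∧ ∃ k ≤ N, |P k - y * q k| ≤ κ} := by
    intro a b hab hlen
    calc ENNReal.ofReal (1 / 20) ≤ ENNReal.ofReal (b - a) := ENNReal.ofReal_le_ofReal hlen
      _ = volume (Icc a b) := (Real.volume_Icc).symm
      _ ≤ _ := by
          apply measure_mono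
          intro y hy
          obtain ⟨h1, h2, i, hi, j, hj, hneg⟩ := hab y hy
          refine ⟨h1, h2, ?_⟩
          have hy3 : y ∈ Icc (-3 : ℝ) 3 := by rw [abs_le] at h2; exact h2
          exact hit_of_sign_change (fun k => P k - y * q k) κ N
            (fun k hk => hstep k hk y hy3) i j hi hj hneg
  have hPN := hP N le_rfl
  rcases le_or_gt (|q 0|) (4 * |P 0|) with hq | hq
  · rcases le_or_gt (|P 0|) kp with hp | hp
    · left
      exact ⟨hp, by linarith⟩
    · by_cases hall : ∀ k ≤ N, |q k| ≤ 16 * |P 0|
      · right; right; left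
        exact ⟨hp.le, hq, hall⟩
      · push_neg at hall
        obtain ⟨k, hk, hqk⟩ := hall
        right; right; right; left
        refine ⟨hp.le, ?_⟩
        have hPk := hP k hk
        have hP0 : 0 < |P 0| := lt_trans hkp hp
        have hsq : P 0 * P 0 = |P 0| * |P 0| := (abs_mul_abs_self (P 0)).symm
        have hPP : P k * P 0 ≤ 5 / 4 * (|P 0| * |P 0|) := by
          have e : P k * P 0 = P 0 * P 0 + (P k - P 0) * P 0 := by ring
          have e2 : (P k - P 0) * P 0 ≤ |P k - P 0| * |P 0| := by
            rw [← abs_mul]; exact le_abs_self _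
          have e3 : |P k - P 0| * |P 0| ≤ (|P 0| / 4) * |P 0| := by
            apply mul_le_mul_of_nonneg_right _ hP0.le
            linarith
          rw [e, hsq]; linarith
        rcases le_or_gt 0 (q k * P 0) with hs | hs
        · apply hit (1 / 8) (1 / 5) _ (by norm_num)
          intro y hy
          have hy0 : 0 < y := by linarith [hy.1]
          refine ⟨by rw [abs_of_pos hy0]; exact hy.1, by rw [abs_of_pos hy0]; linarith [hy.2],
            0, Nat.zero_le _, k, hk, ?_⟩
          have h1 : 0 < (P 0 - y * q 0) * P 0 := by
            have e1 : y * q 0 * P 0 ≤ y * (|q 0| * |P 0|) := by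
              rw [mul_assoc, ← abs_mul]
              exact mul_le_mul_of_nonneg_left (le_abs_self _) hy0.le
            have e2 : y * (|q 0| * |P 0|) ≤ 1 / 5 * (4 * |P 0| * |P 0|) := by
              apply mul_le_mul hy.2 _ (by positivity) (by norm_num)
              exact mul_le_mul_of_nonneg_right hq hP0.le
            have : 0 < |P 0| * |P 0| := by positivity
            nlinarith
          have h2 : (P k - y * q k) * P 0 < 0 := by
            have e1 : q k * P 0 = |q k| * |P 0| := by rw [← abs_mul, abs_of_nonneg hs]
            have e2 : 1 / 8 * (16 * |P 0| * |P 0|) ≤ y * (|q k| * |P 0|) := by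
              apply mul_le_mul hy.1 _ (by positivity) hy0.le
              exact mul_le_mul_of_nonneg_right hqk.le hP0.le
            have : 0 < |P 0| * |P 0| := by positivity
            have e3 : (P k - y * q k) * P 0 = P k * P 0 - y * (q k * P 0) := by ring
            rw [e3, e1]; linarith
          nlinarith [mul_neg_of_pos_of_neg h1 h2, mul_pos hP0 hP0]
        · apply hit (-(1 / 5)) (-(1 / 8)) _ (by norm_num)
          intro y hy
          have hy0 : y < 0 := by linarith [hy.2]
          refine ⟨by rw [abs_of_neg hy0]; linarith [hy.2], by rw [abs_of_neg hy0]; linarith [hy.1],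
            0, Nat.zero_le _, k, hk, ?_⟩
          have h1 : 0 < (P 0 - y * q 0) * P 0 := by
            have e1 : y * q 0 * P 0 ≤ (-y) * (|q 0| * |P 0|) := by
              have : y * q 0 * P 0 = (-y) * (-(q 0 * P 0)) := by ring
              rw [this, ← abs_mul]
              exact mul_le_mul_of_nonneg_left (neg_le_abs _) (by linarith)
            have e2 : (-y) * (|q 0| * |P 0|) ≤ 1 / 5 * (4 * |P 0| * |P 0|) := by
              apply mul_le_mul (by linarith [hy.1]) _ (by positivity) (by norm_num)
              exact mul_le_mul_of_nonneg_right hq hP0.le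
            have : 0 < |P 0| * |P 0| := by positivity
            nlinarith
          have h2 : (P k - y * q k) * P 0 < 0 := by
            have e1 : q k * P 0 = -(|q k| * |P 0|) := by
              rw [← abs_mul, abs_of_neg hs]; ring
            have e2 : 1 / 8 * (16 * |P 0| * |P 0|) ≤ (-y) * (|q k| * |P 0|) := by
              apply mul_le_mul (by linarith [hy.2]) _ (by positivity) (by linarith)
              exact mul_le_mul_of_nonneg_right hqk.le hP0.le
            have : 0 < |P 0| * |P 0| := by positivity
            have e3 : (P k - y * q k) * P 0 = P k * P 0 - y * (q k * P 0) := by ring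
            rw [e3, e1]; linarith
          nlinarith [mul_neg_of_pos_of_neg h1 h2, mul_pos hP0 hP0]
  · by_cases hE : 4 * |P N + q N| < |q N|
    · rcases le_or_gt (|P 0|) kp with hp | hp
      · right; left
        have h1 : |P N| ≤ 5 / 4 * kp := by
          have : |P N| ≤ |P N - P 0| + |P 0| := by
            have e : P N = (P N - P 0) + P 0 := by ring
            calc |P N| = |(P N - P 0) + P 0| := by rw [← e]
              _ ≤ _ := abs_add_le _ _
          linarith
        have h2 : |q N| ≤ |P N + q N| + |P N| := by
          have e : q N = (P N + q N) - P N := by ring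
          calc |q N| = |(P N + q N) - P N| := by rw [← e]
            _ ≤ _ := abs_sub _ _
        constructor <;> linarith
      · right; right; right; left
        refine ⟨hp.le, ?_⟩
        have hq0 : 0 < |q 0| := by linarith [abs_nonneg (P 0)]
        have hqN : 0 < |q N| := by linarith [abs_nonneg (P N + q N)]
        have hs0 : q 0 * q 0 = |q 0| * |q 0| := (abs_mul_abs_self (q 0)).symm
        have hsN : q N * q N = |q N| * |q N| := (abs_mul_abs_self (q N)).symm
        have hPq0 : |P 0 * q 0| < |q 0| * |q 0| / 4 := by
          rw [abs_mul]; nlinarith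
        have hPqN : |(P N + q N) * q N| < |q N| * |q N| / 4 := by
          rw [abs_mul]; nlinarith
        rw [abs_lt] at hPq0 hPqN
        have h00 : 0 < |q 0| * |q 0| := by positivity
        have hNN : 0 < |q N| * |q N| := by positivity
        rcases le_or_gt (q 0 * q N) 0 with hs | hs
        · have hne0 : q 0 ≠ 0 := abs_pos.1 hq0
          have hneN : q N ≠ 0 := abs_pos.1 hqN
          have hs' : q 0 * q N < 0 := lt_of_le_of_ne hs (mul_ne_zero hne0 hneN)
          apply hit (1 / 4) 3 _ (by norm_num)
          intro y hy
          have hy0 : 0 < y := by linarith [hy.1]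
          refine ⟨by rw [abs_of_pos hy0]; linarith [hy.1], by rw [abs_of_pos hy0]; exact hy.2,
            0, Nat.zero_le _, N, le_rfl, ?_⟩
          have h1 : (P 0 - y * q 0) * q 0 < 0 := by
            have e : (P 0 - y * q 0) * q 0 = P 0 * q 0 - y * (q 0 * q 0) := by ring
            rw [e, hs0]
            have : 1 / 4 * (|q 0| * |q 0|) ≤ y * (|q 0| * |q 0|) :=
              mul_le_mul_of_nonneg_right hy.1 h00.le
            linarith [hPq0.2]
          have h2 : (P N - y * q N) * q N < 0 := by
            have e : (P N - y * q N) * q N = (P N + q N) * q N - (y + 1) * (q N * q N) := by ring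
            rw [e, hsN]
            have : 1 / 4 * (|q N| * |q N|) ≤ (y + 1) * (|q N| * |q N|) :=
              mul_le_mul_of_nonneg_right (by linarith) hNN.le
            linarith [hPqN.2]
          have h3 : 0 < ((P 0 - y * q 0) * (P N - y * q N)) * (q 0 * q N) := by
            have := mul_pos_of_neg_of_neg h1 h2
            nlinarith
          by_contra hcon
          push_neg at hcon
          nlinarith
        · apply hit (-(3 / 4)) (-(1 / 4)) _ (by norm_num)
          intro y hy
          have hy0 : y < 0 := by linarith [hy.2]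
          refine ⟨by rw [abs_of_neg hy0]; linarith [hy.2], by rw [abs_of_neg hy0]; linarith [hy.1],
            0, Nat.zero_le _, N, le_rfl, ?_⟩
          have h1 : 0 < (P 0 - y * q 0) * q 0 := by
            have e : (P 0 - y * q 0) * q 0 = P 0 * q 0 + (-y) * (q 0 * q 0) := by ring
            rw [e, hs0]
            have : 1 / 4 * (|q 0| * |q 0|) ≤ (-y) * (|q 0| * |q 0|) :=
              mul_le_mul_of_nonneg_right (by linarith [hy.2]) h00.le
            linarith [hPq0.1]
          have h2 : (P N - y * q N) * q N < 0 := by
            have e : (P N - y * q N) * q N = (P N + q N) * q N - (y + 1) * (q N * q N) := by ring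
            rw [e, hsN]
            have : 1 / 4 * (|q N| * |q N|) ≤ (y + 1) * (|q N| * |q N|) :=
              mul_le_mul_of_nonneg_right (by linarith [hy.1]) hNN.le
            linarith [hPqN.2]
          have h3 : ((P 0 - y * q 0) * (P N - y * q N)) * (q 0 * q N) < 0 := by
            have := mul_neg_of_pos_of_neg h1 h2
            nlinarith
          by_contra hcon
          push_neg at hcon
          nlinarith
    · right; right; right; right
      exact ⟨hq, hE⟩

end Pool.Agent.Croft
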