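import Mathlib
import Pool.Agent.Croft.Defs

/-!
Croft's question (MP_f884a2_an), module M1: from the key proposition to the final statement.
-/

open MeasureTheory Set Filter Topology

namespace Pool.Agent.Croft

/-- The key proposition, as a proposition. -/
def KeyStatement : Prop := ∃ E : Set (ℝ × ℝ), MeasurableSet E ∧ 0 < volume E ∧ volume E < ⊤ ∧
    (∀ p ∈ E, 0 ≤ p.1 ∧ p.1 ≤ 5) ∧
    (∀ l : ℝ × ℝ, volume (sec E l ∩ Icc (-3) 4) ≤ ENNReal.ofReal (1 / 40)) ∧
    ∀ᵐ t : ℝ, ∃ N : Set (ℝ × ℝ), MeasurableSet N ∧ volume N = 0 ∧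
      (∀ p ∈ N, -3 ≤ p.1 ∧ p.1 ≤ 4) ∧
      ∀ l : ℝ × ℝ, l.2 ≠ 0 →
        (len E l = t → ENNReal.ofReal (1 / 20) ≤ volume (sec N l)) ∧
        (len E l ≠ t → volume (sec N l) = 0)

theorem volume_affine (p d : ℝ) (hd : d ≠ 0) (s : Set ℝ) :
    volume {x : ℝ | p + x * d ∈ s} = ENNReal.ofReal |d⁻¹| * volume s := by
  have h1 : {x : ℝ | p + x * d ∈ s} = (fun x => x * d) ⁻¹' ((fun y => p + y) ⁻¹' s) := rfl
  rw [h1, Real.volume_preimage_mul_right hd, measure_preimage_add]

theorem exists_good {P : ℝ → Prop} (h : ∀ᵐ t : ℝ, P t) (a b : ℝ) (hab : a < b) :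
    ∃ t ∈ Ioo a b, P t := by
  by_contra hcon
  push Not at hcon
  have h1 : volume (Ioo a b) ≤ volume {t | ¬ P t} := measure_mono hcon
  rw [ae_iff.1 h, Real.volume_Ioo, nonpos_iff_eq_zero, ENNReal.ofReal_eq_zero] at h1
  linarith

/-- The planar form of the final statement. -/
theorem planar_of_key (hkey : KeyStatement) : ∃ E : Set (ℝ × ℝ), MeasurableSet E ∧
    0 < volume E ∧ volume E < ⊤ ∧
    ∀ t0 : ℝ, 0 < t0 → ∃ t : ℝ, 0 < t ∧ t < t0 ∧
      ∀ p1 p2 d1 d2 : ℝ, d1 ^ 2 + d2 ^ 2 = 1 →
        volume {s : ℝ | (p1 + s * d1, p2 + s * d2) ∈ E} ≠ ENNReal.ofReal t := by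
  classical
  obtain ⟨E, hEm, hE0, hEfin, hEx, -, hae⟩ := hkey
  set fX : ℝ → ℝ := fun x => (volume (Prod.mk x ⁻¹' E)).toReal with hfXdef
  set fY : ℝ → ℝ := fun y => (volume ((fun x => (x, y)) ⁻¹' E)).toReal with hfYdef
  have hfX : Measurable fX := (measurable_measure_prodMk_left hEm).ennreal_toReal
  have hfY : Measurable fY := (measurable_measure_prodMk_right hEm).ennreal_toReal
  have hcX := Measure.countable_meas_level_set_pos (μ := (volume : Measure ℝ)) hfX
  have hcY := Measure.countable_meas_level_set_pos (μ := (volume : Measure ℝ)) hfY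
  have haeX : ∀ᵐ t : ℝ, volume {x | fX x = t} = 0 := by
    filter_upwards [hcX.ae_notMem volume] with t ht
    simpa using ht
  have haeY : ∀ᵐ t : ℝ, volume {y | fY y = t} = 0 := by
    filter_upwards [hcY.ae_notMem volume] with t ht
    simpa using ht
  have hall := hae.and (haeX.and haeY)
  have hex : ∀ k : ℕ, ∃ t ∈ Ioo (0 : ℝ) (min (1 / 100) (1 / ((k : ℝ) + 1))), _ := fun k =>
    exists_good hall 0 _ (lt_min (by norm_num) (by positivity))
  choose t ht hN hX0 hY0 using hex
  choose N hNm hN0 _ hNl using hN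
  set NN : Set (ℝ × ℝ) := ⋃ k, N k with hNN
  have hNNm : MeasurableSet NN := MeasurableSet.iUnion hNm
  have hNN0 : volume NN = 0 := measure_iUnion_null hN0
  -- the exceptional verticals and horizontals
  set P : Set ℝ := (⋃ k, {x | fX x = t k}) ∪ {x | volume (Prod.mk x ⁻¹' NN) ≠ 0} with hP
  set Q : Set ℝ := (⋃ k, {y | fY y = t k}) ∪ {y | volume ((fun x => (x, y)) ⁻¹' NN) ≠ 0} with hQ
  have hPm : MeasurableSet P := by
    refine (MeasurableSet.iUnion fun k => hfX (measurableSet_singleton (t k))).union ?_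
    exact (measurable_measure_prodMk_left hNNm) (measurableSet_singleton (0 : ENNReal)).compl
  have hQm : MeasurableSet Q := by
    refine (MeasurableSet.iUnion fun k => hfY (measurableSet_singleton (t k))).union ?_
    exact (measurable_measure_prodMk_right hNNm) (measurableSet_singleton (0 : ENNReal)).compl
  have hP0 : volume P = 0 := by
    refine measure_union_null (measure_iUnion_null hX0) ?_
    have h1 : (∫⁻ x, volume (Prod.mk x ⁻¹' NN)) = 0 := by
      rw [← Measure.prod_apply (μ := (volume : Measure ℝ)) (ν := (volume : Measure ℝ)) hNNm]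
      exact hNN0
    rw [lintegral_eq_zero_iff (measurable_measure_prodMk_left hNNm)] at h1
    exact ae_iff.1 h1
  have hQ0 : volume Q = 0 := by
    refine measure_union_null (measure_iUnion_null hY0) ?_
    have h1 : (∫⁻ y, volume ((fun x => (x, y)) ⁻¹' NN)) = 0 := by
      rw [← Measure.prod_apply_symm (μ := (volume : Measure ℝ)) (ν := (volume : Measure ℝ)) hNNm]
      exact hNN0
    rw [lintegral_eq_zero_iff (measurable_measure_prodMk_right hNNm)] at h1
    exact ae_iff.1 h1
  set E' : Set (ℝ × ℝ) := ((E ∪ NN) \ (P ×ˢ univ)) \ (univ ×ˢ Q) with hE'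
  have hmem : ∀ x y : ℝ, (x, y) ∈ E' ↔ ((x, y) ∈ E ∨ (x, y) ∈ NN) ∧ x ∉ P ∧ y ∉ Q := by
    intro x y
    simp only [hE', mem_diff, mem_union, mem_prod, mem_univ, and_true, true_and]
    tauto
  have hE'm : MeasurableSet E' :=
    ((hEm.union hNNm).diff (hPm.prod MeasurableSet.univ)).diff (MeasurableSet.univ.prod hQm)
  have hPu : volume (P ×ˢ (univ : Set ℝ)) = 0 := by
    have : (volume : Measure (ℝ × ℝ)) (P ×ˢ (univ : Set ℝ)) = volume P * volume (univ : Set ℝ) :=
      Measure.prod_prod _ _
    rw [this, hP0, zero_mul]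
  have hQu : volume ((univ : Set ℝ) ×ˢ Q) = 0 := by
    have : (volume : Measure (ℝ × ℝ)) ((univ : Set ℝ) ×ˢ Q) = volume (univ : Set ℝ) * volume Q :=
      Measure.prod_prod _ _
    rw [this, hQ0, mul_zero]
  have hE'v : volume E' = volume E := by
    apply le_antisymm
    · calc volume E' ≤ volume (E ∪ NN) := measure_mono (diff_subset.trans diff_subset)
        _ ≤ volume E + volume NN := measure_union_le _ _
        _ = volume E := by rw [hNN0, add_zero]
    · calc volume E ≤ volume (E' ∪ (P ×ˢ univ ∪ univ ×ˢ Q)) := by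
            apply measure_mono
            rintro ⟨x, y⟩ hxy
            by_cases h1 : x ∈ P
            · exact Or.inr (Or.inl ⟨h1, mem_univ _⟩)
            · by_cases h2 : y ∈ Q
              · exact Or.inr (Or.inr ⟨mem_univ _, h2⟩)
              · exact Or.inl ((hmem x y).2 ⟨Or.inl hxy, h1, h2⟩)
        _ ≤ volume E' + (volume (P ×ˢ (univ : Set ℝ)) + volume ((univ : Set ℝ) ×ˢ Q)) :=
            (measure_union_le _ _).trans (by gcongr; exact measure_union_le _ _)
        _ = volume E' := by rw [hPu, hQu, add_zero, add_zero]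
  refine ⟨E', hE'm, by rw [hE'v]; exact hE0, by rw [hE'v]; exact hEfin, ?_⟩
  intro t0 ht0
  obtain ⟨k, hk⟩ := exists_nat_one_div_lt ht0
  have htpos : ∀ j, 0 < t j := fun j => (ht j).1
  have ht100 : ∀ j, t j < 1 / 100 := fun j => (ht j).2.trans_le (min_le_left _ _)
  refine ⟨t k, htpos k, ((ht k).2.trans_le (min_le_right _ _)).trans hk, ?_⟩
  intro p1 p2 d1 d2 hd heq
  by_cases hd1 : d1 = 0
  · -- vertical lines
    subst hd1
    have hd2 : d2 ≠ 0 := by rintro rfl; norm_num at hd
    have hd2' : |d2⁻¹| = 1 := by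
      have h1 : |d2| = 1 := by
        have : |d2| ^ 2 = 1 := by rw [sq_abs]; linarith
        nlinarith [abs_nonneg d2]
      rw [abs_inv, h1, inv_one]
    have h1 : {s : ℝ | (p1 + s * 0, p2 + s * d2) ∈ E'} = {s : ℝ | p2 + s * d2 ∈ Prod.mk p1 ⁻¹' E'} := by
      ext s; simp
    rw [h1, volume_affine p2 d2 hd2, hd2', ENNReal.ofReal_one, one_mul] at heq
    by_cases hp : p1 ∈ P
    · have h2 : Prod.mk p1 ⁻¹' E' = ∅ := by
        ext y
        simp only [mem_preimage, hmem, mem_empty_iff_false, iff_false]
        tauto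
      rw [h2, measure_empty] at heq
      have := htpos k
      rw [eq_comm, ENNReal.ofReal_eq_zero] at heq
      linarith
    · have h3 : volume (Prod.mk p1 ⁻¹' E') = volume (Prod.mk p1 ⁻¹' E) := by
        have hn : volume (Prod.mk p1 ⁻¹' NN) = 0 := by
          by_contra hcon
          exact hp (Or.inr hcon)
        apply le_antisymm
        · calc volume (Prod.mk p1 ⁻¹' E') ≤ volume (Prod.mk p1 ⁻¹' E ∪ Prod.mk p1 ⁻¹' NN) := by
                apply measure_mono
                intro y hy
                exact ((hmem p1 y).1 hy).1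
            _ ≤ volume (Prod.mk p1 ⁻¹' E) + volume (Prod.mk p1 ⁻¹' NN) := measure_union_le _ _
            _ = _ := by rw [hn, add_zero]
        · calc volume (Prod.mk p1 ⁻¹' E) ≤ volume (Prod.mk p1 ⁻¹' E' ∪ Q) := by
                apply measure_mono
                intro y hy
                by_cases hyQ : y ∈ Q
                · exact Or.inr hyQ
                · exact Or.inl ((hmem p1 y).2 ⟨Or.inl hy, hp, hyQ⟩)
            _ ≤ volume (Prod.mk p1 ⁻¹' E') + volume Q := measure_union_le _ _
            _ = _ := by rw [hQ0, add_zero]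
      rw [h3] at heq
      apply hp
      left
      rw [mem_iUnion]
      refine ⟨k, ?_⟩
      show (volume (Prod.mk p1 ⁻¹' E)).toReal = t k
      rw [heq, ENNReal.toReal_ofReal (htpos k).le]
  · by_cases hd2 : d2 = 0
    · -- horizontal lines
      subst hd2
      have hd1' : |d1⁻¹| = 1 := by
        have h1 : |d1| = 1 := by
          have : |d1| ^ 2 = 1 := by rw [sq_abs]; linarith
          nlinarith [abs_nonneg d1]
        rw [abs_inv, h1, inv_one]
      have h1 : {s : ℝ | (p1 + s * d1, p2 + s * 0) ∈ E'} =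
          {s : ℝ | p1 + s * d1 ∈ (fun x => (x, p2)) ⁻¹' E'} := by
        ext s; simp
      rw [h1, volume_affine p1 d1 hd1, hd1', ENNReal.ofReal_one, one_mul] at heq
      by_cases hp : p2 ∈ Q
      · have h2 : (fun x => (x, p2)) ⁻¹' E' = ∅ := by
          ext x
          simp only [mem_preimage, hmem, mem_empty_iff_false, iff_false]
          tauto
        rw [h2, measure_empty] at heq
        have := htpos k
        rw [eq_comm, ENNReal.ofReal_eq_zero] at heq
        linarith
      · have h3 : volume ((fun x => (x, p2)) ⁻¹' E') = volume ((fun x => (x, p2)) ⁻¹' E) := by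
          have hn : volume ((fun x => (x, p2)) ⁻¹' NN) = 0 := by
            by_contra hcon
            exact hp (Or.inr hcon)
          apply le_antisymm
          · calc volume ((fun x => (x, p2)) ⁻¹' E') ≤
                  volume ((fun x => (x, p2)) ⁻¹' E ∪ (fun x => (x, p2)) ⁻¹' NN) := by
                  apply measure_mono
                  intro x hx
                  exact ((hmem x p2).1 hx).1
              _ ≤ volume ((fun x => (x, p2)) ⁻¹' E) + volume ((fun x => (x, p2)) ⁻¹' NN) :=
                  measure_union_le _ _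
              _ = _ := by rw [hn, add_zero]
          · calc volume ((fun x => (x, p2)) ⁻¹' E) ≤ volume ((fun x => (x, p2)) ⁻¹' E' ∪ P) := by
                  apply measure_mono
                  intro x hx
                  by_cases hxP : x ∈ P
                  · exact Or.inr hxP
                  · exact Or.inl ((hmem x p2).2 ⟨Or.inl hx, hxP, hp⟩)
              _ ≤ volume ((fun x => (x, p2)) ⁻¹' E') + volume P := measure_union_le _ _
              _ = _ := by rw [hP0, add_zero]
        rw [h3] at heq
        apply hp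
        left
        rw [mem_iUnion]
        refine ⟨k, ?_⟩
        show (volume ((fun x => (x, p2)) ⁻¹' E)).toReal = t k
        rw [heq, ENNReal.toReal_ofReal (htpos k).le]
    · -- slanted lines
      set a : ℝ := d2 / d1 with ha
      set u : ℝ := p2 - a * p1 with hu
      have ha0 : a ≠ 0 := div_ne_zero hd2 hd1
      have hsq : Real.sqrt (1 + a ^ 2) = |d1⁻¹| := by
        have h1 : 1 + a ^ 2 = (d1⁻¹) ^ 2 := by
          rw [ha]; field_simp; linarith
        rw [h1, Real.sqrt_sq_eq_abs]
      have hs1 : 1 ≤ Real.sqrt (1 + a ^ 2) := by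
        rw [Real.le_sqrt (by norm_num) (by positivity)]
        nlinarith [sq_nonneg a]
      have h1 : {s : ℝ | (p1 + s * d1, p2 + s * d2) ∈ E'} =
          {s : ℝ | p1 + s * d1 ∈ sec E' (u, a)} := by
        ext s
        show (p1 + s * d1, p2 + s * d2) ∈ E' ↔ (p1 + s * d1, u + a * (p1 + s * d1)) ∈ E'
        have : u + a * (p1 + s * d1) = p2 + s * d2 := by
          rw [hu, ha]; field_simp; ring
        rw [this]
      rw [h1, volume_affine p1 d1 hd1, ← hsq] at heq
      have hQa : volume {x : ℝ | u + a * x ∈ Q} = 0 := by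
        have h2 : {x : ℝ | u + a * x ∈ Q} = {x : ℝ | u + x * a ∈ Q} := by
          ext x; rw [mem_setOf_eq, mem_setOf_eq, mul_comm]
        rw [h2, volume_affine u a ha0, hQ0, mul_zero]
      have hcov : ∀ W : Set (ℝ × ℝ), W ⊆ E ∪ NN → volume (sec W (u, a)) ≤ volume (sec E' (u, a)) := by
        intro W hW
        calc volume (sec W (u, a)) ≤ volume (sec E' (u, a) ∪ (P ∪ {x : ℝ | u + a * x ∈ Q})) := by
              apply measure_mono
              intro x hx
              by_cases hxP : x ∈ P
              · exact Or.inr (Or.inl hxP)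
              · by_cases hxQ : u + a * x ∈ Q
                · exact Or.inr (Or.inr hxQ)
                · exact Or.inl ((hmem x (u + a * x)).2 ⟨hW hx, hxP, hxQ⟩)
          _ ≤ volume (sec E' (u, a)) + (volume P + volume {x : ℝ | u + a * x ∈ Q}) :=
              (measure_union_le _ _).trans (by gcongr; exact measure_union_le _ _)
          _ = _ := by rw [hP0, hQa, add_zero, add_zero]
      by_cases hA : ∃ j, len E (u, a) = t j
      · obtain ⟨j, hj⟩ := hA
        have h2 := (hNl j (u, a) ha0).1 hj
        have h3 := hcov (N j) (subset_union_of_subset_right (subset_iUnion N j) _)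
        have h4 : ENNReal.ofReal (1 / 20) ≤
            ENNReal.ofReal (Real.sqrt (1 + a ^ 2)) * volume (sec E' (u, a)) := by
          calc ENNReal.ofReal (1 / 20) = 1 * ENNReal.ofReal (1 / 20) := (one_mul _).symm
            _ ≤ ENNReal.ofReal (Real.sqrt (1 + a ^ 2)) * volume (sec E' (u, a)) := by
                apply mul_le_mul' _ (h2.trans h3)
                rw [← ENNReal.ofReal_one]
                exact ENNReal.ofReal_le_ofReal hs1
        rw [heq] at h4
        rw [ENNReal.ofReal_le_ofReal_iff (htpos k).le] at h4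
        have := ht100 k
        linarith
      · push Not at hA
        have h2 : volume (sec NN (u, a)) = 0 := by
          have : sec NN (u, a) = ⋃ j, sec (N j) (u, a) := by
            ext x; simp [sec, hNN]
          rw [this]
          exact measure_iUnion_null (fun j => (hNl j (u, a) ha0).2 (hA j))
        have h3 : volume (sec E' (u, a)) = volume (sec E (u, a)) := by
          apply le_antisymm
          · calc volume (sec E' (u, a)) ≤ volume (sec E (u, a) ∪ sec NN (u, a)) := by
                  apply measure_mono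
                  intro x hx
                  exact ((hmem x _).1 hx).1
              _ ≤ volume (sec E (u, a)) + volume (sec NN (u, a)) := measure_union_le _ _
              _ = _ := by rw [h2, add_zero]
          · exact hcov E subset_union_left
        have h4 : volume (sec E (u, a)) ≠ ⊤ := by
          have h5 : sec E (u, a) ⊆ Icc (0 : ℝ) 5 := fun x hx => hEx _ hx
          exact measure_ne_top_of_subset h5 (by rw [Real.volume_Icc]; exact ENNReal.ofReal_ne_top)
        rw [h3] at heq
        apply hA k
        show Real.sqrt (1 + a ^ 2) * (volume (sec E (u, a))).toReal = t k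
        have h5 := congrArg ENNReal.toReal heq
        rw [ENNReal.toReal_mul, ENNReal.toReal_ofReal (Real.sqrt_nonneg _),
          ENNReal.toReal_ofReal (htpos k).le] at h5
        exact h5

/-- The final statement, from the key proposition. -/
theorem final_of_key (hkey : KeyStatement) : ∃ E : Set (EuclideanSpace ℝ (Fin 2)), MeasurableSet E ∧
    0 < volume E ∧ volume E < ⊤ ∧
    ∀ t0 : ℝ, 0 < t0 → ∃ t : ℝ, 0 < t ∧ t < t0 ∧
      ∀ p d : EuclideanSpace ℝ (Fin 2), ‖d‖ = 1 →
        volume {s : ℝ | p + s • d ∈ E} ≠ ENNReal.ofReal t := by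
  obtain ⟨E, hEm, hE0, hEfin, hE⟩ := planar_of_key hkey
  have hmp : MeasurePreserving (fun p : EuclideanSpace ℝ (Fin 2) => ((p 0, p 1) : ℝ × ℝ))
      volume volume := by
    have h1 := (volume_preserving_finTwoArrow ℝ).comp
      (EuclideanSpace.volume_preserving_symm_measurableEquiv_toLp (Fin 2))
    exact h1
  refine ⟨(fun p : EuclideanSpace ℝ (Fin 2) => ((p 0, p 1) : ℝ × ℝ)) ⁻¹' E, hmp.measurable hEm,
    ?_, ?_, ?_⟩
  · rw [hmp.measure_preimage hEm.nullMeasurableSet]; exact hE0
  · rw [hmp.measure_preimage hEm.nullMeasurableSet]; exact hEfin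
  · intro t0 ht0
    obtain ⟨t, ht, htt0, h⟩ := hE t0 ht0
    refine ⟨t, ht, htt0, ?_⟩
    intro p d hd
    have hd2 : d 0 ^ 2 + d 1 ^ 2 = 1 := by
      have h2 := EuclideanSpace.norm_sq_eq d
      rw [hd, Fin.sum_univ_two] at h2
      simpa using h2.symm
    exact h (p 0) (p 1) (d 0) (d 1) hd2

end Pool.Agent.Croft
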