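import Mathlib

open Set

namespace Pool.Agent.Croft

/-- Local estimate behind the Vitali argument: two nearby hit lines cross the line `(u, a)` at
nearby abscissae. -/
theorem local_hit {q P κ k d Λ ϱ η u a U1 a1 y1 U2 a2 y2 w : ℝ}
    (hk0 : 0 < k) (hk1 : k ≤ 1) (hκ0 : 0 < κ) (hκ : κ ≤ k / 8) (hd : 0 < d) (hΛ : 1 ≤ Λ)
    (hϱ : 0 < ϱ) (hη : η ≤ κ * ϱ)
    (hy1 : 1 / 8 ≤ |y1|) (hy1' : |y1| ≤ 3)
    (h1 : U1 + a1 * y1 = u + a * y1) (h2 : U2 + a2 * y2 = u + a * y2)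
    (hdd : d ≤ |a2 - a|) (hP : 3 / 4 * k ≤ |P|) (hP' : |P| ≤ Λ) (hD : |P - y1 * q| ≤ κ)
    (hw : |w| ≤ 3 * η) (hU : |U2 - U1| ≤ 5 * ϱ)
    (husd : |w - (q * (U2 - U1) + P * (a2 - a1))| ≤ κ * max |U2 - U1| |a2 - a1|) :
    |y2 - y1| ≤ 2160 * Λ * κ / (k ^ 2 * d) * ϱ := by
  have hmax : max |U2 - U1| |a2 - a1| ≤ |U2 - U1| + |a2 - a1| :=
    max_le (by linarith [abs_nonneg (a2 - a1)]) (by linarith [abs_nonneg (U2 - U1)])
  have hA0 := abs_nonneg (a2 - a1)
  have hU0 := abs_nonneg (U2 - U1)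
  set dU := |U2 - U1| with hdU
  set dA := |a2 - a1| with hdA
  have husd' : |w - (q * (U2 - U1) + P * (a2 - a1))| ≤ κ * (dU + dA) :=
    husd.trans (mul_le_mul_of_nonneg_left hmax hκ0.le)
  have hη0 : 3 * η ≤ 3 * (κ * ϱ) := by linarith
  have hlin : |q * (U2 - U1) + P * (a2 - a1)| ≤ 3 * η + κ * (dU + dA) := by
    have : q * (U2 - U1) + P * (a2 - a1) = w - (w - (q * (U2 - U1) + P * (a2 - a1))) := by ring
    rw [this]
    exact (abs_sub _ _).trans (add_le_add hw husd')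
  -- bound on |q|
  have hq : |q| ≤ 8 * (Λ + κ) := by
    have e : |y1| * |q| ≤ Λ + κ := by
      rw [← abs_mul]
      have : y1 * q = P - (P - y1 * q) := by ring
      rw [this]
      exact (abs_sub _ _).trans (add_le_add hP' hD)
    have hq0 := abs_nonneg q
    nlinarith
  have hq' : k / 6 ≤ |q| := by
    have e : k / 2 ≤ |y1| * |q| := by
      rw [← abs_mul]
      have h5 : |P| - |P - y1 * q| ≤ |y1 * q| := by
        have := abs_sub_abs_le_abs_sub P (P - y1 * q)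
        have e2 : P - (P - y1 * q) = y1 * q := by ring
        rwa [e2] at this
      linarith
    have hq0 := abs_nonneg q
    nlinarith
  -- bound on dA
  have hdA1 : |P| * dA ≤ |q| * dU + (3 * η + κ * (dU + dA)) := by
    rw [hdA, ← abs_mul]
    have : P * (a2 - a1) = (q * (U2 - U1) + P * (a2 - a1)) - q * (U2 - U1) := by ring
    rw [this]
    calc |(q * (U2 - U1) + P * (a2 - a1)) - q * (U2 - U1)|
        ≤ |q * (U2 - U1) + P * (a2 - a1)| + |q * (U2 - U1)| := abs_sub _ _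
      _ ≤ (3 * η + κ * (dU + |a2 - a1|)) + |q| * dU := by
          rw [abs_mul q]; exact add_le_add hlin le_rfl
      _ = _ := by ring
  have hκ1 : κ ≤ 1 / 8 := by linarith
  have hdA2 : k / 2 * dA ≤ 88 * Λ * ϱ := by
    have e1 : k / 2 * dA ≤ (|P| - κ) * dA := by
      apply mul_le_mul_of_nonneg_right _ hA0
      linarith
    have e2 : (|P| - κ) * dA ≤ (|q| + κ) * dU + 3 * η := by nlinarith
    have e3 : (|q| + κ) * dU ≤ (17 * Λ) * (5 * ϱ) := by
      apply mul_le_mul _ hU hU0 (by linarith)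
      nlinarith
    have e4 : 3 * η ≤ 3 * Λ * ϱ := by nlinarith
    linarith
  have hdA3 : dA ≤ 176 * Λ * ϱ / k := by
    rw [le_div_iff₀ hk0]; nlinarith
  -- the identity
  have hid : q * (a - a2) * (y2 - y1) = (q * (U2 - U1) + P * (a2 - a1)) - (P - y1 * q) * (a2 - a1) := by
    have e : U2 - U1 = (a - a2) * (y2 - y1) - y1 * (a2 - a1) := by linear_combination h2 - h1
    rw [e]; ring
  have hmain : |q| * d * |y2 - y1| ≤ 3 * η + κ * (dU + dA) + κ * dA := by
    have e0 : |q * (a - a2) * (y2 - y1)| ≤ 3 * η + κ * (dU + dA) + κ * dA := by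
      rw [hid]
      refine (abs_sub _ _).trans (add_le_add hlin ?_)
      rw [abs_mul]
      exact mul_le_mul_of_nonneg_right hD hA0
    rw [abs_mul, abs_mul, abs_sub_comm a a2] at e0
    refine le_trans ?_ e0
    apply mul_le_mul_of_nonneg_right _ (abs_nonneg _)
    exact mul_le_mul_of_nonneg_left hdd (abs_nonneg _)
  have hright : 3 * η + κ * (dU + dA) + κ * dA ≤ κ * ϱ * (360 * Λ / k) := by
    have hk' : 1 ≤ Λ / k := by rw [le_div_iff₀ hk0]; linarith
    have e1 : κ * dA ≤ κ * (176 * Λ * ϱ / k) := mul_le_mul_of_nonneg_left hdA3 hκ0.le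
    have e2 : κ * dU ≤ κ * (5 * ϱ) := mul_le_mul_of_nonneg_left hU hκ0.le
    have e3 : κ * ϱ * 8 ≤ κ * ϱ * (8 * (Λ / k)) := by
      apply mul_le_mul_of_nonneg_left _ (by positivity); linarith
    have e4 : κ * (176 * Λ * ϱ / k) = κ * ϱ * (176 * (Λ / k)) := by ring
    have e5 : κ * ϱ * (360 * Λ / k) = κ * ϱ * (8 * (Λ / k)) + 2 * (κ * ϱ * (176 * (Λ / k))) := by ring
    rw [e5]
    nlinarith
  have hleft : k / 6 * d * |y2 - y1| ≤ |q| * d * |y2 - y1| := by
    apply mul_le_mul_of_nonneg_right _ (abs_nonneg _)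
    exact mul_le_mul_of_nonneg_right hq' hd.le
  have hfin : k / 6 * d * |y2 - y1| ≤ κ * ϱ * (360 * Λ / k) := hleft.trans (hmain.trans hright)
  have hkd : 0 < k / 6 * d := by positivity
  rw [← sub_nonneg]
  have : 0 ≤ (κ * ϱ * (360 * Λ / k) - k / 6 * d * |y2 - y1|) / (k / 6 * d) :=
    div_nonneg (by linarith) hkd.le
  have e6 : (κ * ϱ * (360 * Λ / k) - k / 6 * d * |y2 - y1|) / (k / 6 * d) =
      2160 * Λ * κ / (k ^ 2 * d) * ϱ - |y2 - y1| := by
    field_simp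
    ring
  rw [e6] at this
  exact this

end Pool.Agent.Croft
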