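import Mathlib

open MeasureTheory Set Filter Topology Metric

namespace Pool.Agent.Croft

/-- Uniform strict differentiability on a compact set. -/
theorem usd (v : ℝ × ℝ → ℝ) (F : Set (ℝ × ℝ)) (hF : IsCompact F)
    (h : ∀ l ∈ F, ContDiffAt ℝ 1 v l) (κ : ℝ) (hκ : 0 < κ) :
    ∃ ϱ > 0, ∀ l' ∈ F, ∀ l'' : ℝ × ℝ, dist l'' l' ≤ ϱ →
      |v l'' - v l' - fderiv ℝ v l' (l'' - l')| ≤ κ * dist l'' l' := by
  refine hF.induction_on (p := fun G => ∃ ϱ > 0, ∀ l' ∈ G, ∀ l'' : ℝ × ℝ, dist l'' l' ≤ ϱ →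
      |v l'' - v l' - fderiv ℝ v l' (l'' - l')| ≤ κ * dist l'' l') ?_ ?_ ?_ ?_
  · exact ⟨1, one_pos, fun l' hl' => absurd hl' (notMem_empty _)⟩
  · rintro s t hst ⟨ϱ, hϱ, H⟩
    exact ⟨ϱ, hϱ, fun l' hl' => H l' (hst hl')⟩
  · rintro s t ⟨ϱ, hϱ, H⟩ ⟨ϱ', hϱ', H'⟩
    refine ⟨min ϱ ϱ', lt_min hϱ hϱ', ?_⟩
    rintro l' (hl' | hl') l'' hd
    · exact H l' hl' l'' (hd.trans (min_le_left _ _))
    · exact H' l' hl' l'' (hd.trans (min_le_right _ _))
  · intro l hl
    have hc := h l hl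
    have hstrict : HasStrictFDerivAt v (fderiv ℝ v l) l := hc.hasStrictFDerivAt (by norm_num)
    have hcont : ContinuousAt (fderiv ℝ v) l := by
      have := hc.fderiv_right (m := 0) (by norm_num)
      exact this.continuousAt
    have h1 : ∀ᶠ p : (ℝ × ℝ) × (ℝ × ℝ) in 𝓝 (l, l),
        ‖v p.1 - v p.2 - fderiv ℝ v l (p.1 - p.2)‖ ≤ κ / 2 * ‖p.1 - p.2‖ :=
      (hstrict.isLittleO.bound (by linarith : 0 < κ / 2))
    have h2 : ∀ᶠ q in 𝓝 l, ‖fderiv ℝ v q - fderiv ℝ v l‖ ≤ κ / 2 := by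
      have := hcont.eventually (Metric.closedBall_mem_nhds (fderiv ℝ v l) (by linarith : 0 < κ / 2))
      filter_upwards [this] with q hq
      rwa [← dist_eq_norm]
    obtain ⟨δ1, hδ1, H1⟩ := Metric.eventually_nhds_iff_ball.1 h1
    obtain ⟨δ2, hδ2, H2⟩ := Metric.eventually_nhds_iff_ball.1 h2
    set δ := min δ1 δ2 with hδ
    have hδ0 : 0 < δ := lt_min hδ1 hδ2
    refine ⟨ball l (δ / 2), mem_nhdsWithin_of_mem_nhds (ball_mem_nhds l (by linarith)), δ / 4,
      by linarith, ?_⟩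
    intro l' hl' l'' hd
    rw [mem_ball] at hl'
    have hl'1 : dist l' l < δ1 := by
      have := min_le_left δ1 δ2; linarith
    have hl'2 : dist l' l < δ2 := by
      have := min_le_right δ1 δ2; linarith
    have hl''1 : dist l'' l < δ1 := by
      have := min_le_left δ1 δ2
      have := dist_triangle l'' l' l; linarith
    have e1 := H1 (l'', l') (by
      rw [mem_ball, Prod.dist_eq]
      exact max_lt hl''1 hl'1)
    have e2 := H2 l' (mem_ball.2 hl'2)
    simp only at e1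
    have e3 : v l'' - v l' - fderiv ℝ v l' (l'' - l') =
        (v l'' - v l' - fderiv ℝ v l (l'' - l')) - ((fderiv ℝ v l' - fderiv ℝ v l) (l'' - l')) := by
      rw [ContinuousLinearMap.sub_apply]; ring
    rw [e3]
    have e4 : |(fderiv ℝ v l' - fderiv ℝ v l) (l'' - l')| ≤ κ / 2 * ‖l'' - l'‖ := by
      rw [← Real.norm_eq_abs]
      exact (ContinuousLinearMap.le_opNorm _ _).trans (by gcongr)
    calc |(v l'' - v l' - fderiv ℝ v l (l'' - l')) - ((fderiv ℝ v l' - fderiv ℝ v l) (l'' - l'))|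
        ≤ |v l'' - v l' - fderiv ℝ v l (l'' - l')| + |(fderiv ℝ v l' - fderiv ℝ v l) (l'' - l')| :=
          abs_sub _ _
      _ ≤ κ / 2 * ‖l'' - l'‖ + κ / 2 * ‖l'' - l'‖ := by
          rw [Real.norm_eq_abs] at e1
          exact add_le_add e1 e4
      _ = κ * dist l'' l' := by rw [dist_eq_norm]; ring

/-- The partial derivatives are continuous on the set where `v` is `C^1`. -/
theorem continuousAt_fderiv_apply {v : ℝ × ℝ → ℝ} {l : ℝ × ℝ} (h : ContDiffAt ℝ 1 v l)
    (e : ℝ × ℝ) : ContinuousAt (fun l => fderiv ℝ v l e) l := by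
  have hcont : ContinuousAt (fderiv ℝ v) l := by
    have := h.fderiv_right (m := 0) (by norm_num)
    exact this.continuousAt
  exact (ContinuousLinearMap.apply ℝ ℝ e).continuous.continuousAt.comp hcont

/-- A C^1 function whose second partial derivative is at least `c` on a convex set grows at
least at rate `c` in the second variable. -/
theorem mono_snd {v : ℝ × ℝ → ℝ} {B : Set (ℝ × ℝ)} (hB : Convex ℝ B)
    (h : ∀ l ∈ B, ContDiffAt ℝ 1 v l) (c : ℝ) (hc : ∀ l ∈ B, c ≤ fderiv ℝ v l (0, 1))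
    (U a b : ℝ) (ha : (U, a) ∈ B) (hb : (U, b) ∈ B) (hab : a ≤ b) :
    c * (b - a) ≤ v (U, b) - v (U, a) := by
  have hmem : ∀ s ∈ Icc a b, (U, s) ∈ B := by
    intro s hs
    rcases eq_or_lt_of_le hab with hab' | hab'
    · have : s = a := by rw [← hab'] at hs; exact le_antisymm hs.2 hs.1
      rw [this]; exact ha
    · have hseg := hB.segment_subset ha hb
      apply hseg
      rw [segment_eq_image]
      refine ⟨(s - a) / (b - a), ⟨div_nonneg (by linarith [hs.1]) (by linarith),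
        (div_le_one (by linarith)).2 (by linarith [hs.2])⟩, ?_⟩
      have hne : b - a ≠ 0 := by linarith
      ext
      · simp; ring
      · simp; field_simp; ring
  have hder : ∀ s ∈ Icc a b, HasDerivAt (fun s => v (U, s)) (fderiv ℝ v (U, s) (0, 1)) s := by
    intro s hs
    have h1 : HasFDerivAt v (fderiv ℝ v (U, s)) (U, s) :=
      ((h _ (hmem s hs)).differentiableAt (by norm_num)).hasFDerivAt
    have h2 : HasDerivAt (fun s : ℝ => (U, s)) ((0 : ℝ), (1 : ℝ)) s :=
      (hasDerivAt_const s U).prodMk (hasDerivAt_id s)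
    exact h1.comp_hasDerivAt s h2
  rcases eq_or_lt_of_le hab with hab' | hab'
  · subst hab'; simp
  · obtain ⟨ξ, hξ, hξ'⟩ := exists_hasDerivAt_eq_slope (fun s => v (U, s))
      (fun s => fderiv ℝ v (U, s) (0, 1)) hab'
      (fun s hs => (hder s hs).continuousAt.continuousWithinAt)
      (fun s hs => hder s (Ioo_subset_Icc_self hs))
    have h3 := hc _ (hmem ξ (Ioo_subset_Icc_self hξ))
    rw [hξ', le_div_iff₀ (by linarith)] at h3
    exact h3

end Pool.Agent.Croft
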