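import Mathlib
import Pool.Agent.Croft.Usd
import Pool.Agent.Croft.LocalHit

open MeasureTheory Set Filter Topology Metric

namespace Pool.Agent.Croft

/-- Two nearby lines, both close to the same level of `v` and both crossing `L`, the first one
being a hit, cross `L` at nearby abscissae. -/
def LocalHit (v P0 : ℝ × ℝ → ℝ) (F : Set (ℝ × ℝ)) (C : Finset (ℝ × ℝ))
    (g κ kp d θ ϱ η : ℝ) : Prop :=
  ∀ c ∈ C, ∀ l1 ∈ F, l1 ∈ closedBall c g → ∀ l2 ∈ F, l2 ∈ closedBall c g → kp ≤ |P0 l1| →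
    ∀ y1 y2 : ℝ, 1 / 8 ≤ |y1| → |y1| ≤ 3 →
    |fderiv ℝ v l1 (0, 1) - y1 * fderiv ℝ v l1 (1, 0)| ≤ κ →
    ∀ L : ℝ × ℝ, l1.1 + l1.2 * y1 = L.1 + L.2 * y1 → l2.1 + l2.2 * y2 = L.1 + L.2 * y2 →
    d ≤ |l2.2 - L.2| → |v l2 - v l1| ≤ 3 * η → |l2.1 - l1.1| ≤ 5 * ϱ → |y2 - y1| ≤ θ * ϱ

theorem level (v P0 : ℝ × ℝ → ℝ) (F : Set (ℝ × ℝ)) (hF : IsCompact F) (C : Finset (ℝ × ℝ))
    (g κ kp d Λ Lr : ℝ) (hk0 : 0 < kp) (hk1 : kp ≤ 1) (hκ0 : 0 < κ) (hκ : κ ≤ kp / 8)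
    (hd : 0 < d) (hΛ : 1 ≤ Λ) (hLr : 0 ≤ Lr)
    (h1 : ∀ l ∈ F, ContDiffAt ℝ 1 v l)
    (h2 : ∀ c ∈ C, ∀ U1 U2 a : ℝ, (U1, a) ∈ closedBall c g → (U2, a) ∈ closedBall c g →
      |v (U1, a) - v (U2, a)| ≤ Lr * |U1 - U2|)
    (h3 : ∀ c ∈ C, (∃ l ∈ F, l ∈ closedBall c g ∧ kp ≤ |P0 l|) → ∀ U a1 a2 : ℝ,
      (U, a1) ∈ closedBall c g → (U, a2) ∈ closedBall c g →
      kp / 4 * |a2 - a1| ≤ |v (U, a2) - v (U, a1)|)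
    (h4 : ∀ l ∈ F, kp ≤ |P0 l| → 3 / 4 * kp ≤ |fderiv ℝ v l (0, 1)|)
    (h5 : ∀ l ∈ F, |fderiv ℝ v l (0, 1)| ≤ Λ) (ϱm : ℝ) (hϱm : 0 < ϱm) :
    ∃ ϱ > 0, ϱ ≤ ϱm ∧ ∀ η, η ≤ κ * ϱ →
      LocalHit v P0 F C g κ kp d (2160 * Λ * κ / (kp ^ 2 * d)) ϱ η := by
  obtain ⟨ϱ', hϱ', H⟩ := usd v F hF h1 κ hκ0
  refine ⟨min ϱm (min (ϱ' / 5) (ϱ' * kp / (4 * (1 + 5 * Lr)))),
    lt_min hϱm (lt_min (by positivity) (by positivity)), min_le_left _ _, ?_⟩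
  set ϱ := min ϱm (min (ϱ' / 5) (ϱ' * kp / (4 * (1 + 5 * Lr)))) with hϱdef
  have hϱ0 : 0 < ϱ := lt_min hϱm (lt_min (by positivity) (by positivity))
  have hb1 : 5 * ϱ ≤ ϱ' := by
    have : ϱ ≤ ϱ' / 5 := (min_le_right _ _).trans (min_le_left _ _)
    linarith
  have hb2 : 4 / kp * (ϱ + 5 * Lr * ϱ) ≤ ϱ' := by
    have h6 : ϱ ≤ ϱ' * kp / (4 * (1 + 5 * Lr)) := (min_le_right _ _).trans (min_le_right _ _)
    rw [le_div_iff₀ (by positivity)] at h6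
    rw [div_mul_eq_mul_div, div_le_iff₀ hk0]
    linarith
  intro η hη c hc l1 hl1 hl1c l2 hl2 hl2c hP0 y1 y2 hy1 hy1' hD L hi1 hi2 hdL hv hU
  have hbox : (l1.1, l2.2) ∈ closedBall c g := by
    rw [mem_closedBall, Prod.dist_eq] at hl1c hl2c ⊢
    exact max_le ((le_max_left _ _).trans hl1c) ((le_max_right _ _).trans hl2c)
  have hη' : 3 * η ≤ ϱ := by
    have : κ * ϱ ≤ 1 / 8 * ϱ := by
      apply mul_le_mul_of_nonneg_right _ hϱ0.le; linarith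
    linarith
  -- rough bound on the slopes
  have hA : |l2.2 - l1.2| ≤ ϱ' := by
    have e1 := h3 c hc ⟨l1, hl1, hl1c, hP0⟩ l1.1 l1.2 l2.2 hl1c hbox
    have e2 := h2 c hc l1.1 l2.1 l2.2 hbox hl2c
    have e3 : |v (l1.1, l2.2) - v (l1.1, l1.2)| ≤ Lr * |l1.1 - l2.1| + 3 * η := by
      have : v (l1.1, l2.2) - v (l1.1, l1.2) =
          (v (l1.1, l2.2) - v (l2.1, l2.2)) + (v l2 - v l1) := by simp
      rw [this]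
      exact (abs_add_le _ _).trans (add_le_add e2 hv)
    have e4 : Lr * |l1.1 - l2.1| ≤ Lr * (5 * ϱ) := by
      rw [abs_sub_comm]; exact mul_le_mul_of_nonneg_left hU hLr
    have e5 : kp / 4 * |l2.2 - l1.2| ≤ ϱ + 5 * Lr * ϱ := by linarith
    calc |l2.2 - l1.2| = 4 / kp * (kp / 4 * |l2.2 - l1.2|) := by field_simp
      _ ≤ 4 / kp * (ϱ + 5 * Lr * ϱ) := by gcongr
      _ ≤ ϱ' := hb2
  have hdist : dist l2 l1 = max |l2.1 - l1.1| |l2.2 - l1.2| := by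
    rw [Prod.dist_eq, Real.dist_eq, Real.dist_eq]
  have hdist' : dist l2 l1 ≤ ϱ' := by
    rw [hdist]; exact max_le (hU.trans hb1) hA
  have husd := H l1 hl1 l2 hdist'
  have hlin : fderiv ℝ v l1 (l2 - l1) =
      fderiv ℝ v l1 (1, 0) * (l2.1 - l1.1) + fderiv ℝ v l1 (0, 1) * (l2.2 - l1.2) := by
    have e : l2 - l1 = (l2.1 - l1.1) • ((1 : ℝ), (0 : ℝ)) + (l2.2 - l1.2) • ((0 : ℝ), (1 : ℝ)) := by
      ext <;> simp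
    rw [e, map_add, map_smul, map_smul, smul_eq_mul, smul_eq_mul]
    ring
  rw [hlin, hdist] at husd
  exact local_hit hk0 hk1 hκ0 hκ hd hΛ hϱ0 hη hy1 hy1' hi1 hi2 hdL (h4 l1 hl1 hP0) (h5 l1 hl1) hD
    hv hU husd

end Pool.Agent.Croft
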