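import Mathlib

open MeasureTheory Set Filter Topology Metric
open scoped symmDiff

namespace Pool.Agent.Croft

/-- The lines whose height (in the scale `r`) lies in the rising part of the layer profile. -/
def Pset (α r : ℝ) : Set (ℝ × ℝ) :=
  {l | Int.fract ((l.1 / r + l.2 * α) / 2) ∈ Ico (1 / 8 : ℝ) (3 / 8)}

theorem measurableSet_Pset (α r : ℝ) : MeasurableSet (Pset α r) := by
  have h : Measurable (fun l : ℝ × ℝ => Int.fract ((l.1 / r + l.2 * α) / 2)) := by
    apply measurable_fract.comp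
    fun_prop
  exact h measurableSet_Ico

theorem fract_cover (x : ℝ) : ∃ j ∈ Finset.range 4, Int.fract (x - (j : ℝ) / 4) ∈ Ico (1 / 8 : ℝ) (3 / 8) := by
  have h0 := Int.fract_nonneg x
  have h1 := Int.fract_lt_one x
  have hx : x = ⌊x⌋ + Int.fract x := (Int.floor_add_fract x).symm
  have key : ∀ (y : ℝ) (m : ℤ), (y - m) ∈ Ico (1 / 8 : ℝ) (3 / 8) →
      Int.fract y ∈ Ico (1 / 8 : ℝ) (3 / 8) := by
    intro y m hy
    have : Int.fract y = y - m := by
      rw [Int.fract_eq_iff]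
      refine ⟨by linarith [hy.1], by linarith [hy.2], m, by ring⟩
    rw [this]; exact hy
  rcases lt_or_ge (Int.fract x) (1 / 8) with h | h
  · refine ⟨3, by simp, key _ (⌊x⌋ - 1) ⟨?_, ?_⟩⟩ <;> push_cast <;> linarith
  rcases lt_or_ge (Int.fract x) (3 / 8) with h' | h'
  · refine ⟨0, by simp, key _ (⌊x⌋) ⟨?_, ?_⟩⟩ <;> push_cast <;> linarith
  rcases lt_or_ge (Int.fract x) (5 / 8) with h'' | h''
  · refine ⟨1, by simp, key _ (⌊x⌋) ⟨?_, ?_⟩⟩ <;> push_cast <;> linarith
  rcases lt_or_ge (Int.fract x) (7 / 8) with h3 | h3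
  · refine ⟨2, by simp, key _ (⌊x⌋) ⟨?_, ?_⟩⟩ <;> push_cast <;> linarith
  · refine ⟨3, by simp, key _ (⌊x⌋) ⟨?_, ?_⟩⟩ <;> push_cast <;> linarith

/-- Equidistribution of the rising part: it fills at least one fifth of any set, for fine scales. -/
theorem pset_measure (B : Set (ℝ × ℝ)) (hB : MeasurableSet B) (hfin : volume B ≠ ⊤) (α : ℝ) :
    ∀ᶠ r in 𝓝[>] (0 : ℝ), volume B ≤ 5 * volume (B ∩ Pset α r) := by
  classical
  rcases eq_or_ne (volume B) 0 with h0 | h0
  · filter_upwards with r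
    rw [h0]; exact zero_le
  -- translations
  set F : ℝ → C(ℝ × ℝ, ℝ × ℝ) := fun c => ⟨fun l => l + (c, 0), by fun_prop⟩ with hF
  have hFc : Continuous F := by
    apply ContinuousMap.continuous_of_continuous_uncurry
    show Continuous (fun p : ℝ × (ℝ × ℝ) => p.2 + (p.1, 0))
    fun_prop
  have hmp : ∀ c : ℝ, MeasurePreserving (F c) volume volume := fun c =>
    measurePreserving_add_right volume ((c, 0) : ℝ × ℝ)
  have htend : Tendsto (fun c : ℝ => volume ((F c ⁻¹' B) ∆ (F 0 ⁻¹' B))) (𝓝 0) (𝓝 0) :=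
    tendsto_measure_symmDiff_preimage_nhds_zero (hFc.tendsto 0) (Eventually.of_forall hmp) (hmp 0)
      hB.nullMeasurableSet hfin
  have hF0 : F 0 ⁻¹' B = B := by
    ext l; show l + (0, 0) ∈ B ↔ l ∈ B
    have : l + ((0 : ℝ), (0 : ℝ)) = l := by
      ext <;> simp
    rw [this]
  rw [hF0] at htend
  have hδ : 0 < volume B / 20 := ENNReal.div_pos h0 (by norm_num)
  have hev : ∀ᶠ c in 𝓝 (0 : ℝ), volume ((F c ⁻¹' B) ∆ B) < volume B / 20 :=
    htend.eventually (gt_mem_nhds hδ)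
  have hev' : ∀ j : ℕ, ∀ᶠ r in 𝓝[>] (0 : ℝ), volume ((F ((j : ℝ) * r / 2) ⁻¹' B) ∆ B) < volume B / 20 := by
    intro j
    have ht : Tendsto (fun r : ℝ => (j : ℝ) * r / 2) (𝓝[>] 0) (𝓝 0) := by
      have : Tendsto (fun r : ℝ => (j : ℝ) * r / 2) (𝓝 0) (𝓝 ((j : ℝ) * 0 / 2)) := by
        apply Continuous.tendsto; fun_prop
      rw [mul_zero, zero_div] at this
      exact this.mono_left nhdsWithin_le_nhds
    exact ht.eventually hev
  have hall : ∀ᶠ r in 𝓝[>] (0 : ℝ), ∀ j ∈ Finset.range 4,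
      volume ((F ((j : ℝ) * r / 2) ⁻¹' B) ∆ B) < volume B / 20 := by
    rw [Filter.eventually_all_finset]
    intro j _
    exact hev' j
  filter_upwards [hall, self_mem_nhdsWithin] with r hr hrpos
  have hr0 : 0 < r := hrpos
  set P := Pset α r with hP
  have hPm : MeasurableSet P := measurableSet_Pset α r
  -- B is covered by the translates
  have hcov : B ⊆ ⋃ j ∈ Finset.range 4, (B ∩ {l : ℝ × ℝ | l - ((j : ℝ) * r / 2, 0) ∈ P}) := by
    intro l hl
    obtain ⟨j, hj, hjx⟩ := fract_cover ((l.1 / r + l.2 * α) / 2)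
    refine mem_iUnion₂.2 ⟨j, hj, hl, ?_⟩
    show Int.fract (((l - ((j : ℝ) * r / 2, 0)).1 / r + (l - ((j : ℝ) * r / 2, 0)).2 * α) / 2) ∈
      Ico (1 / 8 : ℝ) (3 / 8)
    have : ((l - ((j : ℝ) * r / 2, 0)).1 / r + (l - ((j : ℝ) * r / 2, 0)).2 * α) / 2 =
        (l.1 / r + l.2 * α) / 2 - (j : ℝ) / 4 := by
      simp only [Prod.fst_sub, Prod.snd_sub, sub_zero]
      field_simp
      ring
    rw [this]; exact hjx
  have hone : ∀ j ∈ Finset.range 4, volume (B ∩ {l : ℝ × ℝ | l - ((j : ℝ) * r / 2, 0) ∈ P}) ≤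
      volume (B ∩ P) + volume B / 20 := by
    intro j hj
    set c : ℝ := (j : ℝ) * r / 2 with hc
    have hm : MeasurableSet (B ∩ {l : ℝ × ℝ | l - (c, 0) ∈ P}) := by
      apply hB.inter
      have : Measurable (fun l : ℝ × ℝ => l - (c, 0)) := by fun_prop
      exact this hPm
    have e1 : volume (B ∩ {l : ℝ × ℝ | l - (c, 0) ∈ P}) =
        volume (F c ⁻¹' (B ∩ {l : ℝ × ℝ | l - (c, 0) ∈ P})) :=
      ((hmp c).measure_preimage hm.nullMeasurableSet).symm
    have e2 : F c ⁻¹' (B ∩ {l : ℝ × ℝ | l - (c, 0) ∈ P}) ⊆ (B ∩ P) ∪ ((F c ⁻¹' B) ∆ B) := by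
      rintro l ⟨h1, h2⟩
      have h3 : l ∈ P := by
        have : (F c l) - ((c, 0) : ℝ × ℝ) = l := by
          show l + (c, 0) - (c, 0) = l
          simp
        rw [mem_setOf_eq, this] at h2; exact h2
      by_cases hlB : l ∈ B
      · exact Or.inl ⟨hlB, h3⟩
      · exact Or.inr (Or.inl ⟨h1, hlB⟩)
    calc volume (B ∩ {l : ℝ × ℝ | l - (c, 0) ∈ P}) ≤ volume ((B ∩ P) ∪ ((F c ⁻¹' B) ∆ B)) := by
          rw [e1]; exact measure_mono e2
      _ ≤ volume (B ∩ P) + volume ((F c ⁻¹' B) ∆ B) := measure_union_le _ _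
      _ ≤ volume (B ∩ P) + volume B / 20 := by gcongr; exact (hr j hj).le
  have hsum : volume B ≤ 4 * volume (B ∩ P) + volume B / 5 := by
    calc volume B ≤ volume (⋃ j ∈ Finset.range 4, (B ∩ {l : ℝ × ℝ | l - ((j : ℝ) * r / 2, 0) ∈ P})) :=
          measure_mono hcov
      _ ≤ ∑ j ∈ Finset.range 4, volume (B ∩ {l : ℝ × ℝ | l - ((j : ℝ) * r / 2, 0) ∈ P}) :=
          measure_biUnion_finset_le _ _
      _ ≤ ∑ _j ∈ Finset.range 4, (volume (B ∩ P) + volume B / 20) := Finset.sum_le_sum hone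
      _ = 4 * volume (B ∩ P) + volume B / 5 := by
          rw [Finset.sum_const, Finset.card_range, nsmul_eq_mul, mul_add]
          congr 1
          rw [ENNReal.div_eq_inv_mul, ENNReal.div_eq_inv_mul, ← mul_assoc]
          congr 1
          have : ((4 : ℕ) : ENNReal) = ENNReal.ofReal 4 := by simp
          rw [this]
          have h20 : (20 : ENNReal)⁻¹ = ENNReal.ofReal (1/20) := by
            rw [one_div, ENNReal.ofReal_inv_of_pos (by norm_num)]; norm_num
          have h5 : (5 : ENNReal)⁻¹ = ENNReal.ofReal (1/5) := by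
            rw [one_div, ENNReal.ofReal_inv_of_pos (by norm_num)]; norm_num
          rw [h20, h5, ← ENNReal.ofReal_mul (by norm_num)]
          norm_num
  -- conclude with real numbers
  have hBP : volume (B ∩ P) ≠ ⊤ := measure_ne_top_of_subset inter_subset_left hfin
  have hr1 : (volume B).toReal ≤ 4 * (volume (B ∩ P)).toReal + (volume B).toReal / 5 := by
    have := ENNReal.toReal_mono (by
      apply ENNReal.add_ne_top.2
      exact ⟨ENNReal.mul_ne_top (by norm_num) hBP, ENNReal.div_ne_top hfin (by norm_num)⟩) hsum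
    rw [ENNReal.toReal_add (ENNReal.mul_ne_top (by norm_num) hBP)
      (ENNReal.div_ne_top hfin (by norm_num)), ENNReal.toReal_mul, ENNReal.toReal_div] at this
    simpa using this
  have hr2 : (volume B).toReal ≤ 5 * (volume (B ∩ P)).toReal := by linarith
  rw [← ENNReal.ofReal_toReal hfin, ← ENNReal.ofReal_toReal hBP]
  have h5 : (5 : ENNReal) = ENNReal.ofReal 5 := by norm_num
  rw [h5, ← ENNReal.ofReal_mul (by norm_num)]
  exact ENNReal.ofReal_le_ofReal hr2

end Pool.Agent.Croft
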