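import Mathlib
import Pool.Agent.Croft.Defs
import Pool.Agent.Croft.PSet
import Pool.Agent.Croft.Layer

open MeasureTheory Set Filter Topology Metric

namespace Pool.Agent.Croft

theorem sqrt_bounds {A a : ℝ} (hA : 1 ≤ A) (ha : |a| ≤ A) :
    1 ≤ Real.sqrt (1 + a ^ 2) ∧ Real.sqrt (1 + a ^ 2) ≤ 2 * A := by
  constructor
  · rw [Real.le_sqrt (by norm_num) (by positivity)]
    nlinarith [sq_nonneg a]
  · rw [Real.sqrt_le_left (by linarith)]
    have : a ^ 2 ≤ A ^ 2 := by
      rw [← sq_abs a]; exact pow_le_pow_left₀ (abs_nonneg _) ha 2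
    nlinarith

/-- Facts on the layer length function. -/
theorem lay_facts {α r A : ℝ} (hα : 0 < α) (hr : 0 < r) (hA : 1 ≤ A) (hαA : α * A ≤ 1 / 16)
    (l : ℝ × ℝ) (hl : |l.2| < A) :
    0 ≤ lay α r l ∧ lay α r l ≤ 2 * A * α * r ∧ ContDiffAt ℝ 1 (lay α r) l ∧
    |fderiv ℝ (lay α r) l (1, 0)| ≤ 4 * A * α ∧ |fderiv ℝ (lay α r) l (0, 1)| ≤ 2 * α * r ∧
    (l ∈ Pset α r → α / 2 ≤ fderiv ℝ (lay α r) l (1, 0)) := by
  obtain ⟨hX, q, hqc, hq⟩ := layer_props hα hr hA hαA
  have hopen : IsOpen {l : ℝ × ℝ | |l.2| < A} := isOpen_lt (by fun_prop) continuous_const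
  obtain ⟨hX0, hX1, -, -⟩ := hX l hl.le
  obtain ⟨hs1, hs2⟩ := sqrt_bounds hA hl.le
  obtain ⟨hder, hqb, hqP⟩ := hq l hl
  -- derivative of the square root factor
  have hsq : ∀ a : ℝ, HasDerivAt (fun a : ℝ => Real.sqrt (1 + a ^ 2)) (a / Real.sqrt (1 + a ^ 2)) a := by
    intro a
    have h1 : HasDerivAt (fun a : ℝ => 1 + a ^ 2) (2 * a) a := by
      have := (hasDerivAt_pow 2 a).const_add 1
      simpa using this
    have h2 := h1.sqrt (by positivity)
    convert h2 using 1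
    field_simp
  have hX1at : ∀ l' : ℝ × ℝ, |l'.2| < A → ContDiffAt ℝ 1 (layX α r) l' := by
    intro l' hl'
    have hXc : ContinuousOn (layX α r) {l : ℝ × ℝ | |l.2| < A} := fun l'' hl'' =>
      (hq l'' hl'').1.continuousAt.continuousWithinAt
    have h1 : ContDiffOn ℝ 1 (layX α r) {l : ℝ × ℝ | |l.2| < A} := by
      rw [show (1 : WithTop ℕ∞) = 0 + 1 by norm_num]
      rw [contDiffOn_succ_iff_hasFDerivWithinAt_of_uniqueDiffOn hopen.uniqueDiffOn]
      refine ⟨by simp, fun l => (q l • ContinuousLinearMap.fst ℝ ℝ ℝ +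
        (q l * (α * r + layX α r l)) • ContinuousLinearMap.snd ℝ ℝ ℝ), ?_, ?_⟩
      · rw [contDiffOn_zero]
        apply ContinuousOn.add
        · exact hqc.smul continuousOn_const
        · exact (hqc.mul (continuousOn_const.add hXc)).smul continuousOn_const
      · intro l'' hl''
        exact (hq l'' hl'').1.hasFDerivWithinAt
    exact (h1 l' hl').contDiffAt (hopen.mem_nhds hl')
  have hlaydiff : HasFDerivAt (lay α r) (Real.sqrt (1 + l.2 ^ 2) • (q l • ContinuousLinearMap.fst ℝ ℝ ℝ +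
        (q l * (α * r + layX α r l)) • ContinuousLinearMap.snd ℝ ℝ ℝ) +
        layX α r l • ((l.2 / Real.sqrt (1 + l.2 ^ 2)) • ContinuousLinearMap.snd ℝ ℝ ℝ)) l := by
    have h1 : HasFDerivAt (fun l : ℝ × ℝ => Real.sqrt (1 + l.2 ^ 2))
        ((l.2 / Real.sqrt (1 + l.2 ^ 2)) • ContinuousLinearMap.snd ℝ ℝ ℝ) l :=
      (hsq l.2).comp_hasFDerivAt l (hasFDerivAt_snd)
    exact h1.mul hder
  have hfd := hlaydiff.fderiv
  have e10 : fderiv ℝ (lay α r) l (1, 0) = Real.sqrt (1 + l.2 ^ 2) * q l := by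
    rw [hfd]; simp
  have e01 : fderiv ℝ (lay α r) l (0, 1) = Real.sqrt (1 + l.2 ^ 2) * (q l * (α * r + layX α r l)) +
      layX α r l * (l.2 / Real.sqrt (1 + l.2 ^ 2)) := by
    rw [hfd]; simp
  have hs0 : 0 < Real.sqrt (1 + l.2 ^ 2) := by linarith
  refine ⟨?_, ?_, ?_, ?_, ?_, ?_⟩
  · exact mul_nonneg hs0.le hX0
  · calc lay α r l = Real.sqrt (1 + l.2 ^ 2) * layX α r l := rfl
      _ ≤ (2 * A) * (α * r) := mul_le_mul hs2 hX1 hX0 (by linarith)
      _ = 2 * A * α * r := by ring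
  · have h1 : ContDiffAt ℝ 1 (fun l : ℝ × ℝ => Real.sqrt (1 + l.2 ^ 2)) l := by
      apply ContDiffAt.sqrt
      · fun_prop
      · positivity
    exact h1.mul (hX1at l hl)
  · rw [e10, abs_mul, abs_of_pos hs0]
    calc Real.sqrt (1 + l.2 ^ 2) * |q l| ≤ (2 * A) * (2 * α) :=
          mul_le_mul hs2 hqb (abs_nonneg _) (by linarith)
      _ = 4 * A * α := by ring
  · rw [e01]
    have h1 : |Real.sqrt (1 + l.2 ^ 2) * (q l * (α * r + layX α r l))| ≤ (2 * A) * ((2 * α) * (2 * (α * r))) := by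
      rw [abs_mul, abs_of_pos hs0, abs_mul]
      apply mul_le_mul hs2 _ (by positivity) (by linarith)
      apply mul_le_mul hqb _ (abs_nonneg _) (by linarith)
      rw [abs_of_nonneg (by positivity)]; linarith
    have h2 : |layX α r l * (l.2 / Real.sqrt (1 + l.2 ^ 2))| ≤ α * r * 1 := by
      rw [abs_mul, abs_of_nonneg hX0]
      apply mul_le_mul hX1 _ (abs_nonneg _) (by positivity)
      rw [abs_div, abs_of_pos hs0, div_le_one hs0]
      apply Real.le_sqrt_of_sq_le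
      rw [sq_abs]; linarith
    calc _ ≤ _ := abs_add_le _ _
      _ ≤ (2 * A) * ((2 * α) * (2 * (α * r))) + α * r * 1 := add_le_add h1 h2
      _ = (8 * (α * A)) * (α * r) + α * r := by ring
      _ ≤ (8 * (1 / 16)) * (α * r) + α * r := by
          have : 0 < α * r := by positivity
          nlinarith
      _ ≤ 2 * α * r := by
          have : 0 < α * r := by positivity
          linarith
  · intro hP
    rw [e10]
    have h1 := hqP hP
    have h2 : 0 ≤ q l := by linarith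
    nlinarith

end Pool.Agent.Croft
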