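import Mathlib
import Pool.Agent.Croft.LayFacts

open MeasureTheory Set Filter Topology Metric

namespace Pool.Agent.Croft

/-- Properties of accumulated layers: `C^1` on the strip, Lipschitz in the height, and almost
constant in the slope. -/
structure WProp (A c Lw : ℝ) (w : ℝ × ℝ → ℝ) : Prop where
  smooth : ∀ l : ℝ × ℝ, |l.2| < A → ContDiffAt ℝ 1 w l
  lip1 : ∀ U1 U2 a : ℝ, |a| < A → |w (U1, a) - w (U2, a)| ≤ Lw * |U1 - U2|
  lip2 : ∀ U a1 a2 : ℝ, |a1| < A → |a2| < A → |w (U, a1) - w (U, a2)| ≤ c * |a1 - a2|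
  d2 : ∀ l : ℝ × ℝ, |l.2| < A → |fderiv ℝ w l (0, 1)| ≤ c

theorem WProp.of_bounds {A c Lw : ℝ} {w : ℝ × ℝ → ℝ}
    (hs : ∀ l : ℝ × ℝ, |l.2| < A → ContDiffAt ℝ 1 w l)
    (h1 : ∀ l : ℝ × ℝ, |l.2| < A → |fderiv ℝ w l (1, 0)| ≤ Lw)
    (h2 : ∀ l : ℝ × ℝ, |l.2| < A → |fderiv ℝ w l (0, 1)| ≤ c) : WProp A c Lw w := by
  refine ⟨hs, ?_, ?_, h2⟩
  · intro U1 U2 a ha
    have hder : ∀ s ∈ (univ : Set ℝ), HasDerivWithinAt (fun s => w (s, a))
        (fderiv ℝ w (s, a) (1, 0)) univ s := by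
      intro s _
      have h3 : HasFDerivAt w (fderiv ℝ w (s, a)) (s, a) :=
        ((hs (s, a) ha).differentiableAt (by norm_num)).hasFDerivAt
      have h4 : HasDerivAt (fun s : ℝ => (s, a)) ((1 : ℝ), (0 : ℝ)) s :=
        (hasDerivAt_id s).prodMk (hasDerivAt_const s a)
      exact (h3.comp_hasDerivAt s h4).hasDerivWithinAt
    have := convex_univ.norm_image_sub_le_of_norm_hasDerivWithin_le (C := Lw) hder
      (fun s _ => by rw [Real.norm_eq_abs]; exact h1 (s, a) ha) (mem_univ U2) (mem_univ U1)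
    simpa [Real.norm_eq_abs] using this
  · intro U a1 a2 ha1 ha2
    have hder : ∀ s ∈ Ioo (-A) A, HasDerivWithinAt (fun s => w (U, s))
        (fderiv ℝ w (U, s) (0, 1)) (Ioo (-A) A) s := by
      intro s hsA
      have hs' : |s| < A := abs_lt.2 hsA
      have h3 : HasFDerivAt w (fderiv ℝ w (U, s)) (U, s) :=
        ((hs (U, s) hs').differentiableAt (by norm_num)).hasFDerivAt
      have h4 : HasDerivAt (fun s : ℝ => (U, s)) ((0 : ℝ), (1 : ℝ)) s :=
        (hasDerivAt_const s U).prodMk (hasDerivAt_id s)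
      exact (h3.comp_hasDerivAt s h4).hasDerivWithinAt
    have := (convex_Ioo (-A) A).norm_image_sub_le_of_norm_hasDerivWithin_le (C := c) hder
      (fun s hsA => by rw [Real.norm_eq_abs]; exact h2 (U, s) (abs_lt.2 hsA))
      (abs_lt.1 ha2) (abs_lt.1 ha1)
    simpa [Real.norm_eq_abs] using this

theorem WProp.zero (A : ℝ) : WProp A 0 0 (fun _ => (0 : ℝ)) := by
  refine ⟨fun l _ => contDiffAt_const, ?_, ?_, ?_⟩
  · intro U1 U2 a _; simp
  · intro U a1 a2 _ _; simp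
  · intro l _; simp

theorem WProp.add {A c Lw c' Lw' : ℝ} {w w' : ℝ × ℝ → ℝ} (h : WProp A c Lw w)
    (h' : WProp A c' Lw' w') : WProp A (c + c') (Lw + Lw') (fun l => w l + w' l) := by
  refine ⟨fun l hl => (h.smooth l hl).add (h'.smooth l hl), ?_, ?_, ?_⟩
  · intro U1 U2 a ha
    have e : (w (U1, a) + w' (U1, a)) - (w (U2, a) + w' (U2, a)) =
        (w (U1, a) - w (U2, a)) + (w' (U1, a) - w' (U2, a)) := by ring
    rw [e, add_mul]
    exact (abs_add_le _ _).trans (add_le_add (h.lip1 _ _ _ ha) (h'.lip1 _ _ _ ha))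
  · intro U a1 a2 h1 h2
    have e : (w (U, a1) + w' (U, a1)) - (w (U, a2) + w' (U, a2)) =
        (w (U, a1) - w (U, a2)) + (w' (U, a1) - w' (U, a2)) := by ring
    rw [e, add_mul]
    exact (abs_add_le _ _).trans (add_le_add (h.lip2 _ _ _ h1 h2) (h'.lip2 _ _ _ h1 h2))
  · intro l hl
    have e : fderiv ℝ (fun l => w l + w' l) l = fderiv ℝ w l + fderiv ℝ w' l :=
      fderiv_add ((h.smooth l hl).differentiableAt (by norm_num))
        ((h'.smooth l hl).differentiableAt (by norm_num))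
    rw [e, ContinuousLinearMap.add_apply]
    exact (abs_add_le _ _).trans (add_le_add (h.d2 l hl) (h'.d2 l hl))

theorem WProp.mono {A c Lw c' Lw' : ℝ} {w : ℝ × ℝ → ℝ} (h : WProp A c Lw w) (hc : c ≤ c')
    (hL : Lw ≤ Lw') : WProp A c' Lw' w := by
  refine ⟨h.smooth, ?_, ?_, ?_⟩
  · intro U1 U2 a ha
    exact (h.lip1 U1 U2 a ha).trans (mul_le_mul_of_nonneg_right hL (abs_nonneg _))
  · intro U a1 a2 h1 h2
    exact (h.lip2 U a1 a2 h1 h2).trans (mul_le_mul_of_nonneg_right hc (abs_nonneg _))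
  · intro l hl
    exact (h.d2 l hl).trans hc

theorem WProp.lay {α r A : ℝ} (hα : 0 < α) (hr : 0 < r) (hA : 1 ≤ A) (hαA : α * A ≤ 1 / 16) :
    WProp A (2 * α * r) (4 * A * α) (lay α r) := by
  apply WProp.of_bounds
  · intro l hl; exact (lay_facts hα hr hA hαA l hl).2.2.1
  · intro l hl; exact (lay_facts hα hr hA hαA l hl).2.2.2.1
  · intro l hl; exact (lay_facts hα hr hA hαA l hl).2.2.2.2.1

end Pool.Agent.Croft
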