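import Mathlib
import Pool.Agent.Croft.WProp
import Pool.Agent.Croft.Level

open MeasureTheory Set Filter Topology Metric

namespace Pool.Agent.Croft

/-- Standing assumptions on the starting function of a phase. -/
structure Ctx (v0 : ℝ × ℝ → ℝ) (F R : Set (ℝ × ℝ)) (C : Finset (ℝ × ℝ))
    (g kp Λ0 A : ℝ) : Prop where
  F_compact : IsCompact F
  F_C1 : ∀ l ∈ F, ContDiffAt ℝ 1 v0 l
  F_A : ∀ l ∈ F, |l.2| < A
  box_A : ∀ c ∈ C, ∀ p ∈ closedBall c g, |p.2| < A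
  box_lip : ∀ c ∈ C, ∀ U1 U2 a : ℝ, (U1, a) ∈ closedBall c g → (U2, a) ∈ closedBall c g →
    |v0 (U1, a) - v0 (U2, a)| ≤ Λ0 * |U1 - U2|
  box_mono : ∀ c ∈ C, (∃ l ∈ F, l ∈ closedBall c g ∧ kp ≤ |fderiv ℝ v0 l (0, 1)|) →
    ∀ U a1 a2 : ℝ, (U, a1) ∈ closedBall c g → (U, a2) ∈ closedBall c g →
      kp / 2 * |a2 - a1| ≤ |v0 (U, a2) - v0 (U, a1)|
  F_P : ∀ l ∈ F, |fderiv ℝ v0 l (0, 1)| ≤ Λ0
  R_meas : MeasurableSet R
  R_fin : volume R ≠ ⊤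

/-- States of the walk. -/
structure St where
  w : ℝ × ℝ → ℝ
  c : ℝ
  r : ℝ
  ϱ : ℝ
  η : ℝ
  e : ℝ
  B : Set (ℝ × ℝ)
  Sv : Set (ℝ × ℝ)

/-- Invariant of the walk. -/
structure Good (v0 : ℝ × ℝ → ℝ) (F R : Set (ℝ × ℝ)) (C : Finset (ℝ × ℝ))
    (g κ kp d θ A α : ℝ) (k : ℕ) (s : St) : Prop where
  wprop : WProp A s.c (4 * A * α * k) s.w
  c0 : 0 ≤ s.c
  ce : s.c + 4 * α * s.e ≤ kp / 4
  ϱ0 : 0 < s.ϱ
  e0 : 0 < s.e
  eη : s.e ≤ s.η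
  ηϱ : s.η = κ * s.ϱ
  hit : LocalHit (fun l => v0 l + s.w l) (fun l => fderiv ℝ v0 l (0, 1)) F C g κ kp d θ s.ϱ s.η
  Bm : MeasurableSet s.B
  Sm : MeasurableSet s.Sv
  BR : s.B ⊆ R
  SR : s.Sv ⊆ R

/-- One step of the walk. -/
structure Rel (α : ℝ) (L : ℕ) (k : ℕ) (s s' : St) : Prop where
  r0 : 0 < s'.r
  re : s'.r ≤ s.e
  w : s'.w = fun l => s.w l + lay α s'.r l
  e1 : s'.e ≤ s.e / 2
  e2 : s'.e ≤ s'.r / 2
  ϱ : s'.ϱ ≤ s.ϱ / 6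
  vol : volume s.B ≤ 5 * volume (s.B ∩ Pset α s'.r)
  Sv : s'.Sv = if (k + 1) % L = 0 then s.Sv \ (s.B ∩ Pset α s'.r) else s.Sv
  B : s'.B = if (k + 1) % L = 0 then s'.Sv else s.B ∩ Pset α s'.r

/-- The level lemma for `v0 + w`. -/
theorem level_w {v0 : ℝ × ℝ → ℝ} {F R : Set (ℝ × ℝ)} {C : Finset (ℝ × ℝ)}
    {g kp Λ0 A : ℝ} (hctx : Ctx v0 F R C g kp Λ0 A) {κ d : ℝ} (hk0 : 0 < kp) (hk1 : kp ≤ 1)
    (hκ0 : 0 < κ) (hκ : κ ≤ kp / 8) (hd : 0 < d) (hΛ0 : 0 ≤ Λ0)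
    {w : ℝ × ℝ → ℝ} {c Lw : ℝ} (hw : WProp A c Lw w) (hc : c ≤ kp / 4) (hLw : 0 ≤ Lw)
    (ϱm : ℝ) (hϱm : 0 < ϱm) :
    ∃ ϱ > 0, ϱ ≤ ϱm ∧ ∀ η, η ≤ κ * ϱ →
      LocalHit (fun l => v0 l + w l) (fun l => fderiv ℝ v0 l (0, 1)) F C g κ kp d
        (2160 * (Λ0 + 1) * κ / (kp ^ 2 * d)) ϱ η := by
  have hfd : ∀ l ∈ F, fderiv ℝ (fun l => v0 l + w l) l (0, 1) =
      fderiv ℝ v0 l (0, 1) + fderiv ℝ w l (0, 1) := by
    intro l hl
    have e : fderiv ℝ (fun l => v0 l + w l) l = fderiv ℝ v0 l + fderiv ℝ w l :=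
      fderiv_add ((hctx.F_C1 l hl).differentiableAt (by norm_num))
        ((hw.smooth l (hctx.F_A l hl)).differentiableAt (by norm_num))
    rw [e, ContinuousLinearMap.add_apply]
  refine level (fun l => v0 l + w l) (fun l => fderiv ℝ v0 l (0, 1)) F hctx.F_compact C g κ kp d
    (Λ0 + 1) (Λ0 + Lw) hk0 hk1 hκ0 hκ hd (by linarith) (by linarith) ?_ ?_ ?_ ?_ ?_ ϱm hϱm
  · intro l hl
    exact (hctx.F_C1 l hl).add (hw.smooth l (hctx.F_A l hl))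
  · intro c' hc' U1 U2 a h1 h2
    have e1 := hctx.box_lip c' hc' U1 U2 a h1 h2
    have e2 := hw.lip1 U1 U2 a (hctx.box_A c' hc' _ h1)
    have e : (v0 (U1, a) + w (U1, a)) - (v0 (U2, a) + w (U2, a)) =
        (v0 (U1, a) - v0 (U2, a)) + (w (U1, a) - w (U2, a)) := by ring
    rw [e, add_mul]
    exact (abs_add_le _ _).trans (add_le_add e1 e2)
  · intro c' hc' hact U a1 a2 h1 h2
    have e1 := hctx.box_mono c' hc' hact U a1 a2 h1 h2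
    have e2 := hw.lip2 U a2 a1 (hctx.box_A c' hc' _ h2) (hctx.box_A c' hc' _ h1)
    have e3 : |v0 (U, a2) - v0 (U, a1)| - |w (U, a2) - w (U, a1)| ≤
        |(v0 (U, a2) + w (U, a2)) - (v0 (U, a1) + w (U, a1))| := by
      have e4 := abs_sub_abs_le_abs_sub (v0 (U, a2) - v0 (U, a1)) (-(w (U, a2) - w (U, a1)))
      rw [abs_neg] at e4
      have e5 : (v0 (U, a2) - v0 (U, a1)) - (-(w (U, a2) - w (U, a1))) =
          (v0 (U, a2) + w (U, a2)) - (v0 (U, a1) + w (U, a1)) := by ring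
      rwa [e5] at e4
    have e6 : c * |a2 - a1| ≤ kp / 4 * |a2 - a1| := mul_le_mul_of_nonneg_right hc (abs_nonneg _)
    linarith
  · intro l hl hP
    rw [hfd l hl]
    have e1 := hw.d2 l (hctx.F_A l hl)
    have e2 : |fderiv ℝ v0 l (0, 1)| - |fderiv ℝ w l (0, 1)| ≤
        |fderiv ℝ v0 l (0, 1) + fderiv ℝ w l (0, 1)| := by
      have e4 := abs_sub_abs_le_abs_sub (fderiv ℝ v0 l (0, 1)) (-(fderiv ℝ w l (0, 1)))
      rwa [abs_neg, sub_neg_eq_add] at e4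
    linarith
  · intro l hl
    rw [hfd l hl]
    have e1 := hw.d2 l (hctx.F_A l hl)
    have e2 := hctx.F_P l hl
    calc _ ≤ _ := abs_add_le _ _
      _ ≤ Λ0 + kp / 4 := add_le_add e2 (e1.trans hc)
      _ ≤ Λ0 + 1 := by linarith

/-- Existence of one step. -/
theorem exists_step {v0 : ℝ × ℝ → ℝ} {F R : Set (ℝ × ℝ)} {C : Finset (ℝ × ℝ)}
    {g kp Λ0 A : ℝ} (hctx : Ctx v0 F R C g kp Λ0 A) {κ d α : ℝ} (hk0 : 0 < kp) (hk1 : kp ≤ 1)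
    (hκ0 : 0 < κ) (hκ : κ ≤ kp / 8) (hd : 0 < d) (hΛ0 : 0 ≤ Λ0) (hα : 0 < α) (hA : 1 ≤ A)
    (hαA : α * A ≤ 1 / 16) (L : ℕ) (k : ℕ) (s : St)
    (hs : Good v0 F R C g κ kp d (2160 * (Λ0 + 1) * κ / (kp ^ 2 * d)) A α k s) :
    ∃ s' : St, Good v0 F R C g κ kp d (2160 * (Λ0 + 1) * κ / (kp ^ 2 * d)) A α (k + 1) s' ∧
      Rel α L k s s' := by
  classical
  -- choose the wavelength
  have hBfin : volume s.B ≠ ⊤ := measure_ne_top_of_subset hs.BR hctx.R_fin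
  have hev := pset_measure s.B hs.Bm hBfin α
  have hev2 : ∀ᶠ r in 𝓝[>] (0 : ℝ), 0 < r ∧ r ≤ s.e := by
    filter_upwards [Ioc_mem_nhdsGT hs.e0] with r hr
    exact ⟨hr.1, hr.2⟩
  obtain ⟨r, hrP, hr0, hre⟩ := (hev.and hev2).exists
  set w' : ℝ × ℝ → ℝ := fun l => s.w l + lay α r l with hw'
  set c' : ℝ := s.c + 2 * α * r with hc'
  have hwp : WProp A c' (4 * A * α * k + 4 * A * α) w' := hs.wprop.add (WProp.lay hα hr0 hA hαA)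
  have hαr : α * r ≤ α * s.e := mul_le_mul_of_nonneg_left hre hα.le
  have hαe : 0 < α * s.e := mul_pos hα hs.e0
  have hc'4 : c' ≤ kp / 4 := by
    have := hs.ce
    rw [hc']; linarith
  obtain ⟨ϱ', hϱ'0, hϱ'm, Hϱ'⟩ := level_w hctx hk0 hk1 hκ0 hκ hd hΛ0 hwp hc'4 (by positivity)
    (s.ϱ / 6) (by have := hs.ϱ0; positivity)
  set Sv' : Set (ℝ × ℝ) := if (k + 1) % L = 0 then s.Sv \ (s.B ∩ Pset α r) else s.Sv with hSv'
  set B' : Set (ℝ × ℝ) := if (k + 1) % L = 0 then Sv' else s.B ∩ Pset α r with hB'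
  have hSm' : MeasurableSet Sv' := by
    rw [hSv']; split_ifs
    · exact hs.Sm.diff (hs.Bm.inter (measurableSet_Pset α r))
    · exact hs.Sm
  have hSR' : Sv' ⊆ R := by
    rw [hSv']; split_ifs
    · exact diff_subset.trans hs.SR
    · exact hs.SR
  refine ⟨⟨w', c', r, ϱ', κ * ϱ', min (s.e / 2) (min (r / 2) (κ * ϱ')), B', Sv'⟩, ?_, ?_⟩
  · refine ⟨?_, ?_, ?_, hϱ'0, ?_, ?_, rfl, Hϱ' _ le_rfl, ?_, hSm', ?_, hSR'⟩
    · refine hwp.mono le_rfl (le_of_eq ?_)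
      push_cast; ring
    · show 0 ≤ c'
      have := hs.c0; positivity
    · show c' + 4 * α * min (s.e / 2) (min (r / 2) (κ * ϱ')) ≤ kp / 4
      have h1 : min (s.e / 2) (min (r / 2) (κ * ϱ')) ≤ s.e / 2 := min_le_left _ _
      have h2 : 4 * α * min (s.e / 2) (min (r / 2) (κ * ϱ')) ≤ 4 * α * (s.e / 2) :=
        mul_le_mul_of_nonneg_left h1 (by positivity)
      have := hs.ce
      rw [hc']; linarith
    · show 0 < min (s.e / 2) (min (r / 2) (κ * ϱ'))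
      have := hs.e0
      exact lt_min (by positivity) (lt_min (by positivity) (by positivity))
    · exact (min_le_right _ _).trans (min_le_right _ _)
    · show MeasurableSet B'
      rw [hB']; split_ifs
      · exact hSm'
      · exact hs.Bm.inter (measurableSet_Pset α r)
    · show B' ⊆ R
      rw [hB']; split_ifs
      · exact hSR'
      · exact inter_subset_left.trans hs.BR
  · refine ⟨hr0, hre, rfl, min_le_left _ _, (min_le_right _ _).trans (min_le_left _ _), hϱ'm, hrP,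
      rfl, rfl⟩

/-- The whole walk. -/
theorem exists_walk {v0 : ℝ × ℝ → ℝ} {F R : Set (ℝ × ℝ)} {C : Finset (ℝ × ℝ)}
    {g kp Λ0 A : ℝ} (hctx : Ctx v0 F R C g kp Λ0 A) {κ d α : ℝ} (hk0 : 0 < kp) (hk1 : kp ≤ 1)
    (hκ0 : 0 < κ) (hκ : κ ≤ kp / 8) (hd : 0 < d) (hΛ0 : 0 ≤ Λ0) (hα : 0 < α) (hA : 1 ≤ A)
    (hαA : α * A ≤ 1 / 16) (L : ℕ) (g0 e0 : ℝ) (hg0 : 0 < g0) (he0 : 0 < e0)
    (hαe0 : 4 * α * e0 ≤ kp / 4) :
    ∃ f : ℕ → St, (f 0).w = (fun _ => 0) ∧ (f 0).e ≤ e0 ∧ (f 0).ϱ ≤ g0 ∧ (f 0).B = R ∧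
      (f 0).Sv = R ∧
      (∀ k, Good v0 F R C g κ kp d (2160 * (Λ0 + 1) * κ / (kp ^ 2 * d)) A α k (f k)) ∧
      ∀ k, Rel α L k (f k) (f (k + 1)) := by
  classical
  obtain ⟨ϱ, hϱ0, hϱm, Hϱ⟩ := level_w hctx hk0 hk1 hκ0 hκ hd hΛ0 (WProp.zero A) (by positivity)
    le_rfl g0 hg0
  set s0 : St := ⟨fun _ => 0, 0, 1, ϱ, κ * ϱ, min e0 (κ * ϱ), R, R⟩ with hs0
  have hgood0 : Good v0 F R C g κ kp d (2160 * (Λ0 + 1) * κ / (kp ^ 2 * d)) A α 0 s0 := by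
    refine ⟨?_, le_rfl, ?_, hϱ0, lt_min he0 (by positivity), min_le_right _ _, rfl,
      Hϱ _ le_rfl, hctx.R_meas, hctx.R_meas, subset_rfl, subset_rfl⟩
    · exact (WProp.zero A).mono le_rfl (by simp)
    · show (0 : ℝ) + 4 * α * min e0 (κ * ϱ) ≤ kp / 4
      have : 4 * α * min e0 (κ * ϱ) ≤ 4 * α * e0 :=
        mul_le_mul_of_nonneg_left (min_le_left _ _) (by positivity)
      linarith
  -- build the sequence on a subtype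
  let T := Σ k : ℕ, {s : St // Good v0 F R C g κ kp d (2160 * (Λ0 + 1) * κ / (kp ^ 2 * d)) A α k s}
  have hstep : ∀ (k : ℕ) (s : {s : St // Good v0 F R C g κ kp d
      (2160 * (Λ0 + 1) * κ / (kp ^ 2 * d)) A α k s}),
      ∃ s' : {s : St // Good v0 F R C g κ kp d (2160 * (Λ0 + 1) * κ / (kp ^ 2 * d)) A α (k + 1) s},
        Rel α L k s.1 s'.1 := by
    intro k s
    obtain ⟨s', h1, h2⟩ := exists_step hctx hk0 hk1 hκ0 hκ hd hΛ0 hα hA hαA L k s.1 s.2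
    exact ⟨⟨s', h1⟩, h2⟩
  choose nxt hnxt using hstep
  let F' : ∀ k : ℕ, {s : St // Good v0 F R C g κ kp d (2160 * (Λ0 + 1) * κ / (kp ^ 2 * d)) A α k s} :=
    fun k => Nat.rec ⟨s0, hgood0⟩ (fun k s => nxt k s) k
  refine ⟨fun k => (F' k).1, rfl, min_le_left _ _, hϱm, rfl, rfl, fun k => (F' k).2, fun k => ?_⟩
  exact hnxt k (F' k)

end Pool.Agent.Croft
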