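import Mathlib
import Pool.Agent.Croft.Walk

open MeasureTheory Set Filter Topology Metric

namespace Pool.Agent.Croft

/-- Inside a block, the sets of the walk. -/
theorem block_inner {α : ℝ} {L : ℕ} {f : ℕ → St} (hrel : ∀ k, Rel α L k (f k) (f (k + 1)))
    (k0 : ℕ) (hk0 : k0 % L = 0) (hB : (f k0).B = (f k0).Sv) (j : ℕ) (hj : j < L) :
    (f (k0 + j)).Sv = (f k0).Sv ∧ (f (k0 + j)).B ⊆ (f k0).Sv ∧
    volume (f k0).Sv ≤ 5 ^ j * volume (f (k0 + j)).B ∧
    ∀ l ∈ (f (k0 + j)).B, ∀ i < j, l ∈ Pset α (f (k0 + i + 1)).r := by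
  induction j with
  | zero =>
      refine ⟨rfl, by rw [add_zero, hB], by rw [add_zero, hB]; simp, fun l _ i hi => ?_⟩
      exact absurd hi (Nat.not_lt_zero i)
  | succ j ih =>
      obtain ⟨h1, h2, h3, h4⟩ := ih (by omega)
      have hr := hrel (k0 + j)
      have hmod : (k0 + j + 1) % L ≠ 0 := by
        have : (k0 + j + 1) % L = (j + 1) % L := by
          rw [add_assoc, Nat.add_mod, hk0, zero_add, Nat.mod_mod]
        rw [this, Nat.mod_eq_of_lt hj]; omega
      have hSv := hr.Sv
      have hBB := hr.B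
      rw [if_neg hmod] at hSv hBB
      rw [show k0 + (j + 1) = k0 + j + 1 by ring]
      refine ⟨by rw [hSv, h1], ?_, ?_, ?_⟩
      · rw [hBB]; exact inter_subset_left.trans h2
      · rw [hBB]
        calc volume (f k0).Sv ≤ 5 ^ j * volume (f (k0 + j)).B := h3
          _ ≤ 5 ^ j * (5 * volume ((f (k0 + j)).B ∩ Pset α (f (k0 + j + 1)).r)) := by
              gcongr; exact hr.vol
          _ = _ := by rw [pow_succ]; ring
      · intro l hl i hi
        rw [hBB] at hl
        rcases Nat.lt_succ_iff_lt_or_eq.1 hi with h | h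
        · exact h4 l hl.1 i h
        · subst h; exact hl.2

theorem surv {v0 : ℝ × ℝ → ℝ} {F R : Set (ℝ × ℝ)} {C : Finset (ℝ × ℝ)}
    {g κ kp d θ A α : ℝ} {L : ℕ} (hL : 1 ≤ L) {f : ℕ → St}
    (hgood : ∀ k, Good v0 F R C g κ kp d θ A α k (f k))
    (hrel : ∀ k, Rel α L k (f k) (f (k + 1))) (hR : volume R ≠ ⊤)
    (hB0 : (f 0).B = R) (hS0 : (f 0).Sv = R) (m : ℕ) :
    (volume (f (m * L)).Sv).toReal ≤ (1 - 1 / 5 ^ L) ^ m * (volume R).toReal ∧
    (f (m * L)).B = (f (m * L)).Sv ∧
    ∀ l ∈ R, l ∉ (f (m * L)).Sv → ∃ i < m, ∀ j < L, l ∈ Pset α (f (i * L + j + 1)).r := by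
  induction m with
  | zero =>
      simp only [zero_mul]
      refine ⟨by rw [hS0]; simp, by rw [hB0, hS0], fun l hl hl' => ?_⟩
      rw [hS0] at hl'; exact absurd hl hl'
  | succ m ih =>
      obtain ⟨h1, h2, h3⟩ := ih
      have hmod : (m * L) % L = 0 := Nat.mul_mod_left m L
      obtain ⟨g1, g2, g3, g4⟩ := block_inner hrel (m * L) hmod h2 (L - 1) (by omega)
      have hr := hrel (m * L + (L - 1))
      have hidx : m * L + (L - 1) + 1 = (m + 1) * L := by
        rw [add_mul, one_mul]; omega
      have hmod' : (m * L + (L - 1) + 1) % L = 0 := by rw [hidx]; exact Nat.mul_mod_left _ L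
      have hSv := hr.Sv
      have hBB := hr.B
      rw [if_pos hmod'] at hSv hBB
      rw [hidx] at hSv hBB
      have hPr := hr.vol
      rw [hidx] at hPr
      set P := Pset α (f ((m + 1) * L)).r with hP
      set B := (f (m * L + (L - 1))).B with hBdef
      have hBm : MeasurableSet (B ∩ P) := (hgood _).Bm.inter (measurableSet_Pset _ _)
      have hsub : B ∩ P ⊆ (f (m * L)).Sv := inter_subset_left.trans g2
      have hSfin : volume (f (m * L)).Sv ≠ ⊤ := measure_ne_top_of_subset (hgood _).SR hR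
      have hBPfin : volume (B ∩ P) ≠ ⊤ := measure_ne_top_of_subset hsub hSfin
      have hlow : (volume (f (m * L)).Sv).toReal ≤ 5 ^ L * (volume (B ∩ P)).toReal := by
        have e : volume (f (m * L)).Sv ≤ 5 ^ L * volume (B ∩ P) := by
          calc volume (f (m * L)).Sv ≤ 5 ^ (L - 1) * volume B := g3
            _ ≤ 5 ^ (L - 1) * (5 * volume (B ∩ P)) := by gcongr
            _ = 5 ^ L * volume (B ∩ P) := by
                rw [← mul_assoc, ← pow_succ]; congr 2; omega
        have := ENNReal.toReal_mono (ENNReal.mul_ne_top (by simp) hBPfin) e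
        rw [ENNReal.toReal_mul] at this
        simpa using this
      refine ⟨?_, hBB, ?_⟩
      · rw [hSv, g1]
        rw [measure_diff hsub hBm.nullMeasurableSet hBPfin,
          ENNReal.toReal_sub_of_le (measure_mono hsub) hSfin]
        have h5 : (0 : ℝ) < 5 ^ L := by positivity
        have h6 : (volume (f (m * L)).Sv).toReal / 5 ^ L ≤ (volume (B ∩ P)).toReal := by
          rw [div_le_iff₀ h5]; linarith
        have h7 : (volume (f (m * L)).Sv).toReal - (volume (B ∩ P)).toReal ≤
            (1 - 1 / 5 ^ L) * (volume (f (m * L)).Sv).toReal := by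
          have : (1 - 1 / 5 ^ L) * (volume (f (m * L)).Sv).toReal =
            (volume (f (m * L)).Sv).toReal - (volume (f (m * L)).Sv).toReal / 5 ^ L := by ring
          rw [this]; linarith
        have h8 : (0 : ℝ) ≤ 1 - 1 / 5 ^ L := by
          have : (1 : ℝ) / 5 ^ L ≤ 1 := by
            rw [div_le_one h5]; exact one_le_pow₀ (by norm_num)
          linarith
        calc _ ≤ (1 - 1 / 5 ^ L) * (volume (f (m * L)).Sv).toReal := h7
          _ ≤ (1 - 1 / 5 ^ L) * ((1 - 1 / 5 ^ L) ^ m * (volume R).toReal) :=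
              mul_le_mul_of_nonneg_left h1 h8
          _ = _ := by rw [pow_succ]; ring
      · intro l hlR hl
        by_cases hlS : l ∈ (f (m * L)).Sv
        · rw [hSv, g1] at hl
          have hlB : l ∈ B ∩ P := by
            by_contra hcon
            exact hl ⟨hlS, hcon⟩
          refine ⟨m, Nat.lt_succ_self m, fun j hj => ?_⟩
          rcases Nat.lt_or_ge j (L - 1) with h | h
          · exact g4 l hlB.1 j h
          · have : j = L - 1 := by omega
            subst this
            rw [hidx]; exact hlB.2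
        · obtain ⟨i, hi, hij⟩ := h3 l hlR hlS
          exact ⟨i, Nat.lt_succ_of_lt hi, hij⟩

end Pool.Agent.Croft
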