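import Mathlib
import Pool.Agent.Croft.Surv

open MeasureTheory Set Filter Topology Metric

namespace Pool.Agent.Croft

variable {v0 : ℝ × ℝ → ℝ} {F R : Set (ℝ × ℝ)} {C : Finset (ℝ × ℝ)}
    {g κ kp d θ A α : ℝ} {L : ℕ} {f : ℕ → St}

theorem e_decay (hrel : ∀ k, Rel α L k (f k) (f (k + 1))) (k j : ℕ) :
    (f (k + j)).e ≤ (f k).e / 2 ^ j := by
  induction j with
  | zero => simp
  | succ j ih =>
      have h := (hrel (k + j)).e1
      calc (f (k + (j + 1))).e ≤ (f (k + j)).e / 2 := h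
        _ ≤ ((f k).e / 2 ^ j) / 2 := by linarith
        _ = (f k).e / 2 ^ (j + 1) := by rw [pow_succ]; field_simp

theorem rho_decay (hgood : ∀ k, Good v0 F R C g κ kp d θ A α k (f k))
    (hrel : ∀ k, Rel α L k (f k) (f (k + 1))) {k j : ℕ} (hkj : k < j) :
    (f j).ϱ ≤ (f k).ϱ / 6 := by
  obtain ⟨i, rfl⟩ := Nat.exists_eq_add_of_lt hkj
  induction i with
  | zero => exact (hrel k).ϱ
  | succ i ih =>
      have h := (hrel (k + i + 1)).ϱ
      have h0 := (hgood (k + i + 1)).ϱ0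
      have := ih (by omega)
      have e : k + (i + 1) + 1 = k + i + 1 + 1 := by ring
      rw [e]
      linarith

theorem rho_anti (hgood : ∀ k, Good v0 F R C g κ kp d θ A α k (f k))
    (hrel : ∀ k, Rel α L k (f k) (f (k + 1))) {k j : ℕ} (hkj : k ≤ j) :
    (f j).ϱ ≤ (f k).ϱ := by
  rcases eq_or_lt_of_le hkj with h | h
  · rw [h]
  · have := rho_decay hgood hrel h
    have := (hgood k).ϱ0
    linarith

/-- The functions of the walk are uniformly close. -/
theorem w_close (hα : 0 < α) (hA : 1 ≤ A) (hαA : α * A ≤ 1 / 16)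
    (hgood : ∀ k, Good v0 F R C g κ kp d θ A α k (f k))
    (hrel : ∀ k, Rel α L k (f k) (f (k + 1))) (k j : ℕ) (l : ℝ × ℝ) (hl : |l.2| < A) :
    0 ≤ (f (k + j)).w l - (f k).w l ∧
    (f (k + j)).w l - (f k).w l ≤ (f k).e / 4 * (1 - 1 / 2 ^ j) := by
  induction j with
  | zero => simp
  | succ j ih =>
      have hr := hrel (k + j)
      have hw : (f (k + (j + 1))).w l = (f (k + j)).w l + lay α (f (k + j + 1)).r l := by
        have := congrFun hr.w l
        exact this
      obtain ⟨h0, h1, -⟩ := lay_facts hα hr.r0 hA hαA l hl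
      have h2 : lay α (f (k + j + 1)).r l ≤ (f k).e / 2 ^ j / 8 := by
        calc lay α (f (k + j + 1)).r l ≤ 2 * A * α * (f (k + j + 1)).r := h1
          _ ≤ 2 * A * α * ((f k).e / 2 ^ j) := by
              apply mul_le_mul_of_nonneg_left (hr.re.trans (e_decay hrel k j)) (by positivity)
          _ = 2 * (α * A) * ((f k).e / 2 ^ j) := by ring
          _ ≤ 2 * (1 / 16) * ((f k).e / 2 ^ j) := by
              have := (hgood k).e0
              gcongr
          _ = (f k).e / 2 ^ j / 8 := by ring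
      have h3 : (f k).e / 4 * (1 - 1 / 2 ^ (j + 1)) = (f k).e / 4 * (1 - 1 / 2 ^ j) + (f k).e / 2 ^ j / 8 := by
        rw [pow_succ]; field_simp; ring
      rw [hw, h3]
      constructor
      · linarith [ih.1]
      · linarith [ih.2]

theorem w_close' (hα : 0 < α) (hA : 1 ≤ A) (hαA : α * A ≤ 1 / 16)
    (hgood : ∀ k, Good v0 F R C g κ kp d θ A α k (f k))
    (hrel : ∀ k, Rel α L k (f k) (f (k + 1))) {k j : ℕ} (hkj : k ≤ j) (l : ℝ × ℝ)
    (hl : |l.2| < A) : |(f j).w l - (f k).w l| ≤ (f k).e / 4 := by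
  obtain ⟨i, rfl⟩ := Nat.exists_eq_add_of_le hkj
  obtain ⟨h1, h2⟩ := w_close hα hA hαA hgood hrel k i l hl
  rw [abs_of_nonneg h1]
  refine h2.trans ?_
  have he := (hgood k).e0
  have : (1 : ℝ) - 1 / 2 ^ i ≤ 1 := by
    have : (0 : ℝ) < 1 / 2 ^ i := by positivity
    linarith
  nlinarith

theorem w_sum (hw0 : (f 0).w = fun _ => 0) (hrel : ∀ k, Rel α L k (f k) (f (k + 1))) (N : ℕ) :
    (f N).w = fun l => ∑ i ∈ Finset.range N, lay α (f (i + 1)).r l := by
  induction N with
  | zero => rw [hw0]; simp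
  | succ N ih =>
      rw [(hrel N).w, ih]
      ext l
      rw [Finset.sum_range_succ]

/-- Increments of the first partial derivative. -/
theorem w_fderiv (hα : 0 < α) (hA : 1 ≤ A) (hαA : α * A ≤ 1 / 16)
    (hgood : ∀ k, Good v0 F R C g κ kp d θ A α k (f k))
    (hrel : ∀ k, Rel α L k (f k) (f (k + 1))) (k : ℕ) (l : ℝ × ℝ) (hl : |l.2| < A) :
    fderiv ℝ (f (k + 1)).w l = fderiv ℝ (f k).w l + fderiv ℝ (lay α (f (k + 1)).r) l := by
  rw [(hrel k).w]
  exact fderiv_add (((hgood k).wprop.smooth l hl).differentiableAt (by norm_num))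
    ((lay_facts hα (hrel k).r0 hA hαA l hl).2.2.1.differentiableAt (by norm_num))

end Pool.Agent.Croft
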