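import Mathlib

open MeasureTheory Set Filter Topology Metric

namespace Pool.Agent.Croft

/-- A covering lemma: points `y` of `X` carry a height `U y` and a radius `ρ y`; if points with
close heights are close (at the rate `θ`), then `X` is small. -/
theorem vitali_cover (X : Set ℝ) (U ρ : ℝ → ℝ) (u0 g ρm θ : ℝ) (hθ : 0 ≤ θ)
    (hρ : ∀ y ∈ X, 0 < ρ y ∧ ρ y ≤ ρm) (hU : ∀ y ∈ X, U y ∈ Icc u0 (u0 + g))
    (h : ∀ y ∈ X, ∀ y' ∈ X, ρ y' ≤ 5 * ρ y → |U y' - U y| ≤ 5 * ρ y → |y' - y| ≤ θ * ρ y) :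
    volume X ≤ ENNReal.ofReal (θ * (g + 2 * ρm)) := by
  classical
  obtain ⟨u, huX, hdis, hcov⟩ := Vitali.exists_disjoint_subfamily_covering_enlargement_closedBall
    X U ρ ρm (fun y hy => (hρ y hy).2) 5 (by norm_num)
  have hucount : u.Countable := by
    apply hdis.countable_of_nonempty_interior
    intro y hy
    rw [interior_closedBall _ (hρ y (huX hy)).1.ne']
    exact nonempty_ball.2 (hρ y (huX hy)).1
  have hsub : X ⊆ ⋃ y ∈ u, closedBall y (θ * ρ y) := by
    intro y' hy'
    obtain ⟨y, hy, hyb⟩ := hcov y' hy'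
    have hpos := (hρ y' hy').1
    have h1 : U y' ∈ closedBall (U y) (5 * ρ y) := hyb (mem_closedBall_self hpos.le)
    have h2 : U y' + ρ y' ∈ closedBall (U y) (5 * ρ y) := hyb (by
      rw [mem_closedBall, Real.dist_eq]; simp [abs_of_pos hpos])
    have h3 : U y' - ρ y' ∈ closedBall (U y) (5 * ρ y) := hyb (by
      rw [mem_closedBall, Real.dist_eq]; simp [abs_of_pos hpos])
    rw [mem_closedBall, Real.dist_eq] at h1 h2 h3
    have h4 : ρ y' ≤ 5 * ρ y := by
      rw [abs_le] at h2 h3
      linarith [h2.2, h3.1]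
    refine mem_iUnion₂.2 ⟨y, hy, ?_⟩
    rw [mem_closedBall, Real.dist_eq]
    exact h y (huX hy) y' hy' h4 h1
  calc volume X ≤ volume (⋃ y ∈ u, closedBall y (θ * ρ y)) := measure_mono hsub
    _ ≤ ∑' y : u, volume (closedBall (y : ℝ) (θ * ρ y)) := measure_biUnion_le _ hucount _
    _ = ∑' y : u, ENNReal.ofReal θ * volume (closedBall (U y) (ρ y)) := by
        congr 1
        ext y
        rw [Real.volume_closedBall, Real.volume_closedBall, ← ENNReal.ofReal_mul hθ]
        congr 1
        ring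
    _ = ENNReal.ofReal θ * ∑' y : u, volume (closedBall (U y) (ρ y)) := ENNReal.tsum_mul_left
    _ = ENNReal.ofReal θ * volume (⋃ y ∈ u, closedBall (U y) (ρ y)) := by
        rw [measure_biUnion hucount hdis (fun y _ => isClosed_closedBall.measurableSet)]
    _ ≤ ENNReal.ofReal θ * volume (Icc (u0 - ρm) (u0 + g + ρm)) := by
        gcongr
        apply iUnion₂_subset
        intro y hy z hz
        rw [mem_closedBall, Real.dist_eq, abs_le] at hz
        have h1 := hU y (huX hy)
        have h2 := (hρ y (huX hy)).2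
        rw [mem_Icc] at h1 ⊢
        constructor <;> linarith [hz.1, hz.2, h1.1, h1.2]
    _ = ENNReal.ofReal (θ * (g + 2 * ρm)) := by
        rw [Real.volume_Icc, ← ENNReal.ofReal_mul hθ]
        congr 1
        ring

end Pool.Agent.Croft
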