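import Mathlib
import Pool.Agent.Croft.Seq
import Pool.Agent.Croft.VitaliCover

open MeasureTheory Set Filter Topology Metric

namespace Pool.Agent.Croft

variable {v0 : ℝ × ℝ → ℝ} {F R : Set (ℝ × ℝ)} {C : Finset (ℝ × ℝ)}
    {g κ kp d θ A α : ℝ} {L : ℕ} {f : ℕ → St}

/-- The hits produced by one box are few on every line, for every value `t`. -/
theorem hits_bound (hα : 0 < α) (hA : 1 ≤ A) (hαA : α * A ≤ 1 / 16) (hθ : 0 ≤ θ) (hκ0 : 0 < κ)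
    (hFA : ∀ l ∈ F, |l.2| < A)
    (hgood : ∀ k, Good v0 F R C g κ kp d θ A α k (f k))
    (hrel : ∀ k, Rel α L k (f k) (f (k + 1))) (N : ℕ) (t : ℝ) (L0 : ℝ × ℝ) (c : ℝ × ℝ)
    (hc : c ∈ C) :
    volume {y : ℝ | y ∈ Icc (-3 : ℝ) 3 ∧ 1 / 8 ≤ |y| ∧ ∃ k ≤ N, ∃ l' ∈ F, l' ∈ closedBall c g ∧
      kp ≤ |fderiv ℝ v0 l' (0, 1)| ∧
      |fderiv ℝ (fun l => v0 l + (f k).w l) l' (0, 1) -
        y * fderiv ℝ (fun l => v0 l + (f k).w l) l' (1, 0)| ≤ κ ∧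
      |v0 l' + (f k).w l' - t| ≤ (f k).η ∧
      l'.1 + l'.2 * y = L0.1 + L0.2 * y ∧ d ≤ |l'.2 - L0.2|} ≤
    ENNReal.ofReal (θ * (2 * g + 2 * (f 0).ϱ)) := by
  classical
  set X : Set ℝ := {y : ℝ | y ∈ Icc (-3 : ℝ) 3 ∧ 1 / 8 ≤ |y| ∧ ∃ k ≤ N, ∃ l' ∈ F,
      l' ∈ closedBall c g ∧
      kp ≤ |fderiv ℝ v0 l' (0, 1)| ∧
      |fderiv ℝ (fun l => v0 l + (f k).w l) l' (0, 1) -
        y * fderiv ℝ (fun l => v0 l + (f k).w l) l' (1, 0)| ≤ κ ∧
      |v0 l' + (f k).w l' - t| ≤ (f k).η ∧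
      l'.1 + l'.2 * y = L0.1 + L0.2 * y ∧ d ≤ |l'.2 - L0.2|} with hX
  have hsel : ∀ y : ℝ, ∃ p : ℕ × (ℝ × ℝ), y ∈ X → (y ∈ Icc (-3 : ℝ) 3 ∧ 1 / 8 ≤ |y| ∧ p.2 ∈ F ∧
      p.2 ∈ closedBall c g ∧
      kp ≤ |fderiv ℝ v0 p.2 (0, 1)| ∧
      |fderiv ℝ (fun l => v0 l + (f p.1).w l) p.2 (0, 1) -
        y * fderiv ℝ (fun l => v0 l + (f p.1).w l) p.2 (1, 0)| ≤ κ ∧
      |v0 p.2 + (f p.1).w p.2 - t| ≤ (f p.1).η ∧
      p.2.1 + p.2.2 * y = L0.1 + L0.2 * y ∧ d ≤ |p.2.2 - L0.2|) := by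
    intro y
    by_cases hy : y ∈ X
    · obtain ⟨h1, h2, k, -, l', h3, h4, h5, h6, h7, h8, h9⟩ := hy
      exact ⟨(k, l'), fun _ => ⟨h1, h2, h3, h4, h5, h6, h7, h8, h9⟩⟩
    · exact ⟨(0, 0), fun h => absurd h hy⟩
  choose p hp using hsel
  refine vitali_cover X (fun y => (p y).2.1) (fun y => (f (p y).1).ϱ) (c.1 - g) (2 * g) (f 0).ϱ θ hθ
    ?_ ?_ ?_
  · intro y hy
    exact ⟨(hgood _).ϱ0, rho_anti hgood hrel (Nat.zero_le _)⟩
  · intro y hy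
    obtain ⟨-, -, -, h4, -⟩ := hp y hy
    rw [mem_closedBall, Prod.dist_eq] at h4
    have h5 : dist (p y).2.1 c.1 ≤ g := (le_max_left _ _).trans h4
    rw [Real.dist_eq, abs_le] at h5
    constructor <;> linarith [h5.1, h5.2]
  · intro y hy y' hy' hρ hU
    obtain ⟨hy1, hy8, hF1, hb1, hk1, hD1, hv1, hi1, hd1⟩ := hp y hy
    obtain ⟨hy1', hy8', hF2, hb2, hk2, hD2, hv2, hi2, hd2⟩ := hp y' hy'
    set k := (p y).1
    set k' := (p y').1
    set l1 := (p y).2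
    set l2 := (p y').2
    have hkk : k ≤ k' := by
      by_contra hcon
      push_neg at hcon
      have h1 := rho_decay hgood hrel hcon
      have h2 := (hgood k).ϱ0
      have h3 : (f k').ϱ ≤ 5 * (f k).ϱ := hρ
      linarith
    have hηη : (f k').η ≤ (f k).η := by
      rw [(hgood k').ηϱ, (hgood k).ηϱ]
      exact mul_le_mul_of_nonneg_left (rho_anti hgood hrel hkk) hκ0.le
    have hclose := w_close' hα hA hαA hgood hrel hkk l2 (hFA l2 hF2)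
    have heη := (hgood k).eη
    have he0 := (hgood k).e0
    have hv : |(fun l => v0 l + (f k).w l) l2 - (fun l => v0 l + (f k).w l) l1| ≤ 3 * (f k).η := by
      show |(v0 l2 + (f k).w l2) - (v0 l1 + (f k).w l1)| ≤ 3 * (f k).η
      have e : (v0 l2 + (f k).w l2) - (v0 l1 + (f k).w l1) =
          ((v0 l2 + (f k').w l2 - t) - ((f k').w l2 - (f k).w l2)) - (v0 l1 + (f k).w l1 - t) := by
        ring
      rw [e]
      have e1 := abs_sub ((v0 l2 + (f k').w l2 - t) - ((f k').w l2 - (f k).w l2))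
        (v0 l1 + (f k).w l1 - t)
      have e2 := abs_sub (v0 l2 + (f k').w l2 - t) ((f k').w l2 - (f k).w l2)
      linarith
    have hy3 : |y| ≤ 3 := abs_le.2 ⟨hy1.1, hy1.2⟩
    exact (hgood k).hit c hc l1 hF1 hb1 l2 hF2 hb2 hk1 y y' hy8 hy3 hD1 L0 hi1 hi2 hd2 hv hU

/-- A line which never exits survives in the walk. -/
theorem mem_surv (hα : 0 < α) (hA : 1 ≤ A) (hαA : α * A ≤ 1 / 16) {Λ0 : ℝ}
    (hL : 1 ≤ L) (hLα : 32 * Λ0 < L * (α / 2)) (hFR : F ⊆ R) (hR : volume R ≠ ⊤)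
    (hFA : ∀ l ∈ F, |l.2| < A)
    (hgood : ∀ k, Good v0 F R C g κ kp d θ A α k (f k))
    (hrel : ∀ k, Rel α L k (f k) (f (k + 1)))
    (hB0 : (f 0).B = R) (hS0 : (f 0).Sv = R) (m : ℕ) (l : ℝ × ℝ) (hl : l ∈ F)
    (hC1 : DifferentiableAt ℝ v0 l)
    (hq : ∀ k ≤ m * L, |fderiv ℝ (fun l => v0 l + (f k).w l) l (1, 0)| ≤ 16 * Λ0) :
    l ∈ (f (m * L)).Sv := by
  by_contra hcon
  obtain ⟨i, him, hi⟩ := (surv hL hgood hrel hR hB0 hS0 m).2.2 l (hFR hl) hcon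
  have hlA := hFA l hl
  have hfd : ∀ k, fderiv ℝ (fun l => v0 l + (f k).w l) l = fderiv ℝ v0 l + fderiv ℝ (f k).w l :=
    fun k => fderiv_add hC1 (((hgood k).wprop.smooth l hlA).differentiableAt (by norm_num))
  have hgrow : ∀ j ≤ L, fderiv ℝ (f (i * L)).w l (1, 0) + j * (α / 2) ≤
      fderiv ℝ (f (i * L + j)).w l (1, 0) := by
    intro j hj
    induction j with
    | zero => simp
    | succ j ih =>
        have ih' := ih (by omega)
        have hP := hi j (by omega)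
        have h1 := w_fderiv hα hA hαA hgood hrel (i * L + j) l hlA
        have h2 := (lay_facts hα (hrel (i * L + j)).r0 hA hαA l hlA).2.2.2.2.2 hP
        rw [show i * L + (j + 1) = i * L + j + 1 by ring, h1, ContinuousLinearMap.add_apply]
        push_cast
        linarith
  have hb1 : i * L ≤ m * L := Nat.mul_le_mul_right L him.le
  have hb2 : i * L + L ≤ m * L := by
    calc i * L + L = (i + 1) * L := by ring
      _ ≤ m * L := Nat.mul_le_mul_right L him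
  have h1 := hq (i * L) hb1
  have h2 := hq (i * L + L) hb2
  have h3 := hgrow L le_rfl
  rw [hfd, ContinuousLinearMap.add_apply, abs_le] at h1 h2
  linarith [h1.1, h2.2]

end Pool.Agent.Croft
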