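import Mathlib
import Pool.Agent.Croft.Defs

/-!
Croft's question (MP_f884a2_an), module M2: the infinite recursion.

`key_of_stage` deduces the key proposition (a set `E` such that for almost every `t` there is a
plane-null set `N` met in positive length by every slanted line with section of length exactly `t`
and met in length zero by every other slanted line) from the stage lemma.
-/

open MeasureTheory Set Filter Topology

namespace Pool.Agent.Croft.KeyM

/-- The set of lines treated at stage `n`. -/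
def Rn (n : ℕ) : Set (ℝ × ℝ) :=
  {l | |l.1| ≤ n ∧ 1 / ((n : ℝ) + 1) ≤ |l.2| ∧ |l.2| ≤ n + 1}

lemma isCompact_Rn (n : ℕ) : IsCompact (Rn n) := by
  have h1 : IsCompact (Icc (-(n : ℝ)) n ×ˢ Icc (-((n : ℝ) + 1)) (n + 1)) :=
    isCompact_Icc.prod isCompact_Icc
  have h2 : IsClosed (Rn n) := by
    have e : Rn n = {l : ℝ × ℝ | |l.1| ≤ n} ∩ ({l : ℝ × ℝ | 1 / ((n : ℝ) + 1) ≤ |l.2|} ∩
        {l : ℝ × ℝ | |l.2| ≤ n + 1}) := by
      ext l; simp [Rn]
    rw [e]
    refine (isClosed_le (by fun_prop) (by fun_prop)).inter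
      ((isClosed_le (by fun_prop) (by fun_prop)).inter (isClosed_le (by fun_prop) (by fun_prop)))
  refine h1.of_isClosed_subset h2 ?_
  intro l hl
  obtain ⟨a, -, c⟩ := hl
  exact ⟨abs_le.mp a, abs_le.mp c⟩

lemma Rn_ne {n : ℕ} {l : ℝ × ℝ} (hl : l ∈ Rn n) : l.2 ≠ 0 := by
  obtain ⟨-, b, -⟩ := hl
  intro h0
  rw [h0, abs_zero] at b
  have : (0 : ℝ) < 1 / ((n : ℝ) + 1) := by positivity
  linarith

lemma Rn_mono {n m : ℕ} (h : n ≤ m) : Rn n ⊆ Rn m := by
  intro l hl
  obtain ⟨a, b, c⟩ := hl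
  have h' : (n : ℝ) ≤ m := by exact_mod_cast h
  refine ⟨a.trans h', le_trans ?_ b, by linarith⟩
  exact one_div_le_one_div_of_le (by positivity) (by linarith)

lemma exists_Rn {l : ℝ × ℝ} (hl : l.2 ≠ 0) : ∃ n, l ∈ Rn n := by
  have h0 : 0 < |l.2| := abs_pos.mpr hl
  obtain ⟨n, hn⟩ := exists_nat_ge (max |l.1| (max (1 / |l.2|) |l.2|))
  have h1 : |l.1| ≤ n := (le_max_left _ _).trans hn
  have h2 : 1 / |l.2| ≤ n := ((le_max_left _ _).trans (le_max_right _ _)).trans hn
  have h3 : |l.2| ≤ n := ((le_max_right _ _).trans (le_max_right _ _)).trans hn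
  refine ⟨n, h1, ?_, by linarith⟩
  rw [div_le_iff₀ (by positivity)]
  rw [div_le_iff₀ h0] at h2
  nlinarith

/-- The map `(x, l) ↦ (x, l.1 + l.2 x)`. -/
def pt (q : ℝ × (ℝ × ℝ)) : ℝ × ℝ := (q.1, q.2.1 + q.2.2 * q.1)

lemma continuous_pt : Continuous pt := by
  unfold pt; fun_prop

lemma measurable_secmap (l : ℝ × ℝ) : Measurable (fun x : ℝ => (x, l.1 + l.2 * x)) := by
  fun_prop

lemma measurableSet_sec {E : Set (ℝ × ℝ)} (hE : MeasurableSet E) (l : ℝ × ℝ) :
    MeasurableSet (sec E l) := measurable_secmap l hE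

lemma sec_mono {E F : Set (ℝ × ℝ)} (h : E ⊆ F) (l : ℝ × ℝ) : sec E l ⊆ sec F l :=
  fun _ hx => h hx

lemma sec_union (E F : Set (ℝ × ℝ)) (l : ℝ × ℝ) : sec (E ∪ F) l = sec E l ∪ sec F l := rfl

lemma sec_iUnion {ι : Sort*} (E : ι → Set (ℝ × ℝ)) (l : ℝ × ℝ) :
    sec (⋃ i, E i) l = ⋃ i, sec (E i) l := by
  ext x; simp [sec]

lemma sec_iInter {ι : Sort*} (E : ι → Set (ℝ × ℝ)) (l : ℝ × ℝ) :
    sec (⋂ i, E i) l = ⋂ i, sec (E i) l := by
  ext x; simp [sec]

lemma sec_fin {E : Set (ℝ × ℝ)} (h : ∀ p ∈ E, 0 ≤ p.1 ∧ p.1 ≤ 5) (l : ℝ × ℝ) :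
    volume (sec E l) < ⊤ := by
  have : sec E l ⊆ Icc 0 5 := fun x hx => h _ hx
  exact (measure_mono this).trans_lt (by simp)

lemma len_nonneg (E : Set (ℝ × ℝ)) (l : ℝ × ℝ) : 0 ≤ len E l :=
  mul_nonneg (Real.sqrt_nonneg _) ENNReal.toReal_nonneg

lemma len_mono {E F : Set (ℝ × ℝ)} (h : E ⊆ F) (hF : ∀ p ∈ F, 0 ≤ p.1 ∧ p.1 ≤ 5) (l : ℝ × ℝ) :
    len E l ≤ len F l :=
  mul_le_mul_of_nonneg_left (ENNReal.toReal_mono (sec_fin hF l).ne (measure_mono (sec_mono h l)))
    (Real.sqrt_nonneg _)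

lemma len_union_le {E F : Set (ℝ × ℝ)} (h : ∀ p ∈ E ∪ F, 0 ≤ p.1 ∧ p.1 ≤ 5) (l : ℝ × ℝ) :
    len (E ∪ F) l ≤ len E l + len F l := by
  unfold len
  rw [← mul_add]
  refine mul_le_mul_of_nonneg_left ?_ (Real.sqrt_nonneg _)
  have h1 : volume (sec E l) ≠ ⊤ := (sec_fin (fun p hp => h p (Or.inl hp)) l).ne
  have h2 : volume (sec F l) ≠ ⊤ := (sec_fin (fun p hp => h p (Or.inr hp)) l).ne
  rw [← ENNReal.toReal_add h1 h2]
  refine ENNReal.toReal_mono (ENNReal.add_ne_top.mpr ⟨h1, h2⟩) ?_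
  rw [sec_union]
  exact measure_union_le _ _

/-- Plane measure by slicing along the parallel lines of slope `a`. -/
lemma volume_le_of_slices {N : Set (ℝ × ℝ)} (hN : MeasurableSet N) (a : ℝ) (C : ℝ)
    (ε : ENNReal) (h1 : ∀ u, volume (sec N (u, a)) ≤ ε)
    (h2 : ∀ u, C < |u| → sec N (u, a) = ∅) : volume N ≤ ENNReal.ofReal (2 * C) * ε := by
  -- the shear `(u, x) ↦ (x, u + a x)` preserves measure
  have hs : MeasurePreserving (fun p : ℝ × ℝ => (p.2, p.1 + a * p.2)) := by
    have e1 : MeasurePreserving (fun p : ℝ × ℝ => (p.1, p.2 + a * p.1))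
        (volume.prod volume) (volume.prod volume) := by
      refine (MeasurePreserving.id (volume : Measure ℝ)).skew_product (g := fun x y => y + a * x)
        (by fun_prop) ?_
      refine Eventually.of_forall fun x => ?_
      exact (measurePreserving_add_right volume (a * x)).map_eq
    have e2 : MeasurePreserving (Prod.swap : ℝ × ℝ → ℝ × ℝ)
        (volume.prod volume) (volume.prod volume) := Measure.measurePreserving_swap
    exact e1.comp e2
  have e : volume N = ∫⁻ u : ℝ, volume (sec N (u, a)) := by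
    rw [← hs.measure_preimage hN.nullMeasurableSet, Measure.volume_eq_prod,
      Measure.prod_apply (hs.measurable hN)]
    rfl
  rw [e]
  calc ∫⁻ u : ℝ, volume (sec N (u, a)) ≤ ∫⁻ u : ℝ, (Icc (-C) C).indicator (fun _ => ε) u := by
        refine lintegral_mono fun u => ?_
        by_cases hu : u ∈ Icc (-C) C
        · rw [indicator_of_mem hu]; exact h1 u
        · rw [indicator_of_notMem hu, h2 u ?_]
          · simp
          · by_contra hcon
            exact hu (abs_le.mp (not_lt.mp hcon))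
    _ = ENNReal.ofReal (2 * C) * ε := by
        rw [lintegral_indicator measurableSet_Icc, lintegral_const, Measure.restrict_apply_univ,
          Real.volume_Icc, mul_comm]
        congr 2; ring

/-- The statement of the stage lemma (module M3). -/
def StageStatement : Prop :=
  ∀ (E : Set (ℝ × ℝ)) (_ : Nice E) (ϱ : ℝ) (_ : 0 < ϱ) (_ : Gap E ϱ)
    (R : Set (ℝ × ℝ)) (_ : IsCompact R) (_ : ∀ l ∈ R, l.2 ≠ 0)
    (ε τ d : ℝ) (_ : 0 < ε) (_ : 0 < τ) (_ : 0 < d),
    ∃ D : Set (ℝ × ℝ), Nice (E ∪ D) ∧ Disjoint E D ∧ MeasurableSet D ∧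
      (∃ ϱ' > 0, Gap (E ∪ D) ϱ') ∧
      (∀ p ∈ D, (0 < p.1 ∧ p.1 < min ϱ τ) ∨ (1 < p.1 ∧ p.1 < 1 + min ϱ τ)) ∧
      volume D ≤ ENNReal.ofReal τ ∧ (∀ l ∈ R, len D l ≤ τ) ∧
      ∃ η > 0, ∃ T : Set ℝ, MeasurableSet T ∧ volume T ≤ ENNReal.ofReal ε ∧
      ∃ M : ℝ → Set (ℝ × (ℝ × ℝ)), (∀ t, IsCompact (M t)) ∧
        (∀ t, ∀ q ∈ M t, q.1 ∈ Icc (-3 : ℝ) 4 ∧ q.2 ∈ R ∧ |len (E ∪ D) q.2 - t| ≤ τ) ∧
        (∀ l ∈ R, ∀ t, |len (E ∪ D) l - t| ≤ η →
          ENNReal.ofReal (1 / 20) ≤ volume {x : ℝ | (x, l) ∈ M t}) ∧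
        (∀ t, t ∉ T → ∀ l : ℝ × ℝ, volume {x : ℝ | ∃ l' : ℝ × ℝ, (x, l') ∈ M t ∧
            l'.1 + l'.2 * x = l.1 + l.2 * x ∧ d ≤ |l'.2 - l.2|} ≤ ENNReal.ofReal ε)

/-- A state of the recursion. -/
structure St where
  E : Set (ℝ × ℝ)
  ρ : ℝ
  tol : ℝ
  nice : Nice E
  hρ : 0 < ρ
  gap : Gap E ρ
  htol : 0 < tol

/-- The properties of one step of the recursion. -/
structure Step (n : ℕ) (s s' : St) (T : Set ℝ) (M : ℝ → Set (ℝ × (ℝ × ℝ))) : Prop where
  sub : s.E ⊆ s'.E
  new : ∀ p ∈ s'.E, p ∉ s.E → (0 < p.1 ∧ p.1 < s.tol) ∨ (1 < p.1 ∧ p.1 < 1 + s.tol)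
  vol : volume s'.E ≤ volume s.E + ENNReal.ofReal (s.tol / 8)
  len_le : ∀ l ∈ Rn n, len s'.E l ≤ len s.E l + s.tol / 8
  tol1 : s'.tol ≤ s.tol / 2
  tol2 : s'.tol ≤ (1 / 2) ^ n / 8
  Tm : MeasurableSet T
  Tv : volume T ≤ ENNReal.ofReal ((1 / 2) ^ n)
  Mc : ∀ t, IsCompact (M t)
  Mx : ∀ t, ∀ q ∈ M t, q.1 ∈ Icc (-3 : ℝ) 4
  Ml : ∀ l ∈ Rn n, ∀ t, |len s'.E l - t| ≤ s'.tol →
    ENNReal.ofReal (1 / 20) ≤ volume {x : ℝ | (x, l) ∈ M t}
  Ms : ∀ t, t ∉ T → ∀ l ∈ Rn n, 2 * (1 / 2) ^ n ≤ |len s.E l - t| →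
    volume (sec (pt '' M t) l) ≤ ENNReal.ofReal ((1 / 2) ^ n)
  Mv : ∀ t, t ∉ T → volume (pt '' M t) ≤ ENNReal.ofReal ((1 / 2) ^ n)

lemma exists_step (hst : StageStatement) (n : ℕ) (s : St) :
    ∃ s' T M, Step n s s' T M := by
  obtain ⟨Λ, hΛ⟩ := s.nice.lip (Rn n) (isCompact_Rn n) (fun l hl => Rn_ne hl)
  set θ : ℝ := (1 / 2) ^ n with hθ
  have hθ0 : 0 < θ := by positivity
  have hθ1 : θ ≤ 1 := pow_le_one₀ (by norm_num) (by norm_num)
  set C : ℝ := 9 * n + 17 with hC
  have hC0 : 0 ≤ C := by positivity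
  set ε : ℝ := θ / (2 * C + 1) with hε
  have hε0 : 0 < ε := by positivity
  have hεθ : ε ≤ θ := div_le_self hθ0.le (by linarith)
  have hεC : 2 * C * ε ≤ θ := by
    rw [hε, mul_div_assoc', div_le_iff₀ (by positivity)]
    nlinarith
  set τ : ℝ := min s.tol θ / 8 with hτ
  have hτ0 : 0 < τ := div_pos (lt_min s.htol hθ0) (by norm_num)
  have hτt : τ ≤ s.tol / 8 := by
    rw [hτ]; have := min_le_left s.tol θ; linarith
  have hτθ : τ ≤ θ / 8 := by
    rw [hτ]; have := min_le_right s.tol θ; linarith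
  set d : ℝ := min 1 (θ / (4 * Λ + 1)) with hd
  have hΛ0 : (0 : ℝ) ≤ Λ := Λ.2
  have hd0 : 0 < d := lt_min one_pos (by positivity)
  have hd1 : d ≤ 1 := min_le_left _ _
  have hd2 : Λ * (4 * d) < θ := by
    have h1 : d * (4 * Λ + 1) ≤ θ := by
      have := min_le_right 1 (θ / (4 * Λ + 1))
      rwa [← hd, le_div_iff₀ (by positivity)] at this
    nlinarith
  obtain ⟨D, hN, hdis, hDm, ⟨ρ', hρ', hgap'⟩, hDs, hDv, hDl, η, hη, T, hTm, hTv, M, hMc, hMq, hMl,
    hMs⟩ := hst s.E s.nice s.ρ s.hρ s.gap (Rn n) (isCompact_Rn n) (fun l hl => Rn_ne hl) ε τ d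
      hε0 hτ0 hd0
  set tol' : ℝ := min (s.tol / 2) (min η (θ / 8)) with htol'
  have htol'0 : 0 < tol' := lt_min (by have := s.htol; linarith) (lt_min hη (by positivity))
  -- closeness of lengths for lines through a common point
  have hclose : ∀ l ∈ Rn n, ∀ l' ∈ Rn n, ∀ x : ℝ, |x| ≤ 4 → l'.1 + l'.2 * x = l.1 + l.2 * x →
      |l'.2 - l.2| < d → |len s.E l' - len s.E l| < θ := by
    intro l hl l' hl' x hx he hlt
    have h1 := hΛ.dist_le_mul l' hl' l hl
    rw [Real.dist_eq] at h1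
    refine h1.trans_lt (lt_of_le_of_lt ?_ hd2)
    refine mul_le_mul_of_nonneg_left ?_ hΛ0
    rw [Prod.dist_eq, Real.dist_eq, Real.dist_eq]
    have h2 : l'.1 - l.1 = -(x * (l'.2 - l.2)) := by linarith
    refine max_le ?_ (by linarith)
    rw [h2, abs_neg, abs_mul]
    exact mul_le_mul hx hlt.le (abs_nonneg _) (by norm_num)
  refine ⟨⟨s.E ∪ D, ρ', tol', hN, hρ', hgap', htol'0⟩, T, M, ?_⟩
  have hlenD : ∀ l ∈ Rn n, len (s.E ∪ D) l ≤ len s.E l + τ := fun l hl =>
    (len_union_le hN.rng l).trans (by have := hDl l hl; linarith)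
  have hlenm : ∀ l, len s.E l ≤ len (s.E ∪ D) l := fun l => len_mono subset_union_left hN.rng l
  refine
    { sub := subset_union_left
      new := ?_
      vol := ?_
      len_le := fun l hl => (hlenD l hl).trans (by linarith)
      tol1 := min_le_left _ _
      tol2 := (min_le_right _ _).trans (min_le_right _ _)
      Tm := hTm
      Tv := hTv.trans (ENNReal.ofReal_le_ofReal hεθ)
      Mc := hMc
      Mx := fun t q hq => (hMq t q hq).1
      Ml := fun l hl t ht => hMl l hl t (ht.trans ((min_le_right _ _).trans (min_le_left _ _)))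
      Ms := ?_
      Mv := ?_ }
  · rintro p (hp | hp) hnp
    · exact absurd hp hnp
    · have h1 : min s.ρ τ ≤ s.tol := (min_le_right _ _).trans (by
        have := s.htol; linarith)
      rcases hDs p hp with ⟨a, b⟩ | ⟨a, b⟩
      · exact Or.inl ⟨a, b.trans_le h1⟩
      · exact Or.inr ⟨a, by linarith⟩
  · exact (measure_union_le _ _).trans
      (add_le_add le_rfl (hDv.trans (ENNReal.ofReal_le_ofReal hτt)))
  · intro t ht l hl hlt
    refine (measure_mono ?_).trans ((hMs t ht l).trans (ENNReal.ofReal_le_ofReal hεθ))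
    intro x hx
    obtain ⟨q, hq, hqe⟩ := hx
    obtain ⟨hq1, hq2, hq3⟩ := hMq t q hq
    have e1 : q.1 = x := congrArg Prod.fst hqe
    have e2 : q.2.1 + q.2.2 * q.1 = l.1 + l.2 * x := congrArg Prod.snd hqe
    rw [e1] at e2
    refine ⟨q.2, by rw [← e1]; exact hq, e2, ?_⟩
    by_contra hcon
    rw [not_le] at hcon
    have hx4 : |x| ≤ 4 := by
      rw [e1] at hq1
      exact abs_le.mpr ⟨by linarith [hq1.1], hq1.2⟩
    have h1 := hclose l hl q.2 hq2 x hx4 e2 hcon
    have h2 := hlenD q.2 hq2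
    have h3 := hlenm q.2
    rw [abs_lt] at h1
    rw [abs_le] at hq3
    rcases le_abs.mp hlt with h4 | h4
    · linarith
    · linarith
  · intro t ht
    have hNm : MeasurableSet (pt '' M t) := ((hMc t).image continuous_pt).isClosed.measurableSet
    have h1 := volume_le_of_slices hNm (n + 3) C (ENNReal.ofReal ε) ?_ ?_
    · refine h1.trans ?_
      rw [← ENNReal.ofReal_mul (by positivity)]
      exact ENNReal.ofReal_le_ofReal hεC
    · intro u
      refine (measure_mono ?_).trans (hMs t ht (u, n + 3))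
      intro x hx
      obtain ⟨q, hq, hqe⟩ := hx
      obtain ⟨hq1, hq2, hq3⟩ := hMq t q hq
      have e1 : q.1 = x := congrArg Prod.fst hqe
      have e2 : q.2.1 + q.2.2 * q.1 = u + (n + 3) * x := congrArg Prod.snd hqe
      rw [e1] at e2
      refine ⟨q.2, by rw [← e1]; exact hq, e2, ?_⟩
      have h5 := (abs_le.mp hq2.2.2).2
      rw [abs_sub_comm]
      refine le_trans ?_ (le_abs_self _)
      show d ≤ (n : ℝ) + 3 - q.2.2
      linarith
    · intro u hu
      rw [eq_empty_iff_forall_notMem]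
      intro x hx
      obtain ⟨q, hq, hqe⟩ := hx
      obtain ⟨hq1, hq2, hq3⟩ := hMq t q hq
      have e1 : q.1 = x := congrArg Prod.fst hqe
      have e2 : q.2.1 + q.2.2 * q.1 = u + (n + 3) * x := congrArg Prod.snd hqe
      rw [e1] at e2 hq1
      have hx4 : |x| ≤ 4 := abs_le.mpr ⟨by linarith [hq1.1], hq1.2⟩
      have hn0 : (0 : ℝ) ≤ n := Nat.cast_nonneg n
      have h6 : |q.2.2 * x| ≤ (n + 1) * 4 := by
        rw [abs_mul]
        exact mul_le_mul hq2.2.2 hx4 (abs_nonneg _) (by positivity)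
      have h7 : |((n : ℝ) + 3) * x| ≤ (n + 3) * 4 := by
        rw [abs_mul, abs_of_nonneg (by positivity)]
        exact mul_le_mul_of_nonneg_left hx4 (by positivity)
      have h8 := hq2.1
      have h9 : u = q.2.1 + q.2.2 * x - (n + 3) * x := by linarith
      have h10 : |u| ≤ |q.2.1| + |q.2.2 * x| + |((n : ℝ) + 3) * x| := by
        rw [h9]
        exact (abs_sub _ _).trans (add_le_add (abs_add_le _ _) le_rfl)
      have : |u| ≤ C := by rw [hC]; linarith
      linarith

/-- Key proposition from the stage lemma. -/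
theorem key_of_stage (hst : StageStatement) (hE0 : Nice (Ioc (4 : ℝ) 5 ×ˢ Ioc (0 : ℝ) 1)) :
    ∃ E : Set (ℝ × ℝ), MeasurableSet E ∧ 0 < volume E ∧ volume E < ⊤ ∧
    (∀ p ∈ E, 0 ≤ p.1 ∧ p.1 ≤ 5) ∧
    (∀ l : ℝ × ℝ, volume (sec E l ∩ Icc (-3) 4) ≤ ENNReal.ofReal (1 / 40)) ∧
    ∀ᵐ t : ℝ, ∃ N : Set (ℝ × ℝ), MeasurableSet N ∧ volume N = 0 ∧
      (∀ p ∈ N, -3 ≤ p.1 ∧ p.1 ≤ 4) ∧
      ∀ l : ℝ × ℝ, l.2 ≠ 0 →
        (len E l = t → ENNReal.ofReal (1 / 20) ≤ volume (sec N l)) ∧
        (len E l ≠ t → volume (sec N l) = 0) := by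
  have hgap0 : Gap (Ioc (4 : ℝ) 5 ×ˢ Ioc (0 : ℝ) 1) 1 := by
    rintro p ⟨⟨h1, -⟩, -⟩
    refine ⟨fun h => ?_, fun h => ?_⟩ <;> linarith [h.2]
  let s0 : St := ⟨Ioc (4 : ℝ) 5 ×ˢ Ioc (0 : ℝ) 1, 1, 1 / 200, hE0, one_pos, hgap0, by norm_num⟩
  choose nxt T M hstep using fun (n : ℕ) (s : St) => exists_step hst n s
  let S : ℕ → St := fun n => Nat.rec s0 (fun n s => nxt n s) n
  have hS : ∀ n, S (n + 1) = nxt n (S n) := fun n => rfl
  have hS0 : S 0 = s0 := rfl
  let T' : ℕ → Set ℝ := fun n => T n (S n)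
  let M' : ℕ → ℝ → Set (ℝ × (ℝ × ℝ)) := fun n => M n (S n)
  have hP : ∀ n, Step n (S n) (S (n + 1)) (T' n) (M' n) := fun n => hstep n (S n)
  have hmono : Monotone fun n => (S n).E := monotone_nat_of_le_succ fun n => (hP n).sub
  -- tolerances
  have htol : ∀ n, (S n).tol ≤ (1 / 200) * (1 / 2) ^ n := by
    intro n
    induction n with
    | zero => rw [hS0]; norm_num [s0]
    | succ n ih =>
      have := (hP n).tol1
      rw [pow_succ]
      linarith
  have htol' : ∀ n, (S n).tol ≤ 1 / 200 := fun n => (htol n).trans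
    (mul_le_of_le_one_right (by norm_num) (pow_le_one₀ (by norm_num) (by norm_num)))
  set E : Set (ℝ × ℝ) := ⋃ n, (S n).E with hE
  have hEm : MeasurableSet E := MeasurableSet.iUnion fun n => (S n).nice.meas
  have hErng : ∀ p ∈ E, 0 ≤ p.1 ∧ p.1 ≤ 5 := by
    intro p hp
    obtain ⟨n, hn⟩ := mem_iUnion.mp hp
    exact (S n).nice.rng p hn
  -- length of sections of the limit set
  have hbd : ∀ n, ∀ l ∈ Rn n, ∀ m, n ≤ m →
      len (S m).E l + (S m).tol / 4 ≤ len (S n).E l + (S n).tol / 4 := by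
    intro n l hl m hm
    induction m, hm using Nat.le_induction with
    | base => exact le_rfl
    | succ m hm ih =>
      have h1 := (hP m).len_le l (Rn_mono hm hl)
      have h2 := (hP m).tol1
      linarith
  have hlim : ∀ l, Tendsto (fun n => len (S n).E l) atTop (𝓝 (len E l)) := by
    intro l
    unfold len
    refine Tendsto.const_mul _ ?_
    refine (ENNReal.tendsto_toReal (sec_fin hErng l).ne).comp ?_
    have h1 : sec E l = ⋃ n, sec (S n).E l := by rw [hE, sec_iUnion]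
    rw [h1]
    exact tendsto_measure_iUnion_atTop fun i j hij => sec_mono (hmono hij) l
  have hlo : ∀ n l, len (S n).E l ≤ len E l := fun n l =>
    len_mono (subset_iUnion (fun n => (S n).E) n) hErng l
  have hup : ∀ n, ∀ l ∈ Rn n, len E l ≤ len (S n).E l + (S n).tol / 4 := by
    intro n l hl
    refine le_of_tendsto (hlim l) ?_
    filter_upwards [eventually_ge_atTop n] with m hm
    have h1 := hbd n l hl m hm
    have h2 := (S m).htol
    linarith
  -- the new points lie in the two strips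
  have hstrip : ∀ p ∈ E, p ∉ Ioc (4 : ℝ) 5 ×ˢ Ioc (0 : ℝ) 1 →
      (0 < p.1 ∧ p.1 < 1 / 200) ∨ (1 < p.1 ∧ p.1 < 1 + 1 / 200) := by
    intro p hp hp0
    obtain ⟨n, hn⟩ := mem_iUnion.mp hp
    induction n with
    | zero => exact absurd hn hp0
    | succ n ih =>
      by_cases h : p ∈ (S n).E
      · exact ih h
      · have h1 := htol' n
        rcases (hP n).new p hn h with ⟨a, b⟩ | ⟨a, b⟩
        · exact Or.inl ⟨a, b.trans_le h1⟩
        · exact Or.inr ⟨a, by linarith⟩
  have hvol : ∀ n, volume (S n).E ≤ ENNReal.ofReal (2 - (S n).tol / 4) := by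
    intro n
    induction n with
    | zero =>
      rw [hS0]
      show volume (Ioc (4 : ℝ) 5 ×ˢ Ioc (0 : ℝ) 1) ≤ ENNReal.ofReal (2 - (1 / 200) / 4)
      rw [Measure.volume_eq_prod, Measure.prod_prod, Real.volume_Ioc, Real.volume_Ioc,
        ← ENNReal.ofReal_mul (by norm_num)]
      exact ENNReal.ofReal_le_ofReal (by norm_num)
    | succ n ih =>
      refine (hP n).vol.trans ((add_le_add ih le_rfl).trans ?_)
      have h1 := htol' n
      have h2 := (S n).htol
      have h3 := (hP n).tol1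
      rw [← ENNReal.ofReal_add (by linarith) (by linarith)]
      exact ENNReal.ofReal_le_ofReal (by linarith)
  refine ⟨E, hEm, ?_, ?_, hErng, ?_, ?_⟩
  · refine lt_of_lt_of_le ?_ (measure_mono (subset_iUnion (fun n => (S n).E) 0))
    show 0 < volume (Ioc (4 : ℝ) 5 ×ˢ Ioc (0 : ℝ) 1)
    rw [Measure.volume_eq_prod, Measure.prod_prod, Real.volume_Ioc, Real.volume_Ioc,
      ← ENNReal.ofReal_mul (by norm_num)]
    exact ENNReal.ofReal_pos.mpr (by norm_num)
  · have h1 : volume E ≤ ENNReal.ofReal 2 := by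
      rw [hE, hmono.measure_iUnion]
      refine iSup_le fun n => (hvol n).trans (ENNReal.ofReal_le_ofReal ?_)
      have := (S n).htol
      linarith
    exact h1.trans_lt ENNReal.ofReal_lt_top
  · intro l
    have h1 : sec E l ∩ Icc (-3) 4 ⊆ Ioo 0 (1 / 200) ∪ Ioo 1 (1 + 1 / 200) := by
      rintro x ⟨hx, hx4⟩
      have h2 : ((x, l.1 + l.2 * x) : ℝ × ℝ) ∉ Ioc (4 : ℝ) 5 ×ˢ Ioc (0 : ℝ) 1 := by
        rintro ⟨⟨h3, -⟩, -⟩
        exact absurd h3 (not_lt.mpr hx4.2)
      exact hstrip _ hx h2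
    refine (measure_mono h1).trans ((measure_union_le _ _).trans ?_)
    rw [Real.volume_Ioo, Real.volume_Ioo, ← ENNReal.ofReal_add (by norm_num) (by norm_num)]
    exact ENNReal.ofReal_le_ofReal (by norm_num)
  · -- the exceptional set of levels
    have hsum : ∑' n : ℕ, ENNReal.ofReal ((1 / 2) ^ n) ≠ ⊤ := by
      rw [← ENNReal.ofReal_tsum_of_nonneg (fun n => by positivity)
        (summable_geometric_of_lt_one (by norm_num) (by norm_num))]
      exact ENNReal.ofReal_ne_top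
    have hT0 : volume (limsup T' atTop) = 0 :=
      measure_limsup_atTop_eq_zero
        (ne_top_of_le_ne_top hsum (ENNReal.tsum_le_tsum fun n => (hP n).Tv))
    have hT1 : ∀ᵐ t : ℝ, t ∉ limsup T' atTop := measure_eq_zero_iff_ae_notMem.mp hT0
    filter_upwards [hT1] with t ht
    have hte : ∀ᶠ n in atTop, t ∉ T' n := by
      rw [mem_limsup_iff_frequently_mem, not_frequently] at ht
      exact ht
    set Nn : ℕ → Set (ℝ × ℝ) := fun n => pt '' M' n t with hNn
    have hNm : ∀ n, MeasurableSet (Nn n) := fun n =>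
      (((hP n).Mc t).image continuous_pt).isClosed.measurableSet
    have hθ : Tendsto (fun n : ℕ => (1 / 2 : ℝ) ^ n) atTop (𝓝 0) :=
      tendsto_pow_atTop_nhds_zero_of_lt_one (by norm_num) (by norm_num)
    have hsecl : ∀ l, sec (limsup Nn atTop) l = limsup (fun n => sec (Nn n) l) atTop := by
      intro l
      rw [limsup_eq_iInf_iSup_of_nat, limsup_eq_iInf_iSup_of_nat]
      simp only [iInf_eq_iInter, iSup_eq_iUnion, sec_iInter, sec_iUnion]
    -- eventual smallness implies null limsup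
    have hBC : ∀ {X : Type} [MeasurableSpace X] (μ : Measure X) (A : ℕ → Set X),
        (∀ᶠ n in atTop, μ (A n) ≤ ENNReal.ofReal ((1 / 2) ^ n)) → μ (limsup A atTop) = 0 := by
      intro X _ μ A hA
      obtain ⟨k, hk⟩ := eventually_atTop.mp hA
      have h1 : limsup A atTop = limsup (fun n => A (n + k)) atTop := by
        rw [limsup_nat_add]
      rw [h1]
      refine measure_limsup_atTop_eq_zero (ne_top_of_le_ne_top hsum
        (ENNReal.tsum_le_tsum fun n => (hk (n + k) (Nat.le_add_left _ _)).trans ?_))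
      refine ENNReal.ofReal_le_ofReal ?_
      exact pow_le_pow_of_le_one (by norm_num) (by norm_num) (Nat.le_add_right _ _)
    refine ⟨limsup Nn atTop, MeasurableSet.measurableSet_limsup hNm, ?_, ?_, ?_⟩
    · refine hBC volume Nn ?_
      filter_upwards [hte] with n hn
      exact (hP n).Mv t hn
    · intro p hp
      rw [mem_limsup_iff_frequently_mem] at hp
      obtain ⟨n, q, hq, rfl⟩ := hp.exists
      exact (hP n).Mx t q hq
    · intro l hl
      obtain ⟨k, hk⟩ := exists_Rn hl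
      constructor
      · intro hlt
        rw [hsecl, limsup_eq_iInf_iSup_of_nat]
        simp only [iInf_eq_iInter, iSup_eq_iUnion]
        have hsub : ∀ n, sec (Nn n) l ⊆ Icc (-3) 4 := by
          intro n x hx
          obtain ⟨q, hq, hqe⟩ := hx
          have e1 : q.1 = x := congrArg Prod.fst hqe
          rw [← e1]
          exact (hP n).Mx t q hq
        have hbig : ∀ n, k ≤ n → ENNReal.ofReal (1 / 20) ≤ volume (sec (Nn n) l) := by
          intro n hn
          have hln := Rn_mono hn hk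
          refine ((hP n).Ml l hln t ?_).trans (measure_mono ?_)
          · have h1 := hup (n + 1) l (Rn_mono (Nat.le_succ n) hln)
            have h2 := hlo (n + 1) l
            have h3 := (S (n + 1)).htol
            rw [abs_le]
            constructor <;> linarith
          · intro x hx
            exact ⟨(x, l), hx, rfl⟩
        have hfin : volume (⋃ n, sec (Nn n) l) ≠ ⊤ :=
          ne_top_of_le_ne_top (by simp : volume (Icc (-3 : ℝ) 4) ≠ ⊤)
            (measure_mono (iUnion_subset hsub))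
        rw [Antitone.measure_iInter (s := fun n => ⋃ i, ⋃ (_ : i ≥ n), sec (Nn i) l)]
        · refine le_iInf fun n => ?_
          refine (hbig (max n k) (le_max_right _ _)).trans (measure_mono ?_)
          exact subset_iUnion₂_of_subset (max n k) (le_max_left _ _) subset_rfl
        · intro a b hab
          exact iUnion₂_subset fun i hi => subset_iUnion₂_of_subset i (hab.trans hi) subset_rfl
        · intro n
          exact (MeasurableSet.iUnion fun i => MeasurableSet.iUnion fun _ =>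
            measurableSet_sec (hNm i) l).nullMeasurableSet
        · refine ⟨0, ne_top_of_le_ne_top hfin (measure_mono ?_)⟩
          exact iUnion₂_subset fun i _ => subset_iUnion (fun n => sec (Nn n) l) i
      · intro hlt
        rw [hsecl]
        refine hBC volume _ ?_
        have hpos : 0 < |len E l - t| := abs_pos.mpr (sub_ne_zero.mpr hlt)
        have hev : ∀ᶠ n : ℕ in atTop, (1 / 2 : ℝ) ^ n < |len E l - t| / 4 :=
          hθ.eventually_lt_const (by positivity)
        have htl : Tendsto (fun n => (S n).tol) atTop (𝓝 0) := by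
          refine squeeze_zero (fun n => (S n).htol.le) htol ?_
          have h := hθ.const_mul (1 / 200)
          rwa [mul_zero] at h
        have hev2 : ∀ᶠ n : ℕ in atTop, (S n).tol < |len E l - t| / 4 :=
          htl.eventually_lt_const (by positivity)
        filter_upwards [hte, hev, hev2, eventually_ge_atTop k] with n h1 h2 h3 h4
        have hln := Rn_mono h4 hk
        refine (hP n).Ms t h1 l hln ?_
        have h5 := hup n l hln
        have h6 := hlo n l
        have h7 := (S n).htol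
        have h8 : |len E l - t| ≤ |len E l - len (S n).E l| + |len (S n).E l - t| :=
          abs_sub_le _ _ _
        have h9 : |len E l - len (S n).E l| ≤ (S n).tol / 4 := by
          rw [abs_le]
          constructor <;> linarith
        linarith

end Pool.Agent.Croft.KeyM
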