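import Mathlib
import Pool.Agent.Croft.Hits

open MeasureTheory Set Filter Topology Metric

namespace Pool.Agent.Croft

theorem markov (b : ℝ → ENNReal) (hb : Measurable b) (ε : ℝ) (hε : 0 < ε)
    (h : ∫⁻ t, b t ≤ ENNReal.ofReal (ε ^ 2 / 2)) :
    ∃ T : Set ℝ, MeasurableSet T ∧ volume T ≤ ENNReal.ofReal ε ∧
      ∀ t, t ∉ T → b t ≤ ENNReal.ofReal (ε / 2) := by
  refine ⟨{t | ENNReal.ofReal (ε / 2) < b t}, measurableSet_lt measurable_const hb, ?_, ?_⟩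
  · have h1 := mul_meas_ge_le_lintegral hb (ENNReal.ofReal (ε / 2)) (μ := volume)
    have h2 : volume {t | ENNReal.ofReal (ε / 2) < b t} ≤ volume {t | ENNReal.ofReal (ε / 2) ≤ b t} :=
      measure_mono (fun t (ht : _ < _) => le_of_lt (α := ENNReal) ht)
    have h3 : ENNReal.ofReal (ε / 2) * volume {t | ENNReal.ofReal (ε / 2) < b t} ≤
        ENNReal.ofReal (ε / 2) * ENNReal.ofReal ε := by
      calc _ ≤ ENNReal.ofReal (ε / 2) * volume {t | ENNReal.ofReal (ε / 2) ≤ b t} := by gcongr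
        _ ≤ _ := h1.trans h
        _ = _ := by
            rw [← ENNReal.ofReal_mul (by positivity)]; congr 1; ring
    have h4 : ENNReal.ofReal (ε / 2) ≠ 0 := by
      simpa using hε
    exact (ENNReal.mul_le_mul_iff_right h4 ENNReal.ofReal_ne_top).1 h3
  · intro t ht
    exact not_lt.1 ht

theorem isCompact_sep {X : Type*} [TopologicalSpace X] [T2Space X] {K : Set X} (hK : IsCompact K)
    {f g : X → ℝ} (hf : ContinuousOn f K) (hg : ContinuousOn g K) :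
    IsCompact {x | x ∈ K ∧ f x ≤ g x} := by
  have h1 : IsClosed (K ∩ (fun x => f x - g x) ⁻¹' Iic 0) :=
    (hf.sub hg).preimage_isClosed_of_isClosed hK.isClosed isClosed_Iic
  have h2 : {x | x ∈ K ∧ f x ≤ g x} = K ∩ (fun x => f x - g x) ⁻¹' Iic 0 := by
    ext x
    simp [sub_nonpos]
  rw [h2]
  exact hK.of_isClosed_subset h1 inter_subset_left

theorem isCompact_forall {X : Type*} [TopologicalSpace X] [T2Space X] {K : Set X}
    (hK : IsCompact K) {f : ℕ → X → ℝ} {g : X → ℝ} (hf : ∀ k, ContinuousOn (f k) K)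
    (hg : ContinuousOn g K) (N : ℕ) : IsCompact {x | x ∈ K ∧ ∀ k ≤ N, f k x ≤ g x} := by
  induction N with
  | zero =>
      have h1 := isCompact_sep hK (hf 0) hg
      have h2 : {x | x ∈ K ∧ ∀ k ≤ 0, f k x ≤ g x} = {x | x ∈ K ∧ f 0 x ≤ g x} := by
        ext x
        constructor
        · rintro ⟨h, h'⟩; exact ⟨h, h' 0 le_rfl⟩
        · rintro ⟨h, h'⟩
          refine ⟨h, fun k hk => ?_⟩
          obtain rfl : k = 0 := Nat.le_zero.1 hk
          exact h'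
      rw [h2]; exact h1
  | succ N ih =>
      have hsub : {x | x ∈ K ∧ ∀ k ≤ N, f k x ≤ g x} ⊆ K := fun x hx => hx.1
      have h1 := isCompact_sep ih ((hf (N + 1)).mono hsub) (hg.mono hsub)
      have h2 : {x | x ∈ K ∧ ∀ k ≤ N + 1, f k x ≤ g x} =
          {x | x ∈ {x | x ∈ K ∧ ∀ k ≤ N, f k x ≤ g x} ∧ f (N + 1) x ≤ g x} := by
        ext x
        constructor
        · rintro ⟨h, h'⟩
          exact ⟨⟨h, fun k hk => h' k (by omega)⟩, h' (N + 1) le_rfl⟩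
        · rintro ⟨⟨h, h'⟩, h''⟩
          refine ⟨h, fun k hk => ?_⟩
          rcases Nat.lt_or_ge k (N + 1) with hlt | hge
          · exact h' k (by omega)
          · obtain rfl : k = N + 1 := by omega
            exact h''
      rw [h2]; exact h1

variable {v0 : ℝ × ℝ → ℝ} {F R : Set (ℝ × ℝ)} {C : Finset (ℝ × ℝ)}
    {g κ kp d θ A α : ℝ} {L : ℕ} {f : ℕ → St}

theorem hits_total (hα : 0 < α) (hA : 1 ≤ A) (hαA : α * A ≤ 1 / 16) (hθ : 0 ≤ θ) (hκ0 : 0 < κ)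
    (hFA : ∀ l ∈ F, |l.2| < A)
    (hgood : ∀ k, Good v0 F R C g κ kp d θ A α k (f k))
    (hrel : ∀ k, Rel α L k (f k) (f (k + 1)))
    (hFC : ∀ l ∈ F, ∃ c ∈ C, l ∈ closedBall c g) (hg : (f 0).ϱ ≤ g)
    (N : ℕ) (t : ℝ) (L0 : ℝ × ℝ) :
    volume {y : ℝ | y ∈ Icc (-3 : ℝ) 3 ∧ 1 / 8 ≤ |y| ∧ ∃ k ≤ N, ∃ l' ∈ F,
      kp ≤ |fderiv ℝ v0 l' (0, 1)| ∧
      |fderiv ℝ (fun l => v0 l + (f k).w l) l' (0, 1) -
        y * fderiv ℝ (fun l => v0 l + (f k).w l) l' (1, 0)| ≤ κ ∧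
      |v0 l' + (f k).w l' - t| ≤ (f k).η ∧
      l'.1 + l'.2 * y = L0.1 + L0.2 * y ∧ d ≤ |l'.2 - L0.2|} ≤
    ENNReal.ofReal (C.card * (θ * (4 * g))) := by
  classical
  calc _ ≤ volume (⋃ c ∈ C, {y : ℝ | y ∈ Icc (-3 : ℝ) 3 ∧ 1 / 8 ≤ |y| ∧ ∃ k ≤ N, ∃ l' ∈ F,
      l' ∈ closedBall c g ∧
      kp ≤ |fderiv ℝ v0 l' (0, 1)| ∧
      |fderiv ℝ (fun l => v0 l + (f k).w l) l' (0, 1) -
        y * fderiv ℝ (fun l => v0 l + (f k).w l) l' (1, 0)| ≤ κ ∧
      |v0 l' + (f k).w l' - t| ≤ (f k).η ∧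
      l'.1 + l'.2 * y = L0.1 + L0.2 * y ∧ d ≤ |l'.2 - L0.2|}) := by
        apply measure_mono
        rintro y ⟨h1, h2, k, hk, l', hl', h3⟩
        obtain ⟨c, hc, hlc⟩ := hFC l' hl'
        exact mem_iUnion₂.2 ⟨c, hc, h1, h2, k, hk, l', hl', hlc, h3⟩
    _ ≤ ∑ c ∈ C, volume {y : ℝ | y ∈ Icc (-3 : ℝ) 3 ∧ 1 / 8 ≤ |y| ∧ ∃ k ≤ N, ∃ l' ∈ F,
      l' ∈ closedBall c g ∧
      kp ≤ |fderiv ℝ v0 l' (0, 1)| ∧
      |fderiv ℝ (fun l => v0 l + (f k).w l) l' (0, 1) -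
        y * fderiv ℝ (fun l => v0 l + (f k).w l) l' (1, 0)| ≤ κ ∧
      |v0 l' + (f k).w l' - t| ≤ (f k).η ∧
      l'.1 + l'.2 * y = L0.1 + L0.2 * y ∧ d ≤ |l'.2 - L0.2|} := measure_biUnion_finset_le _ _
    _ ≤ ∑ c ∈ C, ENNReal.ofReal (θ * (4 * g)) := by
        apply Finset.sum_le_sum
        intro c hc
        refine (hits_bound hα hA hαA hθ hκ0 hFA hgood hrel N t L0 c hc).trans ?_
        apply ENNReal.ofReal_le_ofReal
        apply mul_le_mul_of_nonneg_left _ hθ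
        linarith
    _ = ENNReal.ofReal (C.card * (θ * (4 * g))) := by
        rw [Finset.sum_const, nsmul_eq_mul, ENNReal.ofReal_mul (Nat.cast_nonneg C.card),
          ENNReal.ofReal_natCast]

/-- Choice of the hit tolerance. -/
theorem exists_kappa (kp A τ g d Λ0 ε : ℝ) (n : ℕ) (hkp : 0 < kp) (hA : 1 ≤ A) (hτ : 0 < τ)
    (hg : 0 < g) (hd : 0 < d) (hΛ : 0 ≤ Λ0) (hε : 0 < ε) :
    ∃ κ > 0, κ ≤ kp / 8 ∧ κ ≤ 7 * A * τ ∧
      n * (2160 * (Λ0 + 1) * κ / (kp ^ 2 * d) * (4 * g)) ≤ ε / 2 := by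
  set Q : ℝ := 2160 * (Λ0 + 1) * (4 * g) * (n + 1) with hQ
  have hQ0 : 0 < Q := by positivity
  refine ⟨min (kp / 8) (min (7 * A * τ) (ε * (kp ^ 2 * d) / (2 * Q))), ?_, min_le_left _ _,
    (min_le_right _ _).trans (min_le_left _ _), ?_⟩
  · exact lt_min (by positivity) (lt_min (by positivity) (by positivity))
  · set κ := min (kp / 8) (min (7 * A * τ) (ε * (kp ^ 2 * d) / (2 * Q))) with hκ
    have hκ1 : κ ≤ ε * (kp ^ 2 * d) / (2 * Q) := (min_le_right _ _).trans (min_le_right _ _)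
    have hκ0 : 0 < κ := lt_min (by positivity) (lt_min (by positivity) (by positivity))
    have h1 : (n : ℝ) * (2160 * (Λ0 + 1) * κ / (kp ^ 2 * d) * (4 * g)) ≤ Q * κ / (kp ^ 2 * d) := by
      have e : (n : ℝ) * (2160 * (Λ0 + 1) * κ / (kp ^ 2 * d) * (4 * g)) =
        (2160 * (Λ0 + 1) * (4 * g) * n) * κ / (kp ^ 2 * d) := by ring
      rw [e]
      apply div_le_div_of_nonneg_right _ (by positivity)
      apply mul_le_mul_of_nonneg_right _ hκ0.le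
      rw [hQ]
      apply mul_le_mul_of_nonneg_left _ (by positivity)
      linarith
    refine h1.trans ?_
    rw [div_le_iff₀ (by positivity)]
    rw [le_div_iff₀ (by positivity)] at hκ1
    linarith

end Pool.Agent.Croft
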