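import Mathlib
import Pool.Agent.Croft.Walk

open MeasureTheory Set Filter Topology Metric

namespace Pool.Agent.Croft

theorem setup (v0 : ℝ × ℝ → ℝ) (R : Set (ℝ × ℝ)) (hR : IsCompact R) (β A : ℝ) (hβ : 0 < β)
    (hRA : ∀ l ∈ Metric.cthickening β R, |l.2| < A) (Λ : NNReal)
    (hlip : LipschitzOnWith Λ v0 (Metric.cthickening β R)) (S : Set (ℝ × ℝ)) (hS : IsClosed S)
    (hS0 : volume S = 0) (hC1 : ∀ l ∈ Metric.cthickening β R, l ∉ S → ContDiffAt ℝ 1 v0 l)
    (kp δ : ℝ) (hkp : 0 < kp) (hδ : 0 < δ) :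
    ∃ (F K : Set (ℝ × ℝ)) (C : Finset (ℝ × ℝ)) (g : ℝ), 0 < g ∧ IsCompact F ∧ IsCompact K ∧
      R ⊆ F ∪ K ∧ F ⊆ R ∧ K ⊆ R ∧ volume K ≤ ENNReal.ofReal δ ∧ (∀ l ∈ F, l ∉ S) ∧
      (∀ l ∈ F, ∃ c ∈ C, l ∈ closedBall c g) ∧ Ctx v0 F R C g kp (Λ + 1) A ∧
      (∀ l ∈ F, |fderiv ℝ v0 l (1, 0)| ≤ Λ + 1) := by
  classical
  set Rp := cthickening β R with hRp
  have hRpc : IsCompact Rp := hR.cthickening
  set S' := S ∩ Rp with hS'
  have hS'c : IsCompact S' := hRpc.inter_left hS
  have hS'0 : volume S' = 0 := measure_mono_null inter_subset_left hS0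
  -- choose ρ0
  have htend : Tendsto (fun s => volume (cthickening s S')) (𝓝 0) (𝓝 (volume S')) :=
    tendsto_measure_cthickening_of_isCompact hS'c
  rw [hS'0] at htend
  have hev : ∀ᶠ s in 𝓝 (0 : ℝ), volume (cthickening s S') < ENNReal.ofReal δ :=
    htend.eventually (gt_mem_nhds (by simpa using hδ))
  obtain ⟨s0, hs0, Hs0⟩ := Metric.eventually_nhds_iff_ball.1 hev
  set ρ0 := min (s0 / 2) β with hρ0
  have hρ0pos : 0 < ρ0 := lt_min (by linarith) hβ
  set F := R \ thickening ρ0 S' with hF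
  set K := R ∩ cthickening ρ0 S' with hK
  have hFc : IsCompact F := hR.diff isOpen_thickening
  have hKc : IsCompact K := hR.inter_right isClosed_cthickening
  have hKvol : volume K ≤ ENNReal.ofReal δ := by
    refine le_trans (measure_mono inter_subset_right) (le_of_lt (Hs0 _ ?_))
    rw [mem_ball, Real.dist_eq, sub_zero, abs_of_pos hρ0pos]
    have := min_le_left (s0 / 2) β
    linarith
  have hRFK : R ⊆ F ∪ K := by
    intro l hl
    by_cases h : l ∈ thickening ρ0 S'
    · exact Or.inr ⟨hl, thickening_subset_cthickening _ _ h⟩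
    · exact Or.inl ⟨hl, h⟩
  have hRRp : R ⊆ Rp := self_subset_cthickening R
  -- points near F are in Rp \ S
  have hnear : ∀ l ∈ F, ∀ l' : ℝ × ℝ, dist l' l < ρ0 → l' ∈ Rp ∧ l' ∉ S := by
    intro l hl l' hd
    have h1 : l' ∈ Rp := mem_cthickening_of_dist_le l' l β R hl.1
      (hd.le.trans (min_le_right _ _))
    refine ⟨h1, fun hS'' => hl.2 ?_⟩
    rw [mem_thickening_iff]
    exact ⟨l', ⟨hS'', h1⟩, by rw [dist_comm]; exact hd⟩
  have hFS : ∀ l ∈ F, l ∉ S := fun l hl => (hnear l hl l (by rw [dist_self]; exact hρ0pos)).2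
  have hFC1 : ∀ l ∈ F, ContDiffAt ℝ 1 v0 l := fun l hl => hC1 l (hRRp hl.1) (hFS l hl)
  -- uniform continuity of P0
  set F1 := cthickening (ρ0 / 2) F with hF1
  have hF1c : IsCompact F1 := hFc.cthickening
  have hF1near : ∀ l ∈ F1, l ∈ Rp ∧ l ∉ S := by
    intro l hl
    rw [hF1, hFc.cthickening_eq_biUnion_closedBall (by positivity)] at hl
    obtain ⟨l', hl', hd⟩ := mem_iUnion₂.1 hl
    rw [mem_closedBall] at hd
    exact hnear l' hl' l (by linarith)
  have hPcont : ContinuousOn (fun l => fderiv ℝ v0 l (0, 1)) F1 := by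
    intro l hl
    exact (continuousAt_fderiv_apply (hC1 l (hF1near l hl).1 (hF1near l hl).2) (0, 1)).continuousWithinAt
  have huc : UniformContinuousOn (fun l => fderiv ℝ v0 l (0, 1)) F1 :=
    hF1c.uniformContinuousOn_of_continuous hPcont
  rw [Metric.uniformContinuousOn_iff] at huc
  obtain ⟨g1, hg1, Hg1⟩ := huc (kp / 2) (by positivity)
  set g := min (ρ0 / 4) (g1 / 3) with hg
  have hgpos : 0 < g := lt_min (by positivity) (by positivity)
  have hg4 : g ≤ ρ0 / 4 := min_le_left _ _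
  have hg3 : g ≤ g1 / 3 := min_le_right _ _
  -- cover
  obtain ⟨C, hCF, hCcov⟩ := hFc.elim_nhds_subcover (fun c => closedBall c g)
    (fun c _ => closedBall_mem_nhds c hgpos)
  have hbox : ∀ c ∈ C, ∀ p ∈ closedBall c g, p ∈ F1 ∧ p ∈ Rp ∧ p ∉ S := by
    intro c hc p hp
    rw [mem_closedBall] at hp
    have h1 : p ∈ F1 := mem_cthickening_of_dist_le p c (ρ0 / 2) F (hCF c hc) (by linarith)
    exact ⟨h1, hF1near p h1⟩
  have hnorm01 : ‖((0 : ℝ), (1 : ℝ))‖ = 1 := by simp [Prod.norm_def]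
  have hnorm10 : ‖((1 : ℝ), (0 : ℝ))‖ = 1 := by simp [Prod.norm_def]
  have hfdb : ∀ l ∈ F, ‖fderiv ℝ v0 l‖ ≤ Λ := by
    intro l hl
    have hnb : Rp ∈ 𝓝 l := by
      apply mem_of_superset (closedBall_mem_nhds l hβ)
      exact closedBall_subset_cthickening hl.1 β
    exact norm_fderiv_le_of_lipschitzOn ℝ hnb hlip
  have hfd01 : ∀ l ∈ F, |fderiv ℝ v0 l (0, 1)| ≤ Λ + 1 := by
    intro l hl
    have h1 := (fderiv ℝ v0 l).le_opNorm (0, 1)
    rw [hnorm01, mul_one, Real.norm_eq_abs] at h1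
    linarith [hfdb l hl]
  have hfd10 : ∀ l ∈ F, |fderiv ℝ v0 l (1, 0)| ≤ Λ + 1 := by
    intro l hl
    have h1 := (fderiv ℝ v0 l).le_opNorm (1, 0)
    rw [hnorm10, mul_one, Real.norm_eq_abs] at h1
    linarith [hfdb l hl]
  refine ⟨F, K, C, g, hgpos, hFc, hKc, hRFK, diff_subset, inter_subset_left, hKvol, hFS, ?_, ?_,
    hfd10⟩
  · intro l hl
    obtain ⟨c, hc, hlc⟩ := mem_iUnion₂.1 (hCcov hl)
    exact ⟨c, hc, hlc⟩
  · refine ⟨hFc, hFC1, fun l hl => hRA l (hRRp hl.1), fun c hc p hp => hRA p (hbox c hc p hp).2.1,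
      ?_, ?_, hfd01, hR.isClosed.measurableSet, hR.measure_ne_top⟩
    · intro c hc U1 U2 a h1 h2
      have h3 := hlip.dist_le_mul _ (hbox c hc _ h1).2.1 _ (hbox c hc _ h2).2.1
      rw [Real.dist_eq, Prod.dist_eq, dist_self, Real.dist_eq, max_eq_left (abs_nonneg _)] at h3
      have h4 : (Λ : ℝ) * |U1 - U2| ≤ (Λ + 1) * |U1 - U2| :=
        mul_le_mul_of_nonneg_right (by linarith) (abs_nonneg _)
      linarith
    · rintro c hc ⟨l1, hl1, hl1c, hP1⟩ U a1 a2 h1 h2
      have hC1box : ∀ l ∈ closedBall c g, ContDiffAt ℝ 1 v0 l := fun l hl =>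
        hC1 l (hbox c hc l hl).2.1 (hbox c hc l hl).2.2
      have hPn : ∀ l ∈ closedBall c g, |fderiv ℝ v0 l (0, 1) - fderiv ℝ v0 l1 (0, 1)| < kp / 2 := by
        intro l hl
        have h3 := Hg1 l (hbox c hc l hl).1 l1 (hbox c hc l1 hl1c).1 (by
          rw [mem_closedBall] at hl hl1c
          calc dist l l1 ≤ dist l c + dist c l1 := dist_triangle _ _ _
            _ = dist l c + dist l1 c := by rw [dist_comm c l1]
            _ ≤ g + g := add_le_add hl hl1c
            _ < g1 := by linarith)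
        rwa [Real.dist_eq] at h3
      have hconv : Convex ℝ (closedBall c g) := convex_closedBall c g
      -- wlog a1 ≤ a2
      rcases le_or_gt 0 (fderiv ℝ v0 l1 (0, 1)) with hs | hs
      · rw [abs_of_nonneg hs] at hP1
        have hlow : ∀ l ∈ closedBall c g, kp / 2 ≤ fderiv ℝ v0 l (0, 1) := by
          intro l hl
          have := (abs_lt.1 (hPn l hl)).1
          linarith
        rcases le_total a1 a2 with ha | ha
        · have h5 := mono_snd hconv hC1box (kp / 2) hlow U a1 a2 h1 h2 ha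
          rw [abs_of_nonneg (by linarith : 0 ≤ a2 - a1)]
          exact h5.trans (le_abs_self _)
        · have h5 := mono_snd hconv hC1box (kp / 2) hlow U a2 a1 h2 h1 ha
          rw [abs_sub_comm a2 a1, abs_sub_comm (v0 (U, a2)), abs_of_nonneg (by linarith : 0 ≤ a1 - a2)]
          exact h5.trans (le_abs_self _)
      · rw [abs_of_neg hs] at hP1
        have hC1box' : ∀ l ∈ closedBall c g, ContDiffAt ℝ 1 (fun l => -v0 l) l := fun l hl =>
          (hC1box l hl).neg
        have hlow : ∀ l ∈ closedBall c g, kp / 2 ≤ fderiv ℝ (fun l => -v0 l) l (0, 1) := by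
          intro l hl
          have e : fderiv ℝ (fun l => -v0 l) l = -fderiv ℝ v0 l := fderiv_neg
          rw [e, ContinuousLinearMap.neg_apply]
          have := (abs_lt.1 (hPn l hl)).2
          linarith
        rcases le_total a1 a2 with ha | ha
        · have h5 := mono_snd hconv hC1box' (kp / 2) hlow U a1 a2 h1 h2 ha
          rw [abs_of_nonneg (by linarith : 0 ≤ a2 - a1), abs_sub_comm (v0 (U, a2))]
          refine h5.trans (le_trans (le_of_eq ?_) (le_abs_self _))
          ring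
        · have h5 := mono_snd hconv hC1box' (kp / 2) hlow U a2 a1 h2 h1 ha
          rw [abs_sub_comm a2 a1, abs_of_nonneg (by linarith : 0 ≤ a1 - a2)]
          refine h5.trans (le_trans (le_of_eq ?_) (le_abs_self _))
          ring

end Pool.Agent.Croft
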