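import Mathlib

open MeasureTheory Set Filter Topology

namespace Pool.Agent.Croft

/-- Sweep lemma: the abscissae at which a line `l` meets, transversally, the lines of a set `B`
are few, in terms of the area of a thick neighbourhood `G` of `B`. -/
theorem sweep (B G : Set (ℝ × ℝ)) (hG : MeasurableSet G) (h d : ℝ) (hh : 0 < h) (hd : 2 * h ≤ d)
    (hBG : ∀ l' ∈ B, ∀ l'' : ℝ × ℝ, dist l'' l' ≤ 4 * h → l'' ∈ G) (l : ℝ × ℝ) :
    volume {y : ℝ | y ∈ Icc (-3 : ℝ) 3 ∧ ∃ l' ∈ B, l'.1 + l'.2 * y = l.1 + l.2 * y ∧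
      d ≤ |l'.2 - l.2|} ≤ ENNReal.ofReal (1 / (h * d)) * volume G := by
  classical
  have hd0 : 0 < d := by linarith
  -- the parametrised set
  set Z : Set (ℝ × ℝ) := {p : ℝ × ℝ | (l.1 + (l.2 - p.2) * p.1, p.2) ∈ G ∧ d / 2 ≤ |p.2 - l.2|}
    with hZ
  have hZm : MeasurableSet Z := by
    have h1 : Measurable (fun p : ℝ × ℝ => ((l.1 + (l.2 - p.2) * p.1, p.2) : ℝ × ℝ)) := by
      fun_prop
    have h2 : MeasurableSet {p : ℝ × ℝ | d / 2 ≤ |p.2 - l.2|} := by
      apply measurableSet_le measurable_const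
      fun_prop
    exact (h1 hG).inter h2
  set g : ℝ → ENNReal := fun y => volume (Prod.mk y ⁻¹' Z) with hg
  have hgm : Measurable g := measurable_measure_prodMk_left hZm
  -- lower bound
  have hlow : ∀ y : ℝ, (y ∈ Icc (-3 : ℝ) 3 ∧ ∃ l' ∈ B, l'.1 + l'.2 * y = l.1 + l.2 * y ∧
      d ≤ |l'.2 - l.2|) → ENNReal.ofReal (2 * h) ≤ g y := by
    rintro y ⟨hy, l', hl', hinc, hdl⟩
    have hsub : Icc (l'.2 - h) (l'.2 + h) ⊆ Prod.mk y ⁻¹' Z := by
      intro a'' ha
      rw [mem_Icc] at ha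
      have hab : |a'' - l'.2| ≤ h := by rw [abs_le]; constructor <;> linarith [ha.1, ha.2]
      refine ⟨?_, ?_⟩
      · apply hBG l' hl'
        have hy3 : |y| ≤ 3 := abs_le.2 ⟨hy.1, hy.2⟩
        have e1 : l.1 + (l.2 - a'') * y - l'.1 = (l'.2 - a'') * y := by linarith
        rw [Prod.dist_eq]
        apply max_le
        · show dist (l.1 + (l.2 - a'') * y) l'.1 ≤ 4 * h
          rw [Real.dist_eq, e1, abs_mul, abs_sub_comm]
          calc |a'' - l'.2| * |y| ≤ h * 3 := mul_le_mul hab hy3 (abs_nonneg _) hh.le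
            _ ≤ 4 * h := by linarith
        · show dist a'' l'.2 ≤ 4 * h
          rw [Real.dist_eq]; linarith
      · show d / 2 ≤ |a'' - l.2|
        have : |l'.2 - l.2| ≤ |a'' - l.2| + |a'' - l'.2| := by
          have h5 : l'.2 - l.2 = (a'' - l.2) - (a'' - l'.2) := by ring
          rw [h5]; exact abs_sub _ _
        linarith
    calc ENNReal.ofReal (2 * h) = volume (Icc (l'.2 - h) (l'.2 + h)) := by
          rw [Real.volume_Icc]; congr 1; ring
      _ ≤ g y := measure_mono hsub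
  -- upper bound of the integral
  have hint : ∫⁻ y, g y ≤ ENNReal.ofReal (2 / d) * volume G := by
    have e1 : ∫⁻ y, g y = (volume : Measure (ℝ × ℝ)) Z := by
      rw [Measure.volume_eq_prod, Measure.prod_apply hZm]
    have e2 : (volume : Measure (ℝ × ℝ)) Z = ∫⁻ a, volume ((fun y => (y, a)) ⁻¹' Z) := by
      rw [Measure.volume_eq_prod, Measure.prod_apply_symm hZm]
    have e3 : (volume : Measure (ℝ × ℝ)) G = ∫⁻ a, volume ((fun u => (u, a)) ⁻¹' G) := by
      rw [Measure.volume_eq_prod, Measure.prod_apply_symm hG]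
    rw [e1, e2, e3, ← lintegral_const_mul _ (measurable_measure_prodMk_right hG)]
    apply lintegral_mono
    intro a
    by_cases hc : d / 2 ≤ |a - l.2|
    · have hne : l.2 - a ≠ 0 := by
        intro h0
        rw [abs_sub_comm, h0, abs_zero] at hc
        linarith
      have hsub : (fun y => (y, a)) ⁻¹' Z ⊆
          (fun y => (l.2 - a) * y) ⁻¹' ((fun z => l.1 + z) ⁻¹' ((fun u => (u, a)) ⁻¹' G)) := by
        intro y hy
        exact hy.1
      calc volume ((fun y => (y, a)) ⁻¹' Z)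
          ≤ volume ((fun y => (l.2 - a) * y) ⁻¹'
              ((fun z => l.1 + z) ⁻¹' ((fun u => (u, a)) ⁻¹' G))) := measure_mono hsub
        _ = ENNReal.ofReal |(l.2 - a)⁻¹| *
              volume ((fun z => l.1 + z) ⁻¹' ((fun u => (u, a)) ⁻¹' G)) :=
            Real.volume_preimage_mul_left hne _
        _ = ENNReal.ofReal |(l.2 - a)⁻¹| * volume ((fun u => (u, a)) ⁻¹' G) := by
            rw [measure_preimage_add]
        _ ≤ ENNReal.ofReal (2 / d) * volume ((fun u => (u, a)) ⁻¹' G) := by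
            gcongr
            rw [abs_inv, inv_eq_one_div, div_le_div_iff₀ (abs_pos.2 hne) hd0, one_mul]
            rw [abs_sub_comm]; linarith
    · have hemp : (fun y => (y, a)) ⁻¹' Z = ∅ := by
        ext y
        simp only [mem_preimage, mem_empty_iff_false, iff_false]
        intro hy
        exact hc hy.2
      show volume ((fun y => (y, a)) ⁻¹' Z) ≤ _
      rw [hemp, measure_empty]
      exact zero_le
  -- Markov
  have hsubX : {y : ℝ | y ∈ Icc (-3 : ℝ) 3 ∧ ∃ l' ∈ B, l'.1 + l'.2 * y = l.1 + l.2 * y ∧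
      d ≤ |l'.2 - l.2|} ⊆ {y | ENNReal.ofReal (2 * h) ≤ g y} := fun y hy => hlow y hy
  have hmk : ENNReal.ofReal (2 * h) * volume {y | ENNReal.ofReal (2 * h) ≤ g y} ≤ ∫⁻ y, g y :=
    mul_meas_ge_le_lintegral hgm _
  have h2h : ENNReal.ofReal (2 * h) ≠ 0 := by
    rw [Ne, ENNReal.ofReal_eq_zero]; push_neg; linarith
  have h2h' : ENNReal.ofReal (2 * h) ≠ ⊤ := ENNReal.ofReal_ne_top
  calc volume _ ≤ volume {y | ENNReal.ofReal (2 * h) ≤ g y} := measure_mono hsubX
    _ ≤ (∫⁻ y, g y) / ENNReal.ofReal (2 * h) := by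
        rw [ENNReal.le_div_iff_mul_le (Or.inl h2h) (Or.inl h2h'), mul_comm]
        exact hmk
    _ ≤ (ENNReal.ofReal (2 / d) * volume G) / ENNReal.ofReal (2 * h) := by gcongr
    _ = ENNReal.ofReal (1 / (h * d)) * volume G := by
        rw [div_eq_mul_inv, mul_right_comm, ← div_eq_mul_inv, ← ENNReal.ofReal_div_of_pos (by linarith)]
        congr 2
        field_simp

end Pool.Agent.Croft
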