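import Mathlib
import Pool.Agent.Croft.Sweep

open MeasureTheory Set Filter Topology Metric

namespace Pool.Agent.Croft

/-- Marks carried by a compact set `B` of lines near which `v` is `Λ`-Lipschitz are rare on every
line, for most values `t`. -/
theorem soft_bound (v : ℝ × ℝ → ℝ) (B : Set (ℝ × ℝ)) (hB : IsCompact B) (Λ ϱ d δ : ℝ)
    (hΛ : 0 < Λ) (hϱ : 0 < ϱ) (hd : 0 < d) (hδ : 0 < δ)
    (hcont : ContinuousOn v (cthickening ϱ B))
    (hlip : ∀ l' ∈ B, ∀ l'' : ℝ × ℝ, dist l'' l' ≤ ϱ → |v l'' - v l'| ≤ Λ * dist l'' l') :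
    ∃ η0 > 0, ∀ η, 0 < η → η ≤ η0 → ∃ b : ℝ → ENNReal, Measurable b ∧
      ∫⁻ t, b t ≤ ENNReal.ofReal (16 * Λ / d) * (volume B + ENNReal.ofReal δ) ∧
      ∀ (t : ℝ) (l : ℝ × ℝ), volume {y : ℝ | y ∈ Icc (-3 : ℝ) 3 ∧ ∃ l' ∈ B, |v l' - t| ≤ η ∧
        l'.1 + l'.2 * y = l.1 + l.2 * y ∧ d ≤ |l'.2 - l.2|} ≤ b t := by
  classical
  have hBfin : volume B ≠ ⊤ := hB.measure_ne_top
  -- choose the thickening radius
  have htend : Tendsto (fun s => volume (cthickening s B)) (𝓝 0) (𝓝 (volume B)) :=
    tendsto_measure_cthickening_of_isCompact hB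
  have hlt : volume B < volume B + ENNReal.ofReal δ :=
    ENNReal.lt_add_right hBfin (by simpa using hδ)
  have hev : ∀ᶠ s in 𝓝 (0 : ℝ), volume (cthickening s B) < volume B + ENNReal.ofReal δ :=
    htend.eventually (gt_mem_nhds hlt)
  obtain ⟨s0, hs0, Hs0⟩ := Metric.eventually_nhds_iff_ball.1 hev
  set s1 := min (s0 / 2) ϱ with hs1
  have hs1pos : 0 < s1 := lt_min (by linarith) hϱ
  refine ⟨min (Λ * s1) (2 * Λ * d), lt_min (by positivity) (by positivity), ?_⟩
  intro η hη hη0
  have hη1 : η ≤ Λ * s1 := hη0.trans (min_le_left _ _)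
  have hη2 : η ≤ 2 * Λ * d := hη0.trans (min_le_right _ _)
  set s := η / Λ with hs
  have hspos : 0 < s := by positivity
  have hss1 : s ≤ s1 := by rw [hs, div_le_iff₀ hΛ]; linarith
  set K := cthickening s B with hK
  have hKc : IsCompact K := hB.cthickening
  have hKvol : volume K ≤ volume B + ENNReal.ofReal δ := by
    apply le_of_lt
    apply Hs0
    rw [mem_ball, Real.dist_eq, sub_zero, abs_of_pos hspos]
    have := min_le_left (s0 / 2) ϱ
    linarith
  have hKsub : K ⊆ cthickening ϱ B := cthickening_mono (hss1.trans (min_le_right _ _)) B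
  have hcK : ContinuousOn v K := hcont.mono hKsub
  -- the product set
  set Z : Set (ℝ × (ℝ × ℝ)) := {p | p.2 ∈ K ∧ |v p.2 - p.1| ≤ 2 * η} with hZ
  have hZclosed : IsClosed Z := by
    have h1 : IsClosed ((univ : Set ℝ) ×ˢ K) := isClosed_univ.prod hKc.isClosed
    have h2 : ContinuousOn (fun p : ℝ × (ℝ × ℝ) => |v p.2 - p.1|) ((univ : Set ℝ) ×ˢ K) := by
      apply ContinuousOn.abs
      apply ContinuousOn.sub
      · exact hcK.comp continuousOn_snd (fun p hp => hp.2)
      · exact continuousOn_fst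
    have h3 := h2.preimage_isClosed_of_isClosed h1 (isClosed_Iic (a := 2 * η))
    have h4 : Z = (univ : Set ℝ) ×ˢ K ∩ (fun p : ℝ × (ℝ × ℝ) => |v p.2 - p.1|) ⁻¹' Iic (2 * η) := by
      ext p
      simp [hZ]
    rw [h4]; exact h3
  have hZm : MeasurableSet Z := hZclosed.measurableSet
  set h := η / (4 * Λ) with hh
  have hhpos : 0 < h := by positivity
  refine ⟨fun t => ENNReal.ofReal (1 / (h * d)) * volume (Prod.mk t ⁻¹' Z),
    (measurable_measure_prodMk_left hZm).const_mul _, ?_, ?_⟩
  · rw [lintegral_const_mul _ (measurable_measure_prodMk_left hZm)]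
    have e1 : ∫⁻ t, volume (Prod.mk t ⁻¹' Z) = (volume : Measure (ℝ × (ℝ × ℝ))) Z :=
      (Measure.prod_apply (μ := (volume : Measure ℝ)) (ν := (volume : Measure (ℝ × ℝ))) hZm).symm
    have e2 : (volume : Measure (ℝ × (ℝ × ℝ))) Z = ∫⁻ l, volume ((fun t => (t, l)) ⁻¹' Z) :=
      Measure.prod_apply_symm (μ := (volume : Measure ℝ)) (ν := (volume : Measure (ℝ × ℝ))) hZm
    have e3 : ∫⁻ l, volume ((fun t : ℝ => (t, l)) ⁻¹' Z) ≤ ENNReal.ofReal (4 * η) * volume K := by
      calc ∫⁻ l, volume ((fun t : ℝ => (t, l)) ⁻¹' Z)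
          ≤ ∫⁻ l, K.indicator (fun _ => ENNReal.ofReal (4 * η)) l := by
            apply lintegral_mono
            intro l
            by_cases hl : l ∈ K
            · rw [indicator_of_mem hl]
              have : (fun t : ℝ => (t, l)) ⁻¹' Z ⊆ Icc (v l - 2 * η) (v l + 2 * η) := by
                intro t ht
                have h5 : |v l - t| ≤ 2 * η := ht.2
                rw [abs_le] at h5
                constructor <;> linarith [h5.1, h5.2]
              calc volume ((fun t : ℝ => (t, l)) ⁻¹' Z)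
                  ≤ volume (Icc (v l - 2 * η) (v l + 2 * η)) := measure_mono this
                _ = ENNReal.ofReal (4 * η) := by rw [Real.volume_Icc]; congr 1; ring
            · rw [indicator_of_notMem hl]
              have : (fun t : ℝ => (t, l)) ⁻¹' Z = ∅ := by
                ext t
                simp only [mem_preimage, mem_empty_iff_false, iff_false]
                exact fun ht => hl ht.1
              show volume ((fun t : ℝ => (t, l)) ⁻¹' Z) ≤ 0
              rw [this, measure_empty]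
        _ = ENNReal.ofReal (4 * η) * volume K := by
            rw [lintegral_indicator hKc.isClosed.measurableSet, setLIntegral_const]
    rw [e1, e2]
    calc ENNReal.ofReal (1 / (h * d)) * ∫⁻ l, volume ((fun t : ℝ => (t, l)) ⁻¹' Z)
        ≤ ENNReal.ofReal (1 / (h * d)) * (ENNReal.ofReal (4 * η) * volume K) := by gcongr
      _ = ENNReal.ofReal (16 * Λ / d) * volume K := by
          rw [← mul_assoc, ← ENNReal.ofReal_mul (by positivity)]
          congr 2
          rw [hh]; field_simp; ring
      _ ≤ ENNReal.ofReal (16 * Λ / d) * (volume B + ENNReal.ofReal δ) := by gcongr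
  · intro t l
    have hGm : MeasurableSet (Prod.mk t ⁻¹' Z) := measurable_prodMk_left hZm
    have key := sweep {l' | l' ∈ B ∧ |v l' - t| ≤ η} (Prod.mk t ⁻¹' Z) hGm h d hhpos (by
        rw [hh]
        have : 2 * (η / (4 * Λ)) = η / (2 * Λ) := by field_simp; ring
        rw [this, div_le_iff₀ (by positivity)]
        linarith) (by
        rintro l' ⟨hl'B, hl't⟩ l'' hdist
        have h4h : 4 * h = s := by rw [hh, hs]; field_simp
        rw [h4h] at hdist
        refine ⟨?_, ?_⟩
        · exact mem_cthickening_of_dist_le l'' l' s B hl'B hdist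
        · have h6 := hlip l' hl'B l'' (hdist.trans (hss1.trans (min_le_right _ _)))
          have h7 : Λ * dist l'' l' ≤ η := by
            calc Λ * dist l'' l' ≤ Λ * s := by gcongr
              _ = η := by rw [hs]; field_simp
          have h8 : |v l'' - t| ≤ |v l'' - v l'| + |v l' - t| := abs_sub_le _ _ _
          show |v l'' - t| ≤ 2 * η
          linarith) l
    refine le_trans (measure_mono ?_) key
    rintro y ⟨hy, l', hl'B, hl't, hinc, hdl⟩
    exact ⟨hy, l', ⟨hl'B, hl't⟩, hinc, hdl⟩

end Pool.Agent.Croft
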