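import Mathlib
import Pool.Agent.Croft.Usd
import Pool.Agent.Croft.SoftBound

open MeasureTheory Set Filter Topology Metric

namespace Pool.Agent.Croft

/-- Soft bound for a compact set of lines on which the gradient is bounded. -/
theorem soft_grad (v : ℝ × ℝ → ℝ) (B Rp : Set (ℝ × ℝ)) (hB : IsCompact B) (β : ℝ) (hβ : 0 < β)
    (hBR : cthickening β B ⊆ Rp) (hcont : ContinuousOn v Rp)
    (hC1 : ∀ l ∈ B, ContDiffAt ℝ 1 v l) (a1 a2 Λ d δ : ℝ)
    (h1 : ∀ l ∈ B, |fderiv ℝ v l (1, 0)| ≤ a1)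
    (h2 : ∀ l ∈ B, |fderiv ℝ v l (0, 1)| ≤ a2) (ha1 : 0 ≤ a1) (ha2 : 0 ≤ a2)
    (hΛ : a1 + a2 < Λ) (hd : 0 < d) (hδ : 0 < δ) :
    ∃ η0 > 0, ∀ η, 0 < η → η ≤ η0 → ∃ b : ℝ → ENNReal, Measurable b ∧
      ∫⁻ t, b t ≤ ENNReal.ofReal (16 * Λ / d) * (volume B + ENNReal.ofReal δ) ∧
      ∀ (t : ℝ) (l : ℝ × ℝ), volume {y : ℝ | y ∈ Icc (-3 : ℝ) 3 ∧ ∃ l' ∈ B, |v l' - t| ≤ η ∧
        l'.1 + l'.2 * y = l.1 + l.2 * y ∧ d ≤ |l'.2 - l.2|} ≤ b t := by
  obtain ⟨ϱ, hϱ, H⟩ := usd v B hB hC1 (Λ - (a1 + a2)) (by linarith)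
  refine soft_bound v B hB Λ (min ϱ β) d δ (by linarith) (lt_min hϱ hβ) hd hδ ?_ ?_
  · exact hcont.mono ((cthickening_mono (min_le_right _ _) B).trans hBR)
  · intro l' hl' l'' hdist
    have h3 := H l' hl' l'' (hdist.trans (min_le_left _ _))
    have hlin : fderiv ℝ v l' (l'' - l') =
        fderiv ℝ v l' (1, 0) * (l''.1 - l'.1) + fderiv ℝ v l' (0, 1) * (l''.2 - l'.2) := by
      have e : l'' - l' = (l''.1 - l'.1) • ((1 : ℝ), (0 : ℝ)) + (l''.2 - l'.2) • ((0 : ℝ), (1 : ℝ)) := by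
        ext <;> simp
      rw [e, map_add, map_smul, map_smul, smul_eq_mul, smul_eq_mul]
      ring
    have hD : dist l'' l' = max |l''.1 - l'.1| |l''.2 - l'.2| := by
      rw [Prod.dist_eq, Real.dist_eq, Real.dist_eq]
    have e1 : |l''.1 - l'.1| ≤ dist l'' l' := by rw [hD]; exact le_max_left _ _
    have e2 : |l''.2 - l'.2| ≤ dist l'' l' := by rw [hD]; exact le_max_right _ _
    have e3 : |fderiv ℝ v l' (l'' - l')| ≤ a1 * dist l'' l' + a2 * dist l'' l' := by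
      rw [hlin]
      refine (abs_add_le _ _).trans (add_le_add ?_ ?_)
      · rw [abs_mul]
        exact mul_le_mul (h1 l' hl') e1 (abs_nonneg _) ha1
      · rw [abs_mul]
        exact mul_le_mul (h2 l' hl') e2 (abs_nonneg _) ha2
    have e4 : |v l'' - v l'| ≤ |v l'' - v l' - fderiv ℝ v l' (l'' - l')| +
        |fderiv ℝ v l' (l'' - l')| := by
      have e5 : v l'' - v l' = (v l'' - v l' - fderiv ℝ v l' (l'' - l')) +
        fderiv ℝ v l' (l'' - l') := by ring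
      calc |v l'' - v l'| = |(v l'' - v l' - fderiv ℝ v l' (l'' - l')) +
          fderiv ℝ v l' (l'' - l')| := by rw [← e5]
        _ ≤ _ := abs_add_le _ _
    calc |v l'' - v l'| ≤ _ := e4
      _ ≤ (Λ - (a1 + a2)) * dist l'' l' + (a1 * dist l'' l' + a2 * dist l'' l') := add_le_add h3 e3
      _ = Λ * dist l'' l' := by ring

end Pool.Agent.Croft
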