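import Mathlib
import Pool.Agent.Croft.Pieces
import Pool.Agent.Croft.SoftGrad
import Pool.Agent.Croft.Setup
import Pool.Agent.Croft.Cases

open MeasureTheory Set Filter Topology Metric

namespace Pool.Agent.Croft

theorem exists_L (a b : ℝ) (hb : 0 < b) : ∃ L : ℕ, 1 ≤ L ∧ a < L * b := by
  obtain ⟨n, hn⟩ := exists_nat_gt (a / b)
  refine ⟨n + 1, by omega, ?_⟩
  rw [div_lt_iff₀ hb] at hn
  push_cast
  nlinarith

theorem exists_m (L : ℕ) (V δ : ℝ) (hδ : 0 < δ) : ∃ m : ℕ, (1 - 1 / 5 ^ L : ℝ) ^ m * V ≤ δ := by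
  have h1 : (0 : ℝ) < 5 ^ L := by positivity
  have h2 : |(1 - 1 / 5 ^ L : ℝ)| < 1 := by
    rw [abs_lt]
    have h3 : (0 : ℝ) < 1 / 5 ^ L := by positivity
    have h4 : (1 : ℝ) / 5 ^ L ≤ 1 := by
      rw [div_le_one h1]; exact one_le_pow₀ (by norm_num)
    constructor <;> linarith
  have h5 : Tendsto (fun m : ℕ => (1 - 1 / 5 ^ L : ℝ) ^ m * V) atTop (𝓝 (0 * V)) :=
    (tendsto_pow_atTop_nhds_zero_of_abs_lt_one h2).mul_const V
  rw [zero_mul] at h5
  obtain ⟨m, hm⟩ := (h5.eventually (ge_mem_nhds hδ)).exists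
  exact ⟨m, hm⟩

theorem ofReal_bound {a V δ c : ℝ} {W : ENNReal} (ha : 0 ≤ a) (hV : 0 ≤ V) (hδ : 0 ≤ δ)
    (hW : W ≤ ENNReal.ofReal V) (h : a * (V + δ) ≤ c) :
    ENNReal.ofReal a * (W + ENNReal.ofReal δ) ≤ ENNReal.ofReal c := by
  calc ENNReal.ofReal a * (W + ENNReal.ofReal δ)
      ≤ ENNReal.ofReal a * (ENNReal.ofReal V + ENNReal.ofReal δ) := by gcongr
    _ = ENNReal.ofReal (a * (V + δ)) := by
        rw [← ENNReal.ofReal_add hV hδ, ← ENNReal.ofReal_mul ha]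
    _ ≤ _ := ENNReal.ofReal_le_ofReal h

theorem phase (v0 : ℝ × ℝ → ℝ) (R : Set (ℝ × ℝ)) (hR : IsCompact R) (β A : ℝ) (hβ : 0 < β)
    (hA : 1 ≤ A) (hRA : ∀ l ∈ Metric.cthickening β R, |l.2| < A) (Λ : NNReal)
    (hlip : LipschitzOnWith Λ v0 (Metric.cthickening β R)) (S : Set (ℝ × ℝ)) (hS : IsClosed S)
    (hS0 : volume S = 0) (hC1 : ∀ l ∈ Metric.cthickening β R, l ∉ S → ContDiffAt ℝ 1 v0 l)
    (ε τ d : ℝ) (hε : 0 < ε) (hτ : 0 < τ) (hd : 0 < d) :
    ∃ (α : ℝ) (N : ℕ) (r : ℕ → ℝ), 0 < α ∧ α < τ ∧ α * A ≤ 1 / 16 ∧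
      (∀ i, 0 < r i ∧ r i < τ ∧ r (i + 1) ≤ r i / 2) ∧
      (∀ l ∈ Metric.cthickening β R, ∑ i ∈ Finset.range N, lay α (r i) l ≤ τ) ∧
      ∃ η > 0, ∃ T : Set ℝ, MeasurableSet T ∧ volume T ≤ ENNReal.ofReal ε ∧
      ∃ M : ℝ → Set (ℝ × (ℝ × ℝ)), (∀ t, IsCompact (M t)) ∧
        (∀ t, ∀ q ∈ M t, q.1 ∈ Icc (-3 : ℝ) 3 ∧ q.2 ∈ R ∧
          |v0 q.2 + ∑ i ∈ Finset.range N, lay α (r i) q.2 - t| ≤ τ) ∧
        (∀ l ∈ R, ∀ t, |v0 l + ∑ i ∈ Finset.range N, lay α (r i) l - t| ≤ η →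
          ENNReal.ofReal (1 / 20) ≤ volume {y : ℝ | (y, l) ∈ M t} ∨
          (l ∉ S ∧ 4 * |fderiv ℝ v0 l (0, 1)| < |fderiv ℝ v0 l (1, 0)| ∧
            ¬ (4 * |fderiv ℝ (fun l => v0 l + ∑ i ∈ Finset.range N, lay α (r i) l) l (0, 1)
                + fderiv ℝ (fun l => v0 l + ∑ i ∈ Finset.range N, lay α (r i) l) l (1, 0)|
              < |fderiv ℝ (fun l => v0 l + ∑ i ∈ Finset.range N, lay α (r i) l) l (1, 0)|))) ∧
        (∀ t, t ∉ T → ∀ l : ℝ × ℝ, volume {y : ℝ | ∃ l' : ℝ × ℝ, (y, l') ∈ M t ∧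
            l'.1 + l'.2 * y = l.1 + l.2 * y ∧ d ≤ |l'.2 - l.2|} ≤ ENNReal.ofReal ε) := by
  classical
  -- constants
  set Rp := cthickening β R with hRp
  have hRRp : R ⊆ Rp := self_subset_cthickening R
  set Λ0 : ℝ := (Λ : ℝ) + 1 with hΛ0
  have hΛ1 : 1 ≤ Λ0 := by have : (0 : ℝ) ≤ Λ := Λ.2; linarith
  have hRfin : volume R ≠ ⊤ := hR.measure_ne_top
  set V := (volume R).toReal with hV
  have hV0 : 0 ≤ V := ENNReal.toReal_nonneg
  have hVR : volume R = ENNReal.ofReal V := (ENNReal.ofReal_toReal hRfin).symm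
  obtain ⟨kp, hkp0, hkp1, hkpV⟩ : ∃ kp > 0, kp ≤ 1 ∧ 2000 * (V + 1) * kp ≤ ε ^ 2 * d := by
    refine ⟨min 1 (ε ^ 2 * d / (2000 * (V + 1))), lt_min one_pos (by positivity),
      min_le_left _ _, ?_⟩
    have h1 : min 1 (ε ^ 2 * d / (2000 * (V + 1))) ≤ ε ^ 2 * d / (2000 * (V + 1)) := min_le_right _ _
    rw [le_div_iff₀ (by positivity)] at h1
    linarith
  obtain ⟨δ, hδ0, hδ⟩ : ∃ δ > 0, 5120 * Λ0 * δ ≤ ε ^ 2 * d :=
    ⟨ε ^ 2 * d / (5120 * Λ0), by positivity, by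
      rw [mul_div_cancel₀]; positivity⟩
  obtain ⟨F, K, C, g, hg, hFc, hKc, hRFK, hFR, hKR, hKvol, hFS, hFC, hctx, hF10⟩ :=
    setup v0 R hR β A hβ hRA Λ hlip S hS hS0 hC1 kp δ hkp0 hδ0
  obtain ⟨κ, hκ0, hκ1, hκ2, hκ3⟩ := exists_kappa kp A τ g d Λ0 ε C.card hkp0 hA hτ hg hd
    (by linarith) hε
  have hA0 : 0 < A := by linarith
  set α := κ / (14 * A) with hα
  have hα0 : 0 < α := by positivity
  have hαA' : α * A = κ / 14 := by rw [hα]; field_simp
  have hαA : α * A ≤ 1 / 16 := by rw [hαA']; linarith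
  have hατ : α < τ := by
    rw [hα, div_lt_iff₀ (by positivity)]
    nlinarith
  obtain ⟨L, hL1, hLα⟩ := exists_L (32 * Λ0) (α / 2) (by positivity)
  obtain ⟨m, hm⟩ := exists_m L V δ hδ0
  have hv0c : ContinuousOn v0 Rp := hlip.continuousOn
  have hFRp : F ⊆ Rp := hFR.trans hRRp
  have hFA : ∀ l ∈ F, |l.2| < A := hctx.F_A
  -- level zero soft bounds
  obtain ⟨ηa, hηa0, hηa⟩ := soft_bound v0 K hKc Λ0 β d δ (by linarith) hβ hd hδ0
    (hv0c.mono (cthickening_subset_of_subset β hKR)) (by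
      intro l' hl' l'' hdist
      have h1 : l'' ∈ Rp := mem_cthickening_of_dist_le l'' l' β R (hKR hl') hdist
      have h2 := hlip.dist_le_mul l'' h1 l' (hRRp (hKR hl'))
      rw [Real.dist_eq] at h2
      refine h2.trans ?_
      apply mul_le_mul_of_nonneg_right _ dist_nonneg
      rw [hΛ0]; linarith)
  have hP0c : ContinuousOn (fun l => fderiv ℝ v0 l (0, 1)) F := fun l hl =>
    (continuousAt_fderiv_apply (hctx.F_C1 l hl) (0, 1)).continuousWithinAt
  have hq0c : ContinuousOn (fun l => fderiv ℝ v0 l (1, 0)) F := fun l hl =>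
    (continuousAt_fderiv_apply (hctx.F_C1 l hl) (1, 0)).continuousWithinAt
  set T0 : Set (ℝ × ℝ) := {l | (l ∈ F ∧ |fderiv ℝ v0 l (0, 1)| ≤ kp) ∧
    |fderiv ℝ v0 l (1, 0)| ≤ 4 * kp} with hT0
  have hT0c : IsCompact T0 := isCompact_sep (isCompact_sep hFc hP0c.abs continuousOn_const)
    (hq0c.abs.mono (fun l hl => hl.1)) continuousOn_const
  have hT0R : T0 ⊆ R := fun l hl => hFR hl.1.1
  obtain ⟨ηb, hηb0, hηb⟩ := soft_grad v0 T0 Rp hT0c β hβ (cthickening_subset_of_subset β hT0R)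
    hv0c (fun l hl => hctx.F_C1 l hl.1.1) (4 * kp) kp (6 * kp) d 1 (fun l hl => hl.2)
    (fun l hl => hl.1.2) (by linarith) (by linarith) (by linarith) hd one_pos
  -- the walk
  obtain ⟨e0, he00, he0a, he0b, he0k, he0τ, he01⟩ : ∃ e0 > 0, e0 ≤ ηa ∧ e0 ≤ ηb ∧
      4 * α * e0 ≤ kp / 4 ∧ e0 ≤ τ / 2 ∧ e0 ≤ 1 := by
    refine ⟨min ηa (min ηb (min (kp / (16 * α)) (min (τ / 2) 1))), ?_, min_le_left _ _,
      (min_le_right _ _).trans (min_le_left _ _), ?_, ?_, ?_⟩
    · exact lt_min hηa0 (lt_min hηb0 (lt_min (by positivity) (lt_min (by positivity) one_pos)))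
    · have h1 : min ηa (min ηb (min (kp / (16 * α)) (min (τ / 2) 1))) ≤ kp / (16 * α) :=
        (min_le_right _ _).trans ((min_le_right _ _).trans (min_le_left _ _))
      rw [le_div_iff₀ (by positivity)] at h1
      linarith
    · exact (min_le_right _ _).trans ((min_le_right _ _).trans ((min_le_right _ _).trans
        (min_le_left _ _)))
    · exact (min_le_right _ _).trans ((min_le_right _ _).trans ((min_le_right _ _).trans
        (min_le_right _ _)))
  obtain ⟨g0, hg00, hg0g, hg0τ⟩ : ∃ g0 > 0, g0 ≤ g ∧ g0 ≤ τ / 2 :=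
    ⟨min g (τ / 2), lt_min hg (by positivity), min_le_left _ _, min_le_right _ _⟩
  obtain ⟨f, hw0, hfe, hfϱ, hfB, hfS, hgood, hrel⟩ := exists_walk hctx hkp0 hkp1 hκ0 hκ1 hd
    (by linarith) hα0 hA hαA L g0 e0 hg00 he00 he0k
  set N := m * L with hN
  have hwN := w_sum hw0 hrel N
  have hrel' := hrel
  have hrpos : ∀ i, 0 < (f (i + 1)).r := fun i => (hrel i).r0
  have hr_le : ∀ i, (f (i + 1)).r ≤ e0 := by
    intro i
    have h1 := (hrel i).re
    have h2 := e_decay hrel 0 i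
    rw [zero_add] at h2
    have h3 : (f 0).e / 2 ^ i ≤ (f 0).e := div_le_self (hgood 0).e0.le (one_le_pow₀ (by norm_num))
    linarith
  have hwsm : ∀ k, ∀ l : ℝ × ℝ, |l.2| < A → ContDiffAt ℝ 1 (f k).w l := fun k => (hgood k).wprop.smooth
  have hfd : ∀ k, ∀ l ∈ F, fderiv ℝ (fun l => v0 l + (f k).w l) l =
      fderiv ℝ v0 l + fderiv ℝ (f k).w l := fun k l hl =>
    fderiv_add ((hctx.F_C1 l hl).differentiableAt (by norm_num))
      ((hwsm k l (hFA l hl)).differentiableAt (by norm_num))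
  have hvC1 : ∀ k, ∀ l ∈ F, ContDiffAt ℝ 1 (fun l => v0 l + (f k).w l) l := fun k l hl =>
    (hctx.F_C1 l hl).add (hwsm k l (hFA l hl))
  have hvc : ∀ k, ContinuousOn (fun l => v0 l + (f k).w l) Rp := by
    intro k
    exact hv0c.add (fun l hl => (hwsm k l (hRA l hl)).continuousAt.continuousWithinAt)
  have hPc : ∀ k, ContinuousOn (fun l => fderiv ℝ (fun l => v0 l + (f k).w l) l (0, 1)) F :=
    fun k l hl => (continuousAt_fderiv_apply (hvC1 k l hl) (0, 1)).continuousWithinAt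
  have hqc : ∀ k, ContinuousOn (fun l => fderiv ℝ (fun l => v0 l + (f k).w l) l (1, 0)) F :=
    fun k l hl => (continuousAt_fderiv_apply (hvC1 k l hl) (1, 0)).continuousWithinAt
  have hv00 : (fun l => v0 l + (f 0).w l) = v0 := by rw [hw0]; ext l; simp
  -- soft bounds at level N
  set TN : Set (ℝ × ℝ) := {l | (l ∈ F ∧ |fderiv ℝ (fun l => v0 l + (f N).w l) l (0, 1)| ≤ 2 * kp) ∧
    |fderiv ℝ (fun l => v0 l + (f N).w l) l (1, 0)| ≤ 2 * kp} with hTN
  have hTNc : IsCompact TN := isCompact_sep (isCompact_sep hFc (hPc N).abs continuousOn_const)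
    ((hqc N).abs.mono (fun l hl => hl.1)) continuousOn_const
  have hTNR : TN ⊆ R := fun l hl => hFR hl.1.1
  obtain ⟨ηc, hηc0, hηc⟩ := soft_grad (fun l => v0 l + (f N).w l) TN Rp hTNc β hβ
    (cthickening_subset_of_subset β hTNR)
    (hvc N) (fun l hl => hvC1 N l hl.1.1) (2 * kp) (2 * kp) (5 * kp) d 1 (fun l hl => hl.2)
    (fun l hl => hl.1.2) (by linarith) (by linarith) (by linarith) hd one_pos
  set Bd : Set (ℝ × ℝ) := {l | ((l ∈ F ∧ kp ≤ |fderiv ℝ v0 l (0, 1)|) ∧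
    |fderiv ℝ v0 l (1, 0)| ≤ 4 * |fderiv ℝ v0 l (0, 1)|) ∧
    ∀ k ≤ N, |fderiv ℝ (fun l => v0 l + (f k).w l) l (1, 0)| ≤ 16 * |fderiv ℝ v0 l (0, 1)|} with hBd
  have hBdc : IsCompact Bd := by
    have h1 : IsCompact {l | (l ∈ F ∧ kp ≤ |fderiv ℝ v0 l (0, 1)|) ∧
      |fderiv ℝ v0 l (1, 0)| ≤ 4 * |fderiv ℝ v0 l (0, 1)|} :=
      isCompact_sep (isCompact_sep hFc continuousOn_const hP0c.abs)
        (hq0c.abs.mono (fun l hl => hl.1))
        (continuousOn_const.mul (hP0c.abs.mono (fun l hl => hl.1)))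
    exact isCompact_forall h1 (fun k => (hqc k).abs.mono (fun l hl => hl.1.1))
      (continuousOn_const.mul (hP0c.abs.mono (fun l hl => hl.1.1))) N
  have hBdR : Bd ⊆ R := fun l hl => hFR hl.1.1.1
  have hBdv : volume Bd ≤ ENNReal.ofReal δ := by
    have h1 : Bd ⊆ (f N).Sv := by
      intro l hl
      refine mem_surv hα0 hA hαA hL1 hLα hFR hRfin hFA hgood hrel hfB hfS m l hl.1.1.1
        ((hctx.F_C1 l hl.1.1.1).differentiableAt (by norm_num)) ?_
      intro k hk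
      refine (hl.2 k hk).trans ?_
      have := hctx.F_P l hl.1.1.1
      linarith
    have h2 := (surv hL1 hgood hrel hRfin hfB hfS m).1
    have h3 : volume (f N).Sv ≠ ⊤ := measure_ne_top_of_subset (hgood N).SR hRfin
    calc volume Bd ≤ volume (f N).Sv := measure_mono h1
      _ = ENNReal.ofReal (volume (f N).Sv).toReal := (ENNReal.ofReal_toReal h3).symm
      _ ≤ ENNReal.ofReal δ := ENNReal.ofReal_le_ofReal (h2.trans hm)
  obtain ⟨ηd, hηd0, hηd⟩ := soft_grad (fun l => v0 l + (f N).w l) Bd Rp hBdc β hβ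
    (cthickening_subset_of_subset β hBdR)
    (hvc N) (fun l hl => hvC1 N l hl.1.1.1) (16 * Λ0) (Λ0 + 1) (20 * Λ0) d δ
    (fun l hl => (hl.2 N le_rfl).trans (by have := hctx.F_P l hl.1.1.1; linarith))
    (fun l hl => by
      rw [hfd N l hl.1.1.1, ContinuousLinearMap.add_apply]
      have h1 := hctx.F_P l hl.1.1.1
      have h2 := (hgood N).wprop.d2 l (hFA l hl.1.1.1)
      have h3 := (hgood N).ce
      have h4 := (hgood N).e0
      have h5 : 0 < 4 * α * (f N).e := by positivity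
      refine (abs_add_le _ _).trans (add_le_add h1 ?_)
      linarith) (by linarith) (by linarith) (by linarith) hd hδ0
  -- values of the bounding functions
  obtain ⟨ba, hbam, hbai, hba⟩ := hηa ηa hηa0 le_rfl
  obtain ⟨bb, hbbm, hbbi, hbb⟩ := hηb ηb hηb0 le_rfl
  obtain ⟨bc, hbcm, hbci, hbc⟩ := hηc ηc hηc0 le_rfl
  obtain ⟨bd, hbdm, hbdi, hbd⟩ := hηd ηd hηd0 le_rfl
  have heN := (hgood N).e0
  obtain ⟨η, hη0, hη1, hη2, hη3, hη4, hη5, hη6⟩ : ∃ η > 0, η ≤ ηa / 2 ∧ η ≤ ηb / 2 ∧ η ≤ ηc ∧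
      η ≤ ηd ∧ η ≤ (f N).e / 2 ∧ η ≤ τ / 2 := by
    refine ⟨min (ηa / 2) (min (ηb / 2) (min ηc (min ηd (min ((f N).e / 2) (τ / 2))))), ?_,
      min_le_left _ _, (min_le_right _ _).trans (min_le_left _ _),
      (min_le_right _ _).trans ((min_le_right _ _).trans (min_le_left _ _)),
      (min_le_right _ _).trans ((min_le_right _ _).trans ((min_le_right _ _).trans
        (min_le_left _ _))),
      (min_le_right _ _).trans ((min_le_right _ _).trans ((min_le_right _ _).trans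
        ((min_le_right _ _).trans (min_le_left _ _)))),
      (min_le_right _ _).trans ((min_le_right _ _).trans ((min_le_right _ _).trans
        ((min_le_right _ _).trans (min_le_right _ _))))⟩
    exact lt_min (by positivity) (lt_min (by positivity) (lt_min hηc0 (lt_min hηd0
      (lt_min (by positivity) (by positivity)))))
  have hIa : ∫⁻ t, ba t ≤ ENNReal.ofReal (ε ^ 2 / 8) := by
    refine hbai.trans (ofReal_bound (by positivity) hδ0.le hδ0.le hKvol ?_)
    rw [div_mul_eq_mul_div, div_le_iff₀ hd]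
    have : 0 < ε ^ 2 * d := by positivity
    nlinarith
  have hIb : ∫⁻ t, bb t ≤ ENNReal.ofReal (ε ^ 2 / 8) := by
    refine hbbi.trans (ofReal_bound (by positivity) hV0 zero_le_one
      ((measure_mono hT0R).trans hVR.le) ?_)
    rw [div_mul_eq_mul_div, div_le_iff₀ hd]
    have : 0 < ε ^ 2 * d := by positivity
    nlinarith
  have hIc : ∫⁻ t, bc t ≤ ENNReal.ofReal (ε ^ 2 / 8) := by
    refine hbci.trans (ofReal_bound (by positivity) hV0 zero_le_one
      ((measure_mono hTNR).trans hVR.le) ?_)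
    rw [div_mul_eq_mul_div, div_le_iff₀ hd]
    have : 0 < ε ^ 2 * d := by positivity
    have : 0 ≤ V * kp := by positivity
    nlinarith
  have hId : ∫⁻ t, bd t ≤ ENNReal.ofReal (ε ^ 2 / 8) := by
    refine hbdi.trans (ofReal_bound (by positivity) hδ0.le hδ0.le hBdv ?_)
    rw [div_mul_eq_mul_div, div_le_iff₀ hd]
    have : 0 < ε ^ 2 * d := by positivity
    nlinarith
  obtain ⟨T, hTm, hTv, hTb⟩ := markov (fun t => ba t + (bb t + (bc t + bd t)))
    (hbam.add (hbbm.add (hbcm.add hbdm))) ε hε (by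
      rw [lintegral_add_left hbam, lintegral_add_left hbbm, lintegral_add_left hbcm]
      calc _ ≤ ENNReal.ofReal (ε ^ 2 / 8) + (ENNReal.ofReal (ε ^ 2 / 8) +
            (ENNReal.ofReal (ε ^ 2 / 8) + ENNReal.ofReal (ε ^ 2 / 8))) := by gcongr
        _ = ENNReal.ofReal (ε ^ 2 / 2) := by
            rw [← ENNReal.ofReal_add (by positivity) (by positivity),
              ← ENNReal.ofReal_add (by positivity) (by positivity),
              ← ENNReal.ofReal_add (by positivity) (by positivity)]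
            congr 1; ring)
  have hsum : ∀ l, ∑ i ∈ Finset.range N, lay α (f (i + 1)).r l = (f N).w l :=
    fun l => (congrFun hwN l).symm
  set BB : Set (ℝ × ℝ) := K ∪ (T0 ∪ (TN ∪ Bd)) with hBB
  have hBBc : IsCompact BB := hKc.union (hT0c.union (hTNc.union hBdc))
  have hBBR : BB ⊆ R := union_subset hKR (union_subset hT0R (union_subset hTNR hBdR))
  set H : ℕ → ℝ → Set (ℝ × (ℝ × ℝ)) := fun k t =>
    {q | ((((q ∈ Icc (-3 : ℝ) 3 ×ˢ F) ∧ 1 / 8 ≤ |q.1|) ∧ kp ≤ |fderiv ℝ v0 q.2 (0, 1)|) ∧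
      |fderiv ℝ (fun l => v0 l + (f k).w l) q.2 (0, 1) -
        q.1 * fderiv ℝ (fun l => v0 l + (f k).w l) q.2 (1, 0)| ≤ κ) ∧
      |v0 q.2 + (f k).w q.2 - t| ≤ (f k).η} with hH
  have hHc : ∀ k t, IsCompact (H k t) := by
    intro k t
    have h0 : IsCompact (Icc (-3 : ℝ) 3 ×ˢ F) := isCompact_Icc.prod hFc
    have hs : ∀ g : ℝ × ℝ → ℝ, ContinuousOn g F →
        ContinuousOn (fun q : ℝ × (ℝ × ℝ) => g q.2) (Icc (-3 : ℝ) 3 ×ˢ F) := fun g hg =>
      hg.comp continuousOn_snd (fun q hq => hq.2)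
    have h1 := isCompact_sep h0 (continuousOn_const (c := (1 / 8 : ℝ)))
      ((continuous_fst (X := ℝ) (Y := ℝ × ℝ)).abs.continuousOn)
    have h2 := isCompact_sep h1 (continuousOn_const (c := kp))
      ((hs _ hP0c).abs.mono (fun q hq => hq.1))
    have h3 := isCompact_sep h2 (((hs _ (hPc k)).sub
      ((continuous_fst (X := ℝ) (Y := ℝ × ℝ)).continuousOn.mul (hs _ (hqc k)))).abs.mono
      (fun q hq => hq.1.1)) (continuousOn_const (c := κ))
    exact isCompact_sep h3 ((((hs _ ((hvc k).mono hFRp)).sub continuousOn_const).abs).mono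
      (fun q hq => hq.1.1.1)) (continuousOn_const (c := (f k).η))
  set M : ℝ → Set (ℝ × (ℝ × ℝ)) := fun t =>
    {q | q ∈ Icc (-3 : ℝ) 3 ×ˢ BB ∧ |v0 q.2 + (f N).w q.2 - t| ≤ η} ∪
    ⋃ k ∈ Finset.range (N + 1), H k t with hM
  refine ⟨α, N, fun i => (f (i + 1)).r, hα0, hατ, hαA, ?_, ?_, η, hη0, T, hTm, hTv, M, ?_, ?_,
    ?_, ?_⟩
  · intro i
    refine ⟨hrpos i, ?_, ?_⟩
    · have := hr_le i
      show (f (i + 1)).r < τ
      linarith
    · exact (hrel (i + 1)).re.trans (hrel i).e2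
  · intro l hl
    simp only [hsum]
    have h1 := (w_close hα0 hA hαA hgood hrel 0 N l (hRA l hl)).2
    rw [zero_add, hw0] at h1
    have h2 := (hgood 0).e0
    have h3 : (1 : ℝ) - 1 / 2 ^ N ≤ 1 := by
      have : (0 : ℝ) < 1 / 2 ^ N := by positivity
      linarith
    have h4 : (f 0).e / 4 * (1 - 1 / 2 ^ N) ≤ (f 0).e / 4 * 1 :=
      mul_le_mul_of_nonneg_left h3 (by positivity)
    simp only at h1
    linarith
  · -- compactness
    intro t
    refine IsCompact.union ?_ ?_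
    · exact isCompact_sep (isCompact_Icc.prod hBBc)
        ((((hvc N).mono (hBBR.trans hRRp)).comp continuousOn_snd (fun q hq => hq.2)).sub
          continuousOn_const).abs continuousOn_const
    · exact (Finset.range (N + 1)).isCompact_biUnion (fun k _ => hHc k t)
  · -- range
    intro t q hq
    simp only [hsum]
    rcases hq with ⟨hq1, hq2⟩ | hq
    · exact ⟨hq1.1, hBBR hq1.2, by linarith⟩
    · obtain ⟨k, hk, hqk⟩ := mem_iUnion₂.1 hq
      obtain ⟨⟨⟨⟨h1, h2⟩, h3⟩, h4⟩, h5⟩ := hqk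
      refine ⟨h1.1, hFR h1.2, ?_⟩
      have hkN : k ≤ N := Nat.lt_succ_iff.1 (Finset.mem_range.1 hk)
      have h6 := w_close' hα0 hA hαA hgood hrel hkN q.2 (hFA _ h1.2)
      have h7 : |v0 q.2 + (f N).w q.2 - t| ≤ |v0 q.2 + (f k).w q.2 - t| +
          |(f N).w q.2 - (f k).w q.2| := by
        have e : v0 q.2 + (f N).w q.2 - t = (v0 q.2 + (f k).w q.2 - t) +
          ((f N).w q.2 - (f k).w q.2) := by ring
        rw [e]; exact abs_add_le _ _
      have h8 := (hgood k).eη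
      have h9 : (f k).η ≤ τ / 16 := by
        rw [(hgood k).ηϱ]
        have h10 := rho_anti hgood hrel (Nat.zero_le k)
        have h11 := (hgood k).ϱ0
        calc κ * (f k).ϱ ≤ 1 / 8 * (τ / 2) := by
              apply mul_le_mul (by linarith) (by linarith) h11.le (by norm_num)
          _ = τ / 16 := by ring
      have h12 := (hgood k).e0
      linarith
  · -- coverage
    intro l hlR t ht
    simp only [hsum] at ht ⊢
    have hfull : l ∈ BB → ENNReal.ofReal (1 / 20) ≤ volume {y : ℝ | (y, l) ∈ M t} := by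
      intro hl
      calc ENNReal.ofReal (1 / 20) ≤ ENNReal.ofReal (3 - (-3)) :=
            ENNReal.ofReal_le_ofReal (by norm_num)
        _ = volume (Icc (-3 : ℝ) 3) := by rw [Real.volume_Icc]
        _ ≤ _ := measure_mono (fun y hy => Or.inl ⟨⟨hy, hl⟩, ht⟩)
    rcases hRFK hlR with hlF | hlK
    · have hlA := hFA l hlF
      have hP00 : fderiv ℝ (fun l => v0 l + (f 0).w l) l = fderiv ℝ v0 l := by rw [hv00]
      have hwc := walk_cases (fun k => fderiv ℝ (fun l => v0 l + (f k).w l) l (1, 0))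
        (fun k => fderiv ℝ (fun l => v0 l + (f k).w l) l (0, 1)) κ kp N hkp0 (by
          intro k hk y hy
          have e1 := w_fderiv hα0 hA hαA hgood hrel k l hlA
          have e2 := lay_facts hα0 (hrpos k) hA hαA l hlA
          have e : (fderiv ℝ (fun l => v0 l + (f (k + 1)).w l) l (0, 1) -
              y * fderiv ℝ (fun l => v0 l + (f (k + 1)).w l) l (1, 0)) -
              (fderiv ℝ (fun l => v0 l + (f k).w l) l (0, 1) -
              y * fderiv ℝ (fun l => v0 l + (f k).w l) l (1, 0)) =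
              fderiv ℝ (lay α (f (k + 1)).r) l (0, 1) -
                y * fderiv ℝ (lay α (f (k + 1)).r) l (1, 0) := by
            rw [hfd (k + 1) l hlF, hfd k l hlF, e1]
            simp only [ContinuousLinearMap.add_apply]
            ring
          show |(fderiv ℝ (fun l => v0 l + (f (k + 1)).w l) l (0, 1) -
              y * fderiv ℝ (fun l => v0 l + (f (k + 1)).w l) l (1, 0)) -
              (fderiv ℝ (fun l => v0 l + (f k).w l) l (0, 1) -
              y * fderiv ℝ (fun l => v0 l + (f k).w l) l (1, 0))| ≤ κ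
          rw [e]
          have hy3 : |y| ≤ 3 := abs_le.2 ⟨hy.1, hy.2⟩
          have hr1 : (f (k + 1)).r ≤ 1 := (hr_le k).trans he01
          have h1 : |y * fderiv ℝ (lay α (f (k + 1)).r) l (1, 0)| ≤ 3 * (4 * A * α) := by
            rw [abs_mul]
            exact mul_le_mul hy3 e2.2.2.2.1 (abs_nonneg _) (by norm_num)
          have h2 : 2 * α * (f (k + 1)).r ≤ 2 * (α * A) := by
            have : α * (f (k + 1)).r ≤ α * A := mul_le_mul_of_nonneg_left (by linarith) hα0.le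
            linarith
          calc _ ≤ _ := abs_sub _ _
            _ ≤ 2 * α * (f (k + 1)).r + 3 * (4 * A * α) := add_le_add e2.2.2.2.2.1 h1
            _ ≤ 2 * (α * A) + 3 * (4 * A * α) := by linarith
            _ = κ := by
                have : 3 * (4 * A * α) = 12 * (α * A) := by ring
                rw [this, hαA']; ring) (by
          intro k hk
          show |fderiv ℝ (fun l => v0 l + (f k).w l) l (0, 1) -
            fderiv ℝ (fun l => v0 l + (f 0).w l) l (0, 1)| ≤ kp / 4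
          rw [hP00, hfd k l hlF, ContinuousLinearMap.add_apply, add_sub_cancel_left]
          have h2 := (hgood k).wprop.d2 l hlA
          have h3 := (hgood k).ce
          have h4 := (hgood k).e0
          have h5 : 0 < 4 * α * (f k).e := by positivity
          linarith)
      simp only [hP00] at hwc
      rcases hwc with h | h | h | h | h
      · left
        exact hfull (Or.inr (Or.inl ⟨⟨hlF, h.1⟩, h.2⟩))
      · left
        exact hfull (Or.inr (Or.inr (Or.inl ⟨⟨hlF, h.1⟩, h.2⟩)))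
      · left
        exact hfull (Or.inr (Or.inr (Or.inr ⟨⟨⟨hlF, h.1⟩, h.2.1⟩, h.2.2⟩)))
      · left
        refine h.2.trans (measure_mono ?_)
        rintro y ⟨hy8, hy3, k, hk, hD⟩
        refine Or.inr (mem_iUnion₂.2 ⟨k, Finset.mem_range.2 (Nat.lt_succ_of_le hk), ?_⟩)
        refine ⟨⟨⟨⟨⟨abs_le.1 hy3, hlF⟩, hy8⟩, h.1⟩, hD⟩, ?_⟩
        show |v0 l + (f k).w l - t| ≤ (f k).η
        have h6 := w_close' hα0 hA hαA hgood hrel hk l hlA
        have h7 : |v0 l + (f k).w l - t| ≤ |v0 l + (f N).w l - t| +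
            |(f N).w l - (f k).w l| := by
          have e : v0 l + (f k).w l - t = (v0 l + (f N).w l - t) -
            ((f N).w l - (f k).w l) := by ring
          rw [e]; exact abs_sub _ _
        have h8 := (hgood k).eη
        have h9 := (hgood k).e0
        obtain ⟨j, hj⟩ := Nat.exists_eq_add_of_le hk
        have h10 : (f N).e ≤ (f k).e := by
          rw [hj]
          exact (e_decay hrel k j).trans (div_le_self h9.le (one_le_pow₀ (by norm_num)))
        linarith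
      · right
        refine ⟨hFS l hlF, h.1, ?_⟩
        exact h.2
    · left
      exact hfull (Or.inl hlK)
  · -- rarity
    intro t htT l
    have hb := hTb t htT
    have hw0l : ∀ l' ∈ R, |(f N).w l'| ≤ e0 / 4 := by
      intro l' hl'
      have h1 := w_close' hα0 hA hαA hgood hrel (Nat.zero_le N) l' (hRA l' (hRRp hl'))
      rw [hw0, sub_zero] at h1
      linarith
    have hlev0 : ∀ l' ∈ R, ∀ η' : ℝ, η ≤ η' / 2 → e0 ≤ η' → |v0 l' + (f N).w l' - t| ≤ η →
        |v0 l' - t| ≤ η' := by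
      intro l' hl' η' h1 h2 h3
      have h4 := hw0l l' hl'
      have h5 : |v0 l' - t| ≤ |v0 l' + (f N).w l' - t| + |(f N).w l'| := by
        have e : v0 l' - t = (v0 l' + (f N).w l' - t) - (f N).w l' := by ring
        rw [e]; exact abs_sub _ _
      linarith
    have hθ : 0 ≤ 2160 * (Λ0 + 1) * κ / (kp ^ 2 * d) := by positivity
    have hhit := hits_total hα0 hA hαA hθ hκ0 hFA hgood hrel hFC (hfϱ.trans hg0g) N t l
    calc volume {y : ℝ | ∃ l' : ℝ × ℝ, (y, l') ∈ M t ∧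
            l'.1 + l'.2 * y = l.1 + l.2 * y ∧ d ≤ |l'.2 - l.2|}
        ≤ volume (({y : ℝ | y ∈ Icc (-3 : ℝ) 3 ∧ ∃ l' ∈ K, |v0 l' - t| ≤ ηa ∧
            l'.1 + l'.2 * y = l.1 + l.2 * y ∧ d ≤ |l'.2 - l.2|} ∪
          ({y : ℝ | y ∈ Icc (-3 : ℝ) 3 ∧ ∃ l' ∈ T0, |v0 l' - t| ≤ ηb ∧
            l'.1 + l'.2 * y = l.1 + l.2 * y ∧ d ≤ |l'.2 - l.2|} ∪
          ({y : ℝ | y ∈ Icc (-3 : ℝ) 3 ∧ ∃ l' ∈ TN, |(fun l => v0 l + (f N).w l) l' - t| ≤ ηc ∧
            l'.1 + l'.2 * y = l.1 + l.2 * y ∧ d ≤ |l'.2 - l.2|} ∪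
          {y : ℝ | y ∈ Icc (-3 : ℝ) 3 ∧ ∃ l' ∈ Bd, |(fun l => v0 l + (f N).w l) l' - t| ≤ ηd ∧
            l'.1 + l'.2 * y = l.1 + l.2 * y ∧ d ≤ |l'.2 - l.2|}))) ∪
          {y : ℝ | y ∈ Icc (-3 : ℝ) 3 ∧ 1 / 8 ≤ |y| ∧ ∃ k ≤ N, ∃ l' ∈ F,
            kp ≤ |fderiv ℝ v0 l' (0, 1)| ∧
            |fderiv ℝ (fun l => v0 l + (f k).w l) l' (0, 1) -
              y * fderiv ℝ (fun l => v0 l + (f k).w l) l' (1, 0)| ≤ κ ∧
            |v0 l' + (f k).w l' - t| ≤ (f k).η ∧
            l'.1 + l'.2 * y = l.1 + l.2 * y ∧ d ≤ |l'.2 - l.2|}) := by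
          apply measure_mono
          rintro y ⟨l', hq, hinc, hdl⟩
          rcases hq with ⟨⟨hy, hlB⟩, hlt⟩ | hq
          · left
            rcases hlB with h | h | h | h
            · exact Or.inl ⟨hy, l', h, hlev0 l' (hKR h) ηa hη1 he0a hlt, hinc, hdl⟩
            · exact Or.inr (Or.inl ⟨hy, l', h, hlev0 l' (hT0R h) ηb hη2 he0b hlt, hinc, hdl⟩)
            · exact Or.inr (Or.inr (Or.inl ⟨hy, l', h, hlt.trans hη3, hinc, hdl⟩))
            · exact Or.inr (Or.inr (Or.inr ⟨hy, l', h, hlt.trans hη4, hinc, hdl⟩))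
          · right
            obtain ⟨k, hk, hqk⟩ := mem_iUnion₂.1 hq
            obtain ⟨⟨⟨⟨h1, h2⟩, h3⟩, h4⟩, h5⟩ := hqk
            exact ⟨h1.1, h2, k, Nat.lt_succ_iff.1 (Finset.mem_range.1 hk), l', h1.2, h3, h4, h5,
              hinc, hdl⟩
      _ ≤ (ba t + (bb t + (bc t + bd t))) +
          ENNReal.ofReal (C.card * (2160 * (Λ0 + 1) * κ / (kp ^ 2 * d) * (4 * g))) := by
          refine (measure_union_le _ _).trans (add_le_add ?_ hhit)
          refine (measure_union_le _ _).trans (add_le_add (hba t l) ?_)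
          refine (measure_union_le _ _).trans (add_le_add (hbb t l) ?_)
          exact (measure_union_le _ _).trans (add_le_add (hbc t l) (hbd t l))
      _ ≤ ENNReal.ofReal (ε / 2) + ENNReal.ofReal (ε / 2) :=
          add_le_add hb (ENNReal.ofReal_le_ofReal hκ3)
      _ = ENNReal.ofReal ε := by
          rw [← ENNReal.ofReal_add (by positivity) (by positivity)]; congr 1; ring

end Pool.Agent.Croft
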