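import Mathlib
import Pool.Agent.Croft.Final
import Pool.Agent.Croft.Key
import Pool.Agent.Croft.Stage
import Pool.Agent.Croft.Phase
import Pool.Agent.Croft.Layer

/-!
Croft's question (MP_f884a2_an): assembly of the modules.
-/

open MeasureTheory Set Filter Topology

namespace Pool.Agent.Croft

theorem layerStatement : LayerStatement := fun ha hr hA h => layer_props ha hr hA h

theorem phaseStatement : PhaseStatement := fun v0 R hR β A hβ hA hRA Λ hlip S hS hS0 hC1 ε τ d hε hτ hd =>
  phase v0 R hR β A hβ hA hRA Λ hlip S hS hS0 hC1 ε τ d hε hτ hd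

theorem stageStatement_of (hAp : ApproxStatement) : KeyM.StageStatement :=
  fun E hE ϱ hϱ hgap R hR hR0 ε τ d hε hτ hd =>
    stage_of layerStatement phaseStatement hAp E hE ϱ hϱ hgap R hR hR0 ε τ d hε hτ hd

theorem keyStatement_of (hAp : ApproxStatement) : KeyStatement :=
  KeyM.key_of_stage (stageStatement_of hAp)
    (nice_rect (by norm_num) (by norm_num) (by norm_num) (by norm_num))

theorem final_of_approx (hAp : ApproxStatement) :
    ∃ E : Set (EuclideanSpace ℝ (Fin 2)), MeasurableSet E ∧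
    0 < volume E ∧ volume E < ⊤ ∧
    ∀ t0 : ℝ, 0 < t0 → ∃ t : ℝ, 0 < t ∧ t < t0 ∧
      ∀ p d : EuclideanSpace ℝ (Fin 2), ‖d‖ = 1 →
        volume {s : ℝ | p + s • d ∈ E} ≠ ENNReal.ofReal t :=
  final_of_key (keyStatement_of hAp)

end Pool.Agent.Croft
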